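import Mathlib

set_option autoImplicit false
open Finset

namespace Pool.Agent.Helper12.AA

variable {E : Type*} [Fintype E] [DecidableEq E]

/-- The character `x^S`. -/
noncomputable def chi (S : Finset E) (x : E → ℤˣ) : ℝ := ∏ e ∈ S, ((x e : ℤ) : ℝ)

/-- Fourier coefficient. -/
noncomputable def fh (f : (E → ℤˣ) → ℝ) (S : Finset E) : ℝ :=
  (∑ x, f x * chi S x) / 2 ^ Fintype.card E

/-- Multilinear extension. -/
noncomputable def ext (f : (E → ℤˣ) → ℝ) (z : E → ℝ) : ℝ :=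
  ∑ x, f x * ∏ e, ((1 + ((x e : ℤ) : ℝ) * z e) / 2)

theorem ext_eq (f : (E → ℤˣ) → ℝ) (z : E → ℝ) :
    ext f z = ∑ S, fh f S * ∏ e ∈ S, z e := by
  unfold ext fh chi
  have h1 : ∀ x : E → ℤˣ, ∏ e, ((1 + ((x e : ℤ) : ℝ) * z e) / 2)
      = (∑ S : Finset E, (∏ e ∈ S, ((x e : ℤ) : ℝ)) * ∏ e ∈ S, z e) / 2 ^ Fintype.card E := by
    intro x
    rw [Finset.prod_div_distrib, Finset.prod_one_add]
    simp [Finset.prod_mul_distrib]
  simp_rw [h1, div_mul_eq_mul_div, Finset.sum_mul, ← mul_div_assoc, ← Finset.sum_div,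
    Finset.mul_sum]
  rw [Finset.sum_comm]
  simp [mul_assoc]

theorem sum_units (g : ℤˣ → ℝ) : ∑ u : ℤˣ, g u = g 1 + g (-1) := by
  have : (Finset.univ : Finset ℤˣ) = {1, -1} := by decide
  rw [this, Finset.sum_pair (by decide)]

theorem sum_prod (g : E → ℤˣ → ℝ) :
    ∑ x : E → ℤˣ, ∏ e, g e (x e) = ∏ e, (g e 1 + g e (-1)) := by
  simp_rw [← sum_units]
  rw [Finset.prod_univ_sum, Fintype.piFinset_univ]

theorem ext_bound {f : (E → ℤˣ) → ℝ} {B : ℝ} (hB : ∀ x, |f x| ≤ B) {z : E → ℝ}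
    (hz : ∀ e, |z e| ≤ 1) : |ext f z| ≤ B := by
  have hw : ∀ x : E → ℤˣ, 0 ≤ ∏ e, ((1 + ((x e : ℤ) : ℝ) * z e) / 2) := by
    intro x
    refine Finset.prod_nonneg fun e _ => ?_
    have h := abs_le.1 (hz e)
    rcases Int.units_eq_one_or (x e) with h1 | h1 <;> rw [h1] <;> simp <;> linarith
  have hs : ∑ x : E → ℤˣ, ∏ e, ((1 + ((x e : ℤ) : ℝ) * z e) / 2) = 1 := by
    rw [sum_prod (fun e u => ((1 + ((u : ℤ) : ℝ) * z e) / 2))]
    refine Finset.prod_eq_one fun e _ => ?_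
    simp
    ring
  unfold ext
  calc |∑ x, f x * ∏ e, ((1 + ((x e : ℤ) : ℝ) * z e) / 2)|
      ≤ ∑ x, |f x * ∏ e, ((1 + ((x e : ℤ) : ℝ) * z e) / 2)| := Finset.abs_sum_le_sum_abs _ _
    _ ≤ ∑ x : E → ℤˣ, B * ∏ e, ((1 + ((x e : ℤ) : ℝ) * z e) / 2) := by
        refine Finset.sum_le_sum fun x _ => ?_
        rw [abs_mul, abs_of_nonneg (hw x)]
        exact mul_le_mul_of_nonneg_right (hB x) (hw x)
    _ = B := by rw [← Finset.mul_sum, hs, mul_one]

theorem ext_sign (f : (E → ℤˣ) → ℝ) (y : E → ℤˣ) :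
    ext f (fun e => ((y e : ℤ) : ℝ)) = f y := by
  unfold ext
  rw [Finset.sum_eq_single y]
  · have : ∏ e, ((1 + ((y e : ℤ) : ℝ) * ((y e : ℤ) : ℝ)) / 2) = 1 := by
      refine Finset.prod_eq_one fun e _ => ?_
      rcases Int.units_eq_one_or (y e) with h1 | h1 <;> rw [h1] <;> norm_num
    rw [this, mul_one]
  · intro x _ hx
    obtain ⟨e, he⟩ : ∃ e, x e ≠ y e := by
      by_contra h; push Not at h; exact hx (funext h)
    rw [Finset.prod_eq_zero (Finset.mem_univ e), mul_zero]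
    show (1 + ((x e : ℤ) : ℝ) * ((y e : ℤ) : ℝ)) / 2 = 0
    rcases Int.units_eq_one_or (y e) with h1 | h1 <;>
    rcases Int.units_eq_one_or (x e) with h2 | h2 <;> rw [h1, h2] at he ⊢ <;> simp at he ⊢
  · simp

theorem inversion (f : (E → ℤˣ) → ℝ) (y : E → ℤˣ) :
    f y = ∑ S, fh f S * chi S y := by
  rw [← ext_sign f y, ext_eq]; rfl

theorem chi_orth (S T : Finset E) :
    ∑ x : E → ℤˣ, chi S x * chi T x = if S = T then (2 : ℝ) ^ Fintype.card E else 0 := by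
  have h1 : ∀ x : E → ℤˣ, chi S x * chi T x = ∏ e, ((if e ∈ S then ((x e : ℤ) : ℝ) else 1) *
      (if e ∈ T then ((x e : ℤ) : ℝ) else 1)) := by
    intro x
    unfold chi
    rw [Finset.prod_mul_distrib]
    simp [Finset.prod_ite_mem]
  simp_rw [h1]
  rw [sum_prod (fun e u => ((if e ∈ S then ((u : ℤ) : ℝ) else 1) *
      (if e ∈ T then ((u : ℤ) : ℝ) else 1)))]
  split_ifs with h
  · subst h
    rw [Finset.prod_eq_pow_card (b := (2:ℝ))]
    · simp
    · intro e _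
      split_ifs <;> norm_num
  · obtain ⟨e, he⟩ : ∃ e, ¬ (e ∈ S ↔ e ∈ T) := by
      by_contra hc; push Not at hc; exact h (Finset.ext hc)
    refine Finset.prod_eq_zero (Finset.mem_univ e) ?_
    by_cases h1 : e ∈ S <;> by_cases h2 : e ∈ T <;> simp [h1, h2] at he ⊢

theorem parseval (a : Finset E → ℝ) :
    (∑ x : E → ℤˣ, (∑ S, a S * chi S x) ^ 2) / 2 ^ Fintype.card E = ∑ S, a S ^ 2 := by
  have h1 : ∀ x : E → ℤˣ, (∑ S, a S * chi S x) ^ 2
      = ∑ S, ∑ T, a S * a T * (chi S x * chi T x) := by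
    intro x
    rw [sq, Finset.sum_mul_sum]
    refine Finset.sum_congr rfl fun S _ => Finset.sum_congr rfl fun T _ => ?_
    ring
  simp_rw [h1]
  rw [Finset.sum_comm]
  simp_rw [Finset.sum_comm (s := (Finset.univ : Finset (E → ℤˣ))), ← Finset.mul_sum, chi_orth]
  simp only [mul_ite, mul_zero, Finset.sum_ite_eq, Finset.mem_univ, if_true]
  rw [← Finset.sum_mul, mul_div_assoc, div_self (by positivity), mul_one]
  simp [sq]

/-- The largest absolute value bounds every Fourier square sum. -/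
theorem sum_sq_le_of_bound {a : Finset E → ℝ} {B : ℝ} (h : ∀ x, |∑ S, a S * chi S x| ≤ B) :
    ∑ S, a S ^ 2 ≤ B ^ 2 := by
  rw [← parseval, div_le_iff₀ (by positivity)]
  calc ∑ x : E → ℤˣ, (∑ S, a S * chi S x) ^ 2 ≤ ∑ x : E → ℤˣ, B ^ 2 := by
        refine Finset.sum_le_sum fun x _ => ?_
        rw [← sq_abs]
        exact pow_le_pow_left₀ (abs_nonneg _) (h x) 2
    _ = B ^ 2 * 2 ^ Fintype.card E := by
        simp [mul_comm]

end Pool.Agent.Helper12.AA
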