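import Mathlib

set_option autoImplicit false
open Finset Polynomial

namespace Pool.Agent.Helper12.AA

/-- Markov's inequality at the endpoint `0` of `[0,1]`. -/
theorem markov0 (P : ℝ[X]) (D : ℕ) (hdeg : P.natDegree ≤ D) (B : ℝ)
    (hB : ∀ t ∈ Set.Icc (0:ℝ) 1, |P.eval t| ≤ B) : |P.coeff 1| ≤ 2 * (D:ℝ) ^ 2 * B := by
  have hB0 : 0 ≤ B := (abs_nonneg _).trans (hB 0 (by simp))
  rcases hB0.eq_or_lt with h0 | hpos
  · -- P = 0
    have hP : P = 0 := by
      apply Polynomial.eq_zero_of_infinite_isRoot
      refine Set.Infinite.mono ?_ (Set.Icc_infinite (zero_lt_one (α := ℝ)))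
      intro t ht
      have := hB t ht
      rw [← h0] at this
      exact abs_nonpos_iff.1 this
    rw [hP, ← h0]; simp
  · have key : ∀ s : ℝ, (s = 1 ∨ s = -1) → s * P.coeff 1 ≤ 2 * (D:ℝ) ^ 2 * B := by
      intro s hs
      set Q : ℝ[X] := C (-s / B) * P.comp (C (1/2) - C (1/2) * X) with hQ
      have hdQ : Q.degree ≤ (D : ℕ) := by
        have h1 : (P.comp (C (1/2 : ℝ) - C (1/2) * X)).natDegree ≤ D := by
          refine (Polynomial.natDegree_comp_le).trans ?_
          have : (C (1/2 : ℝ) - C (1/2) * X).natDegree ≤ 1 := by compute_degree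
          calc P.natDegree * (C (1/2 : ℝ) - C (1/2) * X).natDegree ≤ D * 1 :=
                Nat.mul_le_mul hdeg this
            _ = D := by ring
        refine Polynomial.natDegree_le_iff_degree_le.1 ?_
        exact (Polynomial.natDegree_C_mul_le _ _).trans h1
      have hbQ : ∀ x ∈ Set.Icc (-1:ℝ) 1, |Q.eval x| ≤ 1 := by
        intro x hx
        have hx' : (1/2 - 1/2 * x) ∈ Set.Icc (0:ℝ) 1 := by
          constructor <;> [linarith [hx.2]; linarith [hx.1]]
        have := hB _ hx'
        simp only [hQ, eval_mul, eval_C, eval_comp, eval_sub, eval_X]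
        rw [abs_mul, abs_div, abs_of_pos hpos]
        have hs1 : |-s| = 1 := by rcases hs with h | h <;> simp [h]
        rw [hs1, one_div, inv_mul_le_iff₀ hpos, mul_one]
        simpa using this
      have h2 := Polynomial.Chebyshev.eval_iterate_derivative_le_of_forall_abs_le_one (k := 1)
        (le_refl (1:ℝ)) hdQ hbQ
      simp only [Function.iterate_one] at h2
      rw [Polynomial.Chebyshev.T_derivative_eq_U] at h2
      have h3 : (derivative Q).eval 1 = s / B * (1/2) * P.coeff 1 := by
        rw [hQ, derivative_C_mul, derivative_comp]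
        simp only [eval_mul, eval_C, eval_comp, eval_sub, eval_X, derivative_sub, derivative_C,
          derivative_mul, derivative_X]
        have : (derivative P).eval 0 = P.coeff 1 := by
          rw [← coeff_zero_eq_eval_zero, coeff_derivative]; simp
        norm_num
        rw [this]; ring
      rw [h3] at h2
      simp only [eval_mul, Polynomial.Chebyshev.U_eval_one] at h2
      have h4 : eval (1:ℝ) (((D:ℤ) : ℝ[X])) = (D : ℝ) := by simp
      rw [h4] at h2
      push_cast at h2
      have h5 : s / B * (1 / 2) * P.coeff 1 = (s * P.coeff 1) / (2 * B) := by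
        field_simp
      rw [h5, div_le_iff₀ (by positivity)] at h2
      calc s * P.coeff 1 ≤ ↑D * (↑D - 1 + 1) * (2 * B) := h2
        _ = 2 * (D:ℝ) ^ 2 * B := by ring
    rw [abs_le]
    have h1 := key 1 (Or.inl rfl)
    have h2 := key (-1) (Or.inr rfl)
    constructor <;> linarith

theorem extract {ι σ : Type*} [DecidableEq ι] (D : ℕ) (F : Finset σ) (a : ι → σ → ℕ)
    (R : Finset ι) : ∀ (c : σ → ℝ) (B : ℝ), (∀ j ∈ R, ∀ S ∈ F, a j S ≤ D) →
    (∀ t : ι → ℝ, (∀ j, t j ∈ Set.Icc (0:ℝ) 1) →
      |∑ S ∈ F, c S * ∏ j ∈ R, t j ^ a j S| ≤ B) →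
    |∑ S ∈ F with ∀ j ∈ R, a j S = 1, c S| ≤ (2 * (D:ℝ) ^ 2) ^ R.card * B := by
  induction R using Finset.induction_on with
  | empty =>
    intro c B _ h
    have := h 0 (fun j => by simp)
    simpa using this
  | insert j0 R' hj0 ih =>
    intro c B hD h
    have hstep : ∀ t : ι → ℝ, (∀ j, t j ∈ Set.Icc (0:ℝ) 1) →
        |∑ S ∈ F, (if a j0 S = 1 then c S else 0) * ∏ j ∈ R', t j ^ a j S|
          ≤ 2 * (D:ℝ) ^ 2 * B := by
      intro t ht
      set P : ℝ[X] := ∑ S ∈ F, C (c S * ∏ j ∈ R', t j ^ a j S) * X ^ (a j0 S) with hP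
      have hPd : P.natDegree ≤ D := by
        refine Polynomial.natDegree_sum_le_of_forall_le F _ fun S hS => ?_
        refine (Polynomial.natDegree_C_mul_X_pow_le _ _).trans ?_
        exact hD j0 (Finset.mem_insert_self _ _) S hS
      have hPb : ∀ u ∈ Set.Icc (0:ℝ) 1, |P.eval u| ≤ B := by
        intro u hu
        have := h (Function.update t j0 u) (by
          intro j
          by_cases hj : j = j0
          · subst hj; simpa using hu
          · simpa [hj] using ht j)
        convert this using 2
        rw [hP, eval_finsetSum]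
        refine Finset.sum_congr rfl fun S _ => ?_
        rw [Finset.prod_insert hj0, eval_mul, eval_C, eval_pow, eval_X]
        have : ∏ x ∈ R', Function.update t j0 u x ^ a x S = ∏ x ∈ R', t x ^ a x S := by
          refine Finset.prod_congr rfl fun x hx => ?_
          rw [Function.update_of_ne (by rintro rfl; exact hj0 hx)]
        rw [this]
        simp only [Function.update_self]
        ring
      have := markov0 P D hPd B hPb
      convert this using 2
      rw [hP, finsetSum_coeff]
      refine Finset.sum_congr rfl fun S _ => ?_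
      rw [coeff_C_mul_X_pow]
      by_cases h1 : a j0 S = 1
      · simp [h1]
      · simp [h1, Ne.symm h1]
    have := ih (fun S => if a j0 S = 1 then c S else 0) (2 * (D:ℝ) ^ 2 * B)
      (fun j hj S hS => hD j (Finset.mem_insert_of_mem hj) S hS) hstep
    rw [Finset.card_insert_of_notMem hj0, pow_succ, mul_assoc]
    convert this using 2
    rw [Finset.sum_filter, Finset.sum_filter]
    refine Finset.sum_congr rfl fun S _ => ?_
    simp only [Finset.forall_mem_insert]
    by_cases h1 : a j0 S = 1 <;> simp [h1]

end Pool.Agent.Helper12.AA
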