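import Pool.Agent.Helper12.AA1
import Pool.Agent.Helper12.AA2

set_option autoImplicit false
open Finset
open scoped Pointwise

namespace Pool.Agent.Helper12.AA

variable {V E : Type*} [Fintype V] [DecidableEq V] [Fintype E] [DecidableEq E]

/-- The set of vertices touched by a set `S` of coordinates. -/
def vs (supp : E → Finset V) (S : Finset E) : Finset V := S.biUnion supp

theorem prod_eq_percolation (p : V → ℝ) (W : Finset V) :
    ∏ v ∈ W, p v = ∑ A : Finset V, (∏ v ∈ A, p v) * (∏ v ∈ univ \ A, (1 - p v)) *
      (if W ⊆ A then 1 else 0) := by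
  have h := Finset.prod_add (fun v => p v) (fun v => (1 - p v) * (if v ∈ W then (0:ℝ) else 1))
    (univ : Finset V)
  have h1 : ∏ v, (p v + (1 - p v) * (if v ∈ W then (0:ℝ) else 1)) = ∏ v ∈ W, p v := by
    rw [← Finset.prod_subset (Finset.subset_univ W)]
    · refine Finset.prod_congr rfl fun v hv => by simp [hv]
    · intro v _ hv; simp [hv]
  rw [h1] at h
  rw [h, Finset.powerset_univ]
  refine Finset.sum_congr rfl fun A _ => ?_
  rw [Finset.prod_mul_distrib, mul_assoc]
  congr 2
  by_cases hW : W ⊆ A
  · rw [if_pos hW]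
    refine Finset.prod_eq_one fun v hv => ?_
    have : v ∉ W := fun h => (Finset.mem_sdiff.1 hv).2 (hW h)
    simp [this]
  · rw [if_neg hW]
    obtain ⟨v, hv1, hv2⟩ := Finset.not_subset.1 hW
    exact Finset.prod_eq_zero (i := v) (by simp [hv2]) (by simp [hv1])

theorem percolation (supp : E → Finset V) {f : (E → ℤˣ) → ℝ} {B : ℝ} (hB : ∀ x, |f x| ≤ B)
    (x : E → ℤˣ) {p : V → ℝ} (hp : ∀ v, p v ∈ Set.Icc (0:ℝ) 1) :
    |∑ S, fh f S * chi S x * ∏ v ∈ vs supp S, p v| ≤ B := by
  have hz : ∀ (A : Finset V), ∑ S, fh f S * chi S x * (if vs supp S ⊆ A then (1:ℝ) else 0)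
      = ext f (fun e => if supp e ⊆ A then ((x e : ℤ) : ℝ) else 0) := by
    intro A
    rw [ext_eq]
    refine Finset.sum_congr rfl fun S _ => ?_
    rw [mul_assoc]
    congr 1
    unfold chi vs
    by_cases h : S.biUnion supp ⊆ A
    · rw [if_pos h, mul_one]
      refine Finset.prod_congr rfl fun e he => ?_
      rw [if_pos ((Finset.subset_biUnion_of_mem supp he).trans h)]
    · rw [if_neg h, mul_zero]
      rw [Finset.biUnion_subset] at h
      push Not at h
      obtain ⟨e, he, h2⟩ := h
      exact (Finset.prod_eq_zero he (by simp [h2])).symm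
  have h1 : ∑ S, fh f S * chi S x * ∏ v ∈ vs supp S, p v
      = ∑ A : Finset V, ((∏ v ∈ A, p v) * (∏ v ∈ univ \ A, (1 - p v))) *
        ext f (fun e => if supp e ⊆ A then ((x e : ℤ) : ℝ) else 0) := by
    simp_rw [← hz, prod_eq_percolation p (vs supp _), Finset.mul_sum]
    rw [Finset.sum_comm]
    refine Finset.sum_congr rfl fun A _ => Finset.sum_congr rfl fun S _ => by ring
  have hw : ∀ A : Finset V, 0 ≤ (∏ v ∈ A, p v) * (∏ v ∈ univ \ A, (1 - p v)) := fun A =>
    mul_nonneg (Finset.prod_nonneg fun v _ => (hp v).1)
      (Finset.prod_nonneg fun v _ => by linarith [(hp v).2])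
  have hs : ∑ A : Finset V, (∏ v ∈ A, p v) * (∏ v ∈ univ \ A, (1 - p v)) = 1 := by
    have := prod_eq_percolation p (∅ : Finset V)
    simpa using this.symm
  rw [h1]
  calc |∑ A : Finset V, ((∏ v ∈ A, p v) * (∏ v ∈ univ \ A, (1 - p v))) *
        ext f (fun e => if supp e ⊆ A then ((x e : ℤ) : ℝ) else 0)|
      ≤ ∑ A : Finset V, |((∏ v ∈ A, p v) * (∏ v ∈ univ \ A, (1 - p v))) *
        ext f (fun e => if supp e ⊆ A then ((x e : ℤ) : ℝ) else 0)| :=
        Finset.abs_sum_le_sum_abs _ _
    _ ≤ ∑ A : Finset V, ((∏ v ∈ A, p v) * (∏ v ∈ univ \ A, (1 - p v))) * B := by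
        refine Finset.sum_le_sum fun A _ => ?_
        rw [abs_mul, abs_of_nonneg (hw A)]
        refine mul_le_mul_of_nonneg_left (ext_bound hB fun e => ?_) (hw A)
        split_ifs
        · rcases Int.units_eq_one_or (x e) with h | h <;> rw [h] <;> simp
        · simp
    _ = B := by rw [← Finset.sum_mul, hs, one_mul]

/-- Extending an injective colour preserving partial map to a colour preserving permutation. -/
theorem extend_perm {m : ℕ} (c : V → Fin m) (g : V → V) (T : Finset V)
    (hinj : Set.InjOn g T) (hc : ∀ v ∈ T, c (g v) = c v) :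
    ∃ π : Equiv.Perm V, (∀ v, c (π v) = c v) ∧ ∀ v ∈ T, π v = g v := by
  induction T using Finset.induction_on with
  | empty => exact ⟨1, by simp, by simp⟩
  | insert v T' hv ih =>
    obtain ⟨π, h1, h2⟩ := ih (hinj.mono (by simp)) (fun w hw => hc w (by simp [hw]))
    refine ⟨π.trans (Equiv.swap (π v) (g v)), ?_, ?_⟩
    · intro w
      simp only [Equiv.trans_apply]
      have hcv : c (π v) = c (g v) := by rw [h1, hc v (by simp)]
      rcases eq_or_ne (π w) (π v) with h | h
      · rw [h, Equiv.swap_apply_left, ← hcv, ← h, h1]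
      · rcases eq_or_ne (π w) (g v) with h' | h'
        · rw [h', Equiv.swap_apply_right, hcv, ← h', h1]
        · rw [Equiv.swap_apply_of_ne_of_ne h h', h1]
    · intro w hw
      simp only [Equiv.trans_apply]
      rcases Finset.mem_insert.1 hw with h | h
      · rw [h, Equiv.swap_apply_left]
      · have hwv : w ≠ v := by rintro rfl; exact hv h
        rw [Equiv.swap_apply_of_ne_of_ne, h2 w h]
        · exact fun h' => hwv (π.injective h')
        · rw [h2 w h]
          intro h'
          exact hwv (hinj (by simp [h]) (by simp) h')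

/-- Disjoint monochromatic classes of prescribed size. -/
theorem exists_classes {m : ℕ} (c : V → Fin m) (D : ℕ) (R : Finset V) (hR : R.card ≤ D) :
    ∃ K : V → Finset V, (∀ j ∈ R, ∀ v ∈ K j, c v = c j) ∧
      (∀ j ∈ R, (K j).card = (univ.filter fun v => c v = c j).card / D) ∧
      (∀ j ∈ R, ∀ j' ∈ R, j ≠ j' → Disjoint (K j) (K j')) := by
  induction R using Finset.induction_on with
  | empty => exact ⟨fun _ => ∅, by simp, by simp, by simp⟩
  | insert j0 R' hj0 ih =>
    rw [Finset.card_insert_of_notMem hj0] at hR
    obtain ⟨K, h1, h2, h3⟩ := ih (by omega)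
    set a := c j0 with ha
    set Va : Finset V := univ.filter fun v => c v = a with hVa
    have hav : Va.card / D ≤ (Va \ R'.biUnion K).card := by
      have hU : (R'.biUnion K ∩ Va).card ≤ R'.card * (Va.card / D) := by
        have hsub : R'.biUnion K ∩ Va ⊆ (R'.filter fun j => c j = a).biUnion K := by
          intro v hv
          rw [Finset.mem_inter, Finset.mem_biUnion] at hv
          obtain ⟨⟨j, hj, hvj⟩, hv2⟩ := hv
          rw [Finset.mem_biUnion]
          refine ⟨j, ?_, hvj⟩
          rw [Finset.mem_filter]
          refine ⟨hj, ?_⟩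
          rw [← h1 j hj v hvj]
          simpa [hVa] using hv2
        calc (R'.biUnion K ∩ Va).card ≤ ((R'.filter fun j => c j = a).biUnion K).card :=
              Finset.card_le_card hsub
          _ ≤ ∑ j ∈ (R'.filter fun j => c j = a), (K j).card := Finset.card_biUnion_le
          _ = ∑ j ∈ (R'.filter fun j => c j = a), (Va.card / D) := by
              refine Finset.sum_congr rfl fun j hj => ?_
              rw [Finset.mem_filter] at hj
              rw [h2 j hj.1, hj.2]
          _ = (R'.filter fun j => c j = a).card * (Va.card / D) := by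
              rw [Finset.sum_const, smul_eq_mul]
          _ ≤ R'.card * (Va.card / D) := Nat.mul_le_mul_right _ (Finset.card_filter_le _ _)
      have h4 : (Va \ R'.biUnion K).card = Va.card - (R'.biUnion K ∩ Va).card := by
        rw [Finset.card_sdiff]
      have h5 : D * (Va.card / D) ≤ Va.card := Nat.mul_div_le _ _
      have h6 : (R'.card + 1) * (Va.card / D) ≤ D * (Va.card / D) := Nat.mul_le_mul_right _ hR
      have h7 : (R'.card + 1) * (Va.card / D) = R'.card * (Va.card / D) + Va.card / D := by ring
      omega
    obtain ⟨K0, hK0, hK0c⟩ := Finset.exists_subset_card_eq hav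
    refine ⟨Function.update K j0 K0, ?_, ?_, ?_⟩
    · intro j hj v hv
      rcases Finset.mem_insert.1 hj with h | h
      · subst h
        rw [Function.update_self] at hv
        have := Finset.mem_sdiff.1 (hK0 hv)
        simpa [hVa] using this.1
      · have : j ≠ j0 := by rintro rfl; exact hj0 h
        rw [Function.update_of_ne this] at hv
        exact h1 j h v hv
    · intro j hj
      rcases Finset.mem_insert.1 hj with h | h
      · subst h
        rw [Function.update_self, hK0c]
      · have : j ≠ j0 := by rintro rfl; exact hj0 h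
        rw [Function.update_of_ne this, h2 j h]
    · have hd : ∀ j ∈ R', Disjoint K0 (K j) := by
        intro j hj
        rw [Finset.disjoint_left]
        intro v hv hvj
        exact (Finset.mem_sdiff.1 (hK0 hv)).2 (Finset.mem_biUnion.2 ⟨j, hj, hvj⟩)
      intro j hj j' hj' hne
      rcases Finset.mem_insert.1 hj with h | h <;> rcases Finset.mem_insert.1 hj' with h' | h'
      · exact absurd (h.trans h'.symm) hne
      · have : j' ≠ j0 := by rintro rfl; exact hj0 h'
        rw [h, Function.update_self, Function.update_of_ne this]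
        exact hd j' h'
      · have : j ≠ j0 := by rintro rfl; exact hj0 h
        rw [h', Function.update_self, Function.update_of_ne this]
        exact (hd j h).symm
      · have e1 : j ≠ j0 := by rintro rfl; exact hj0 h
        have e2 : j' ≠ j0 := by rintro rfl; exact hj0 h'
        rw [Function.update_of_ne e1, Function.update_of_ne e2]
        exact h3 j h j' h' hne

end Pool.Agent.Helper12.AA
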