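import Pool.Agent.Helper12.AA3

set_option autoImplicit false
open Finset
open scoped Pointwise

namespace Pool.Agent.Helper12.AA

/-- The group of all permutations of `V` which preserve the colouring `c`. -/
def cperm {V : Type*} {m : ℕ} (c : V → Fin m) : Subgroup (Equiv.Perm V) where
  carrier := {π | ∀ v, c (π v) = c v}
  mul_mem' := by
    intro a b ha hb v
    rw [Equiv.Perm.mul_apply, ha, hb]
  one_mem' := fun v => rfl
  inv_mem' := by
    intro a ha v
    have h := ha (a⁻¹ v)
    have h' : a (a⁻¹ v) = v := by simp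
    rw [h'] at h
    exact h.symm

variable {V E : Type*} [Fintype V] [DecidableEq V] [Fintype E] [DecidableEq E]
  {m : ℕ} {c : V → Fin m} [MulAction (cperm c) E]

omit [Fintype V] [DecidableEq V] in
/-- Fourier coefficients of an invariant function are invariant. -/
theorem fh_smul {f : (E → ℤˣ) → ℝ} (π : cperm c)
    (hf : ∀ x : E → ℤˣ, f (fun e => x (π • e)) = f x) (S : Finset E) :
    fh f (π • S) = fh f S := by
  unfold fh
  congr 1
  have hb : Function.Bijective (fun (x : E → ℤˣ) (e : E) => x (π • e)) := by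
    rw [Fintype.bijective_iff_injective_and_card]
    refine ⟨?_, rfl⟩
    intro x y hxy
    funext e
    have := congrFun hxy (π⁻¹ • e)
    simpa using this
  rw [← hb.sum_comp (fun x => f x * chi S x)]
  refine Finset.sum_congr rfl fun x _ => ?_
  rw [hf x]
  congr 1
  unfold chi
  rw [Finset.smul_finset_def, Finset.prod_image]
  intro e _ e' _ h
  exact MulAction.injective π h

omit [Fintype V] [Fintype E] in
theorem vs_smul {supp : E → Finset V} (π : cperm c)
    (h2 : ∀ e : E, supp (π • e) = (supp e).image (π : Equiv.Perm V)) (S : Finset E) :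
    vs supp (π • S) = (vs supp S).image (π : Equiv.Perm V) := by
  unfold vs
  rw [Finset.smul_finset_def, Finset.image_biUnion, Finset.biUnion_image]
  exact Finset.biUnion_congr rfl fun e _ => h2 e

omit [Fintype V] [Fintype E] [DecidableEq E] in
/-- The blow-up point. -/
theorem blowup (supp : E → Finset V)
    (h2 : ∀ (π : cperm c) (e : E), supp (π • e) = (supp e).image (π : Equiv.Perm V))
    (h3 : ∀ (π : cperm c) (e : E), (∀ v ∈ supp e, (π : Equiv.Perm V) v = v) → π • e = e)
    (L : Finset V) (hL : ∀ v w, c v = c w → (v ∈ L ↔ w ∈ L))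
    (R : Finset V) (K : V → Finset V)
    (hK3 : ∀ j ∈ R, ∀ j' ∈ R, j ≠ j' → Disjoint (K j) (K j')) (y : E → ℤˣ) :
    ∃ x : E → ℤˣ, ∀ π : cperm c, (∀ j ∈ R, (π : Equiv.Perm V) j ∈ K j) →
      (∀ v, v ∉ L → (π : Equiv.Perm V) v = v) → ∀ e, supp e ∩ L ⊆ R → x (π • e) = y e := by
  classical
  let Pr : E → cperm c → E → Prop := fun e' π e =>
    (∀ j ∈ R, (π : Equiv.Perm V) j ∈ K j) ∧
      (∀ v, v ∉ L → (π : Equiv.Perm V) v = v) ∧ supp e ∩ L ⊆ R ∧ π • e = e'
  have huniq : ∀ e' π e π' e'', Pr e' π e → Pr e' π' e'' → e = e'' := by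
    rintro e' π e π' e'' ⟨a2, a3, a4, a5⟩ ⟨b2, b3, b4, b5⟩
    have a1 := π.2
    have b1 := π'.2
    have hfix : (π⁻¹ * π') • e'' = e'' := by
      apply h3
      intro v hv
      rw [Subgroup.coe_mul, Subgroup.coe_inv, Equiv.Perm.mul_apply, Equiv.Perm.inv_eq_iff_eq]
      have hmem : (π' : Equiv.Perm V) v ∈ supp e' := by
        rw [← b5, h2]; exact Finset.mem_image_of_mem _ hv
      rw [← a5, h2, Finset.mem_image] at hmem
      obtain ⟨w, hw, hwv⟩ := hmem
      have hcw : c w = c v := by rw [← a1 w, hwv, b1]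
      by_cases hvL : v ∈ L
      · have hvR : v ∈ R := b4 (Finset.mem_inter.2 ⟨hv, hvL⟩)
        have hwL : w ∈ L := (hL _ _ hcw).2 hvL
        have hwR : w ∈ R := a4 (Finset.mem_inter.2 ⟨hw, hwL⟩)
        by_cases hne : w = v
        · rw [← hwv, hne]
        · exfalso
          have := hK3 w hwR v hvR hne
          rw [Finset.disjoint_left] at this
          exact this (a2 w hwR) (hwv ▸ b2 v hvR)
      · have e1 : (π' : Equiv.Perm V) v = v := b3 v hvL
        have hwL : w ∉ L := fun h => hvL ((hL _ _ hcw).1 h)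
        have e2 : (π : Equiv.Perm V) w = w := a3 w hwL
        have hwv' : w = v := by rw [← e2, hwv, e1]
        rw [← hwv, hwv']
    rw [mul_smul, inv_smul_eq_iff] at hfix
    rw [b5, ← a5] at hfix
    exact (MulAction.injective π hfix)
  refine ⟨fun e' => if h : ∃ e π, Pr e' π e then y h.choose else 1, ?_⟩
  intro π p2 p3 e he
  have hex : ∃ e₀ π₀, Pr (π • e) π₀ e₀ := ⟨e, π, p2, p3, he, rfl⟩
  simp only
  rw [dif_pos hex]
  obtain ⟨π₀, h0⟩ := hex.choose_spec
  rw [huniq _ _ _ _ _ h0 ⟨p2, p3, he, rfl⟩]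

end Pool.Agent.Helper12.AA
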