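import Pool.Agent.Helper12.AA4

set_option autoImplicit false
open Finset
open scoped Pointwise

namespace Pool.Agent.Helper12.AA

variable {V E : Type*} [Fintype V] [DecidableEq V] [Fintype E] [DecidableEq E]

omit [Fintype V] in
theorem image_inter_L {m : ℕ} (c : V → Fin m) (L : Finset V)
    (hL : ∀ v w, c v = c w → (v ∈ L ↔ w ∈ L)) (π : Equiv.Perm V) (hπ : ∀ v, c (π v) = c v)
    (W : Finset V) : W.image π ∩ L = (W ∩ L).image π := by
  ext v
  simp only [Finset.mem_inter, Finset.mem_image]
  constructor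
  · rintro ⟨⟨w, hw, rfl⟩, hv⟩
    exact ⟨w, ⟨hw, (hL _ _ (hπ w)).1 hv⟩, rfl⟩
  · rintro ⟨w, ⟨hw, hwL⟩, rfl⟩
    exact ⟨⟨w, hw, rfl⟩, (hL _ _ (hπ w)).2 hwL⟩

omit [Fintype V] [Fintype E] [DecidableEq E] in
theorem card_vs_le {supp : E → Finset V} {k d : ℕ} (hk : ∀ e, (supp e).card ≤ k)
    {S : Finset E} (hS : S.card ≤ d) : (vs supp S).card ≤ k * d := by
  unfold vs
  calc (S.biUnion supp).card ≤ ∑ e ∈ S, (supp e).card := Finset.card_biUnion_le
    _ ≤ ∑ e ∈ S, k := Finset.sum_le_sum fun e _ => hk e
    _ = S.card * k := by rw [Finset.sum_const, smul_eq_mul]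
    _ ≤ d * k := Nat.mul_le_mul_right _ hS
    _ = k * d := by ring

omit [Fintype V] in
/-- weights product -/
theorem prod_weights (L R : Finset V) (K : V → Finset V) (hKL : ∀ j ∈ R, K j ⊆ L)
    (t : V → ℝ) (W : Finset V) :
    ∏ v ∈ W, (if v ∈ L then (if v ∈ R.biUnion K then ∏ j ∈ R, (if v ∈ K j then t j else 1)
      else 0) else 1) =
    (if W ∩ L ⊆ R.biUnion K then (1:ℝ) else 0) * ∏ j ∈ R, t j ^ (W ∩ K j).card := by
  by_cases h : W ∩ L ⊆ R.biUnion K
  · rw [if_pos h, one_mul]
    have h1 : ∀ v ∈ W, (if v ∈ L then (if v ∈ R.biUnion K then ∏ j ∈ R,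
        (if v ∈ K j then t j else 1) else 0) else 1) = ∏ j ∈ R, (if v ∈ K j then t j else 1) := by
      intro v hv
      by_cases hvL : v ∈ L
      · rw [if_pos hvL, if_pos (h (Finset.mem_inter.2 ⟨hv, hvL⟩))]
      · rw [if_neg hvL]
        symm
        refine Finset.prod_eq_one fun j hj => ?_
        rw [if_neg (fun h' => hvL (hKL j hj h'))]
    rw [Finset.prod_congr rfl h1, Finset.prod_comm]
    refine Finset.prod_congr rfl fun j _ => ?_
    rw [Finset.prod_ite, Finset.prod_const, Finset.prod_const_one, mul_one,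
      Finset.filter_mem_eq_inter]
  · rw [if_neg h, zero_mul]
    obtain ⟨v, hv1, hv2⟩ := Finset.not_subset.1 h
    rw [Finset.mem_inter] at hv1
    refine Finset.prod_eq_zero hv1.1 ?_
    rw [if_pos hv1.2, if_neg hv2]

variable {m : ℕ} {c : V → Fin m} [MulAction (cperm c) E]

theorem block_bound (supp : E → Finset V)
    (h2 : ∀ (π : cperm c) (e : E), supp (π • e) = (supp e).image (π : Equiv.Perm V))
    (h3 : ∀ (π : cperm c) (e : E), (∀ v ∈ supp e, (π : Equiv.Perm V) v = v) → π • e = e)
    {k d D : ℕ} (hk : ∀ e, (supp e).card ≤ k) (hD : k * d ≤ D)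
    {f : (E → ℤˣ) → ℝ} {B : ℝ} (hB : ∀ x, |f x| ≤ B)
    (hf : ∀ π : cperm c, ∀ x : E → ℤˣ, f (fun e => x (π • e)) = f x)
    (hdeg : ∀ S, d < S.card → fh f S = 0)
    (L : Finset V) (hL : ∀ v w, c v = c w → (v ∈ L ↔ w ∈ L))
    (R : Finset V) (hRL : R ⊆ L) (K : V → Finset V)
    (hK1 : ∀ j ∈ R, ∀ v ∈ K j, c v = c j)
    (hK3 : ∀ j ∈ R, ∀ j' ∈ R, j ≠ j' → Disjoint (K j) (K j')) (y : E → ℤˣ) :
    (∏ j ∈ R, ((K j).card : ℝ)) * |∑ S with vs supp S ∩ L = R, fh f S * chi S y|
      ≤ (2 * (D:ℝ) ^ 2) ^ R.card * B := by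
  classical
  obtain ⟨x, hx⟩ := blowup supp h2 h3 L hL R K hK3 y
  have hKL : ∀ j ∈ R, K j ⊆ L := fun j hj v hv => (hL _ _ (hK1 j hj v hv)).2 (hRL hj)
  set F : Finset (Finset E) := univ.filter (fun S => S.card ≤ d) with hF
  have hFd : ∀ S, S ∉ F → fh f S = 0 := by
    intro S hS
    apply hdeg
    simpa [hF] using hS
  have hext := extract D F (fun j S => (vs supp S ∩ K j).card) R
    (fun S => fh f S * chi S x * (if vs supp S ∩ L ⊆ R.biUnion K then 1 else 0)) B
    (by
      intro j _ S hS
      have hSd : S.card ≤ d := by simpa [hF] using hS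
      exact ((Finset.card_le_card Finset.inter_subset_left).trans (card_vs_le hk hSd)).trans hD)
    (by
      intro t ht
      have hp := percolation supp hB x (p := fun v => if v ∈ L then
        (if v ∈ R.biUnion K then ∏ j ∈ R, (if v ∈ K j then t j else 1) else 0) else 1) (by
          intro v
          split_ifs
          · constructor
            · refine Finset.prod_nonneg fun j _ => ?_
              split_ifs
              · exact (ht j).1
              · exact zero_le_one
            · refine Finset.prod_le_one (fun j _ => ?_) fun j _ => ?_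
              · split_ifs
                · exact (ht j).1
                · exact zero_le_one
              · split_ifs
                · exact (ht j).2
                · exact le_refl _
          · simp
          · simp)
      convert hp using 2
      rw [← Finset.sum_subset (Finset.subset_univ F)
        (fun S _ hS => by rw [hFd S hS]; ring)]
      refine Finset.sum_congr rfl fun S _ => ?_
      rw [prod_weights L R K hKL t (vs supp S)]
      ring)
  -- the choice functions
  set I : Finset (V → V) := Fintype.piFinset (fun v => if v ∈ R then K v else {v}) with hI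
  have hI1 : ∀ i ∈ I, ∀ j ∈ R, i j ∈ K j := by
    intro i hi j hj
    have := Fintype.mem_piFinset.1 hi j
    simpa [hj] using this
  have hI2 : ∀ i ∈ I, ∀ j, j ∉ R → i j = j := by
    intro i hi j hj
    have := Fintype.mem_piFinset.1 hi j
    simpa [hj] using this
  have hIc : (I.card : ℝ) = ∏ j ∈ R, ((K j).card : ℝ) := by
    rw [hI, Fintype.card_piFinset]
    push_cast
    rw [← Finset.prod_subset (Finset.subset_univ R)]
    · refine Finset.prod_congr rfl fun j hj => by simp [hj]
    · intro j _ hj; simp [hj]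
  set FR : Finset (Finset E) := F.filter (fun S => vs supp S ∩ L = R) with hFR
  have huniq : ∀ i ∈ I, ∀ j ∈ R, ∀ j' ∈ R, i j ∈ K j' → j = j' := by
    intro i hi j hj j' hj' h
    by_contra hne
    have := hK3 j hj j' hj' hne
    rw [Finset.disjoint_left] at this
    exact this (hI1 i hi j hj) h
  -- value of each fibre
  have hfib : ∀ i ∈ I, ∑ S ∈ F with vs supp S ∩ L = R.image i, fh f S * chi S x
      = ∑ S ∈ FR, fh f S * chi S y := by
    intro i hi
    obtain ⟨π0, hπ1, hπ2⟩ := extend_perm c i (R ∪ (univ \ L)) (by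
      intro v hv w hw hvw
      simp only [Finset.coe_union, Finset.coe_sdiff, Finset.coe_univ, Set.mem_union,
        Set.mem_sdiff, Set.mem_univ, true_and, Finset.mem_coe] at hv hw
      have hout : ∀ v, v ∉ L → i v = v := fun v hv => hI2 i hi v (fun h => hv (hRL h))
      rcases hv with hv | hv <;> rcases hw with hw | hw
      · exact huniq i hi v hv w hw (hvw ▸ hI1 i hi w hw)
      · exfalso
        rw [hout w hw] at hvw
        exact hw (hvw ▸ hKL v hv (hI1 i hi v hv))
      · exfalso
        rw [hout v hv] at hvw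
        exact hv (hvw ▸ hKL w hw (hI1 i hi w hw))
      · rw [hout v hv, hout w hw] at hvw
        exact hvw) (by
      intro v hv
      by_cases hvR : v ∈ R
      · exact hK1 v hvR _ (hI1 i hi v hvR)
      · rw [hI2 i hi v hvR])
    let π : cperm c := ⟨π0, hπ1⟩
    have hπR : ∀ j ∈ R, (π : Equiv.Perm V) j = i j := fun j hj => hπ2 j (by simp [hj])
    have hπL : ∀ v, v ∉ L → (π : Equiv.Perm V) v = v := fun v hv => by
      show π0 v = v
      rw [hπ2 v (by simp [hv]), hI2 i hi v (fun h => hv (hRL h))]
    have hRim : R.image (π : Equiv.Perm V) = R.image i :=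
      Finset.image_congr (fun j hj => hπR j hj)
    symm
    refine Finset.sum_nbij' (fun S => π • S) (fun S => π⁻¹ • S) ?_ ?_ ?_ ?_ ?_
    · intro S hS
      simp only [hFR, hF, Finset.mem_filter, Finset.mem_univ, true_and] at hS ⊢
      refine ⟨by rw [Finset.card_smul_finset]; exact hS.1, ?_⟩
      rw [vs_smul π (h2 π), image_inter_L c L hL π π.2, hS.2, hRim]
    · intro S hS
      simp only [hFR, hF, Finset.mem_filter, Finset.mem_univ, true_and] at hS ⊢
      refine ⟨by rw [Finset.card_smul_finset]; exact hS.1, ?_⟩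
      rw [vs_smul π⁻¹ (h2 π⁻¹), image_inter_L c L hL _ (π⁻¹).2, hS.2, ← hRim, Finset.image_image]
      have : (⇑((π⁻¹ : cperm c) : Equiv.Perm V) ∘ ⇑(π : Equiv.Perm V)) = id := by
        funext v; simp
      rw [this, Finset.image_id]
    · intro S _; exact inv_smul_smul π S
    · intro S _; exact smul_inv_smul π S
    · intro S hS
      simp only [hFR, hF, Finset.mem_filter, Finset.mem_univ, true_and] at hS
      rw [fh_smul π (hf π)]
      congr 1
      unfold chi
      rw [Finset.smul_finset_def, Finset.prod_image (fun e _ e' _ h => MulAction.injective π h)]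
      refine Finset.prod_congr rfl fun e he => ?_
      rw [hx π (fun j hj => by rw [hπR j hj]; exact hI1 i hi j hj) hπL e ?_]
      rw [← hS.2]
      exact Finset.inter_subset_inter_right (Finset.subset_biUnion_of_mem supp he)
  have hmain : ∑ S ∈ F with ∀ j ∈ R, (vs supp S ∩ K j).card = 1,
      fh f S * chi S x * (if vs supp S ∩ L ⊆ R.biUnion K then 1 else 0)
      = (∏ j ∈ R, ((K j).card : ℝ)) * ∑ S ∈ FR, fh f S * chi S y := by
    have e1 : ∑ S ∈ F with ∀ j ∈ R, (vs supp S ∩ K j).card = 1,
        fh f S * chi S x * (if vs supp S ∩ L ⊆ R.biUnion K then 1 else 0)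
        = ∑ S ∈ (F.filter (fun S => ∀ j ∈ R, (vs supp S ∩ K j).card = 1)).filter
          (fun S => vs supp S ∩ L ⊆ R.biUnion K), fh f S * chi S x := by
      rw [Finset.sum_filter (fun S => vs supp S ∩ L ⊆ R.biUnion K)]
      refine Finset.sum_congr rfl fun S _ => ?_
      split_ifs <;> simp
    have e2 : (F.filter (fun S => ∀ j ∈ R, (vs supp S ∩ K j).card = 1)).filter
          (fun S => vs supp S ∩ L ⊆ R.biUnion K)
        = I.biUnion (fun i => F.filter (fun S => vs supp S ∩ L = R.image i)) := by
      ext S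
      simp only [Finset.mem_filter, Finset.mem_biUnion]
      constructor
      · rintro ⟨⟨hSF, hS1⟩, hS2⟩
        have hch : ∀ v, ∃ w, (v ∈ R → vs supp S ∩ K v = {w}) ∧ (v ∉ R → w = v) := by
          intro v
          by_cases hv : v ∈ R
          · obtain ⟨w, hw⟩ := Finset.card_eq_one.1 (hS1 v hv)
            exact ⟨w, fun _ => hw, fun h => absurd hv h⟩
          · exact ⟨v, fun h => absurd h hv, fun _ => rfl⟩
        choose i hi using hch
        refine ⟨i, ?_, hSF, ?_⟩
        · rw [hI, Fintype.mem_piFinset]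
          intro v
          by_cases hv : v ∈ R
          · rw [if_pos hv]
            have : i v ∈ vs supp S ∩ K v := by rw [(hi v).1 hv]; simp
            exact (Finset.mem_inter.1 this).2
          · rw [if_neg hv, (hi v).2 hv]; simp
        · ext v
          constructor
          · intro hv
            obtain ⟨j, hj, hvj⟩ := Finset.mem_biUnion.1 (hS2 hv)
            rw [Finset.mem_image]
            refine ⟨j, hj, ?_⟩
            have : v ∈ vs supp S ∩ K j := Finset.mem_inter.2 ⟨(Finset.mem_inter.1 hv).1, hvj⟩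
            rw [(hi j).1 hj, Finset.mem_singleton] at this
            exact this.symm
          · intro hv
            obtain ⟨j, hj, rfl⟩ := Finset.mem_image.1 hv
            have : i j ∈ vs supp S ∩ K j := by rw [(hi j).1 hj]; simp
            rw [Finset.mem_inter] at this ⊢
            exact ⟨this.1, hKL j hj this.2⟩
      · rintro ⟨i, hi, hSF, hS⟩
        have hsub : vs supp S ∩ L ⊆ R.biUnion K := by
          rw [hS]
          intro v hv
          obtain ⟨j, hj, rfl⟩ := Finset.mem_image.1 hv
          exact Finset.mem_biUnion.2 ⟨j, hj, hI1 i hi j hj⟩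
        refine ⟨⟨hSF, ?_⟩, hsub⟩
        intro j hj
        rw [Finset.card_eq_one]
        refine ⟨i j, ?_⟩
        ext v
        rw [Finset.mem_inter, Finset.mem_singleton]
        constructor
        · rintro ⟨hv1, hv2⟩
          have hvL : v ∈ vs supp S ∩ L := Finset.mem_inter.2 ⟨hv1, hKL j hj hv2⟩
          rw [hS, Finset.mem_image] at hvL
          obtain ⟨j', hj', rfl⟩ := hvL
          rw [huniq i hi j' hj' j hj hv2]
        · rintro rfl
          have : i j ∈ vs supp S ∩ L := by rw [hS]; exact Finset.mem_image_of_mem _ hj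
          exact ⟨(Finset.mem_inter.1 this).1, hI1 i hi j hj⟩
    rw [e1, e2, Finset.sum_biUnion]
    · rw [Finset.sum_congr rfl hfib, Finset.sum_const, nsmul_eq_mul, hIc]
    · intro i hi i' hi' hne
      rw [Function.onFun, Finset.disjoint_left]
      intro S hS hS'
      rw [Finset.mem_filter] at hS hS'
      apply hne
      have him : R.image i = R.image i' := hS.2.symm.trans hS'.2
      funext v
      by_cases hv : v ∈ R
      · have h1 : i v ∈ R.image i' := by rw [← him]; exact Finset.mem_image_of_mem _ hv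
        obtain ⟨j', hj', hj2⟩ := Finset.mem_image.1 h1
        have : v = j' := huniq i hi v hv j' hj' (hj2 ▸ hI1 i' hi' j' hj')
        rw [← hj2, this]
      · rw [hI2 i hi v hv, hI2 i' hi' v hv]
  have hext2 : |(∏ j ∈ R, ((K j).card : ℝ)) * ∑ S ∈ FR, fh f S * chi S y|
      ≤ (2 * (D:ℝ) ^ 2) ^ R.card * B := by
    rw [← hmain]
    convert hext using 4
  have hpos : (0:ℝ) ≤ ∏ j ∈ R, ((K j).card : ℝ) := Finset.prod_nonneg fun _ _ => Nat.cast_nonneg _
  rw [abs_mul, abs_of_nonneg hpos] at hext2
  have heq : ∑ S with vs supp S ∩ L = R, fh f S * chi S y = ∑ S ∈ FR, fh f S * chi S y := by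
    rw [hFR, hF, Finset.filter_filter, Finset.sum_filter, Finset.sum_filter]
    refine Finset.sum_congr rfl fun S _ => ?_
    by_cases hS : S.card ≤ d
    · simp [hS]
    · rw [hdeg S (not_le.1 hS)]; simp
  rw [heq]
  exact hext2

end Pool.Agent.Helper12.AA
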