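import Pool.Agent.Helper12.AA5

set_option autoImplicit false
open Finset
open scoped Pointwise

namespace Pool.Agent.Helper12.AA

variable {V : Type*} [Fintype V] [DecidableEq V] {m : ℕ}

/-- size of the colour class of `v` -/
def N (c : V → Fin m) (v : V) : ℕ := (univ.filter fun w => c w = c v).card

omit [DecidableEq V] in
theorem N_pos (c : V → Fin m) (v : V) : 0 < N c v :=
  Finset.card_pos.2 ⟨v, by simp⟩

omit [DecidableEq V] in
theorem sum_inv_N (c : V → Fin m) : ∑ v, (1 : ℝ) / N c v ≤ m := by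
  rw [← Finset.sum_fiberwise (s := univ) (g := c)]
  calc ∑ a : Fin m, ∑ v with c v = a, (1 : ℝ) / N c v ≤ ∑ a : Fin m, (1:ℝ) := by
        refine Finset.sum_le_sum fun a _ => ?_
        have h1 : ∀ v ∈ univ.filter (fun v => c v = a), (1 : ℝ) / N c v
            = 1 / ((univ.filter fun v => c v = a).card : ℝ) := by
          intro v hv
          rw [Finset.mem_filter] at hv
          unfold N
          rw [hv.2]
        rw [Finset.sum_congr rfl h1, Finset.sum_const, nsmul_eq_mul, mul_one_div]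
        exact div_self_le_one _
    _ = m := by simp

/-- sum over small subsets -/
theorem sum_subsets_le {ι : Type*} [DecidableEq ι] (w : ι → ℝ) (hw : ∀ v, 0 ≤ w v)
    (U : Finset ι) : ∀ k : ℕ,
    ∑ T ∈ U.powerset, (if T.card ≤ k then ∏ v ∈ T, w v else 0) ≤ (1 + ∑ v ∈ U, w v) ^ k := by
  induction U using Finset.induction_on with
  | empty => intro k; simp
  | insert v U hv ih =>
    intro k
    have hs : 0 ≤ ∑ u ∈ U, w u := Finset.sum_nonneg fun u _ => hw u
    rw [Finset.sum_powerset_insert hv, Finset.sum_insert hv]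
    have hcard : ∀ t ∈ U.powerset, (insert v t).card = t.card + 1 := fun t ht =>
      Finset.card_insert_of_notMem (fun h => hv (Finset.mem_powerset.1 ht h))
    have hprod : ∀ t ∈ U.powerset, ∏ u ∈ insert v t, w u = w v * ∏ u ∈ t, w u := fun t ht =>
      Finset.prod_insert (fun h => hv (Finset.mem_powerset.1 ht h))
    cases k with
    | zero =>
      have h0 : ∑ t ∈ U.powerset, (if (insert v t).card ≤ 0 then ∏ u ∈ insert v t, w u else 0)
          = 0 := by
        refine Finset.sum_eq_zero fun t ht => ?_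
        rw [hcard t ht]; simp
      rw [h0, add_zero]
      simp
    | succ k =>
      have h1 : ∑ t ∈ U.powerset, (if (insert v t).card ≤ k + 1 then ∏ u ∈ insert v t, w u else 0)
          = w v * ∑ t ∈ U.powerset, (if t.card ≤ k then ∏ u ∈ t, w u else 0) := by
        rw [Finset.mul_sum]
        refine Finset.sum_congr rfl fun t ht => ?_
        rw [hcard t ht, hprod t ht]
        by_cases h : t.card ≤ k
        · rw [if_pos h, if_pos (by omega)]
        · rw [if_neg h, if_neg (by omega), mul_zero]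
      rw [h1]
      have hw' := hw v
      calc _ ≤ (1 + ∑ u ∈ U, w u) ^ (k + 1) + w v * (1 + ∑ u ∈ U, w u) ^ k :=
            add_le_add (ih (k + 1)) (mul_le_mul_of_nonneg_left (ih k) hw')
        _ = (1 + ∑ u ∈ U, w u) ^ k * (1 + (w v + ∑ u ∈ U, w u)) := by ring
        _ ≤ (1 + (w v + ∑ u ∈ U, w u)) ^ k * (1 + (w v + ∑ u ∈ U, w u)) := by
            refine mul_le_mul_of_nonneg_right ?_ (by positivity)
            exact pow_le_pow_left₀ (by positivity) (by linarith) k
        _ = (1 + (w v + ∑ u ∈ U, w u)) ^ (k + 1) := by ring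

/-- the set of vertices with a large colour class -/
def Lg (c : V → Fin m) (D : ℕ) : Finset V := univ.filter fun v => 16 * D ^ 6 ≤ N c v

/-- the weight of a vertex -/
noncomputable def wt (c : V → Fin m) (D : ℕ) (v : V) : ℝ :=
  if v ∈ Lg c D then 4 * (D:ℝ) ^ 3 / N c v else 1

theorem wt_nonneg (c : V → Fin m) (D : ℕ) (v : V) : 0 ≤ wt c D v := by
  unfold wt; split_ifs <;> positivity

theorem wt_le (c : V → Fin m) {D : ℕ} (hD : 1 ≤ D) (v : V) :
    wt c D v ≤ 16 * (D:ℝ) ^ 6 * (1 / N c v) := by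
  have hN : (0:ℝ) < N c v := by exact_mod_cast N_pos c v
  have hD' : (1:ℝ) ≤ D := by exact_mod_cast hD
  unfold wt
  split_ifs with h
  · rw [mul_one_div]
    refine div_le_div_of_nonneg_right ?_ hN.le
    have : (D:ℝ) ^ 3 ≤ (D:ℝ) ^ 6 := pow_le_pow_right₀ hD' (by norm_num)
    nlinarith [pow_pos (zero_lt_one.trans_le hD') 3]
  · rw [mul_one_div, le_div_iff₀ hN, one_mul]
    simp only [Lg, Finset.mem_filter, Finset.mem_univ, true_and, not_le] at h
    exact_mod_cast h.le

theorem wt_sq_le (c : V → Fin m) {D : ℕ} {v : V} (hv : v ∈ Lg c D) :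
    wt c D v ^ 2 ≤ 1 / N c v := by
  have hN : (0:ℝ) < N c v := by exact_mod_cast N_pos c v
  unfold wt
  rw [if_pos hv]
  simp only [Lg, Finset.mem_filter, Finset.mem_univ, true_and] at hv
  have hv' : 16 * (D:ℝ) ^ 6 ≤ N c v := by exact_mod_cast hv
  rw [div_pow, div_le_div_iff₀ (by positivity) hN, one_mul]
  nlinarith

theorem prod_one_add_wt_sq_le (c : V → Fin m) (D : ℕ) :
    ∏ v ∈ Lg c D, (1 + wt c D v ^ 2) ≤ Real.exp m := by
  calc ∏ v ∈ Lg c D, (1 + wt c D v ^ 2) ≤ ∏ v ∈ Lg c D, Real.exp (wt c D v ^ 2) := by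
        refine Finset.prod_le_prod (fun v _ => by positivity) fun v _ => ?_
        rw [add_comm]; exact Real.add_one_le_exp _
    _ = Real.exp (∑ v ∈ Lg c D, wt c D v ^ 2) := (Real.exp_sum _ _).symm
    _ ≤ Real.exp m := by
        refine Real.exp_le_exp.2 ?_
        calc ∑ v ∈ Lg c D, wt c D v ^ 2 ≤ ∑ v ∈ Lg c D, (1:ℝ) / N c v :=
              Finset.sum_le_sum fun v hv => wt_sq_le c hv
          _ ≤ ∑ v, (1:ℝ) / N c v := Finset.sum_le_sum_of_subset_of_nonneg (Finset.subset_univ _)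
              fun v _ _ => by positivity
          _ ≤ m := sum_inv_N c

theorem sum_wt_le (c : V → Fin m) {D : ℕ} (hD : 1 ≤ D) :
    ∑ v, wt c D v ≤ 16 * (D:ℝ) ^ 6 * m := by
  calc ∑ v, wt c D v ≤ ∑ v, 16 * (D:ℝ) ^ 6 * (1 / N c v) :=
        Finset.sum_le_sum fun v _ => wt_le c hD v
    _ = 16 * (D:ℝ) ^ 6 * ∑ v, (1:ℝ) / N c v := by rw [Finset.mul_sum]
    _ ≤ 16 * (D:ℝ) ^ 6 * m := mul_le_mul_of_nonneg_left (sum_inv_N c) (by positivity)

omit [DecidableEq V] in
theorem Lg_color (c : V → Fin m) (D : ℕ) (v w : V) (h : c v = c w) :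
    (v ∈ Lg c D ↔ w ∈ Lg c D) := by
  simp only [Lg, Finset.mem_filter, Finset.mem_univ, true_and, N, h]

variable {E : Type*} [Fintype E] [DecidableEq E] {c : V → Fin m} [MulAction (cperm c) E]

theorem level_bound (supp : E → Finset V)
    (h2 : ∀ (π : cperm c) (e : E), supp (π • e) = (supp e).image (π : Equiv.Perm V))
    (h3 : ∀ (π : cperm c) (e : E), (∀ v ∈ supp e, (π : Equiv.Perm V) v = v) → π • e = e)
    {k d D : ℕ} (hk : ∀ e, (supp e).card ≤ k) (hD : k * d ≤ D) (hD1 : 1 ≤ D)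
    {f : (E → ℤˣ) → ℝ} {B : ℝ} (hB : ∀ x, |f x| ≤ B)
    (hf : ∀ π : cperm c, ∀ x : E → ℤˣ, f (fun e => x (π • e)) = f x)
    (hdeg : ∀ S, d < S.card → fh f S = 0)
    (R : Finset V) (hRL : R ⊆ Lg c D) :
    ∑ S with vs supp S ∩ Lg c D = R, fh f S ^ 2 ≤ B ^ 2 * (∏ j ∈ R, wt c D j ^ 2) := by
  have hB0 : 0 ≤ B := (abs_nonneg _).trans (hB 1)
  by_cases hR : R.card ≤ D
  · obtain ⟨K, hK1, hK2, hK3⟩ := exists_classes c D R hR
    have hmain := block_bound supp h2 h3 hk hD hB hf hdeg (Lg c D) (Lg_color c D) R hRL K hK1 hK3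
    have hDr : (1:ℝ) ≤ D := by exact_mod_cast hD1
    have hKr : ∀ j ∈ R, (N c j : ℝ) / (2 * D) ≤ (K j).card := by
      intro j hj
      have h1 := hRL hj
      simp only [Lg, Finset.mem_filter, Finset.mem_univ, true_and] at h1
      have h2 : D ≤ N c j := by
        have : D ≤ D ^ 6 := Nat.le_self_pow (by norm_num) D
        omega
      have h3 : (K j).card = N c j / D := hK2 j hj
      have h4 : N c j < D * (N c j / D + 1) := Nat.lt_mul_div_succ _ hD1
      have h5 : 1 ≤ N c j / D := (Nat.one_le_div_iff hD1).2 h2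
      rw [h3, div_le_iff₀ (by positivity)]
      have h6 : N c j ≤ (N c j / D) * (2 * D) := by nlinarith
      exact_mod_cast h6
    have hKpos : ∀ j ∈ R, (0:ℝ) < (K j).card := by
      intro j hj
      refine lt_of_lt_of_le ?_ (hKr j hj)
      have : (0:ℝ) < N c j := by exact_mod_cast N_pos c j
      positivity
    have hKp : 0 < ∏ j ∈ R, ((K j).card : ℝ) := Finset.prod_pos hKpos
    have hb : ∀ y : E → ℤˣ, |∑ S, (if vs supp S ∩ Lg c D = R then fh f S else 0) * chi S y|
        ≤ B * ∏ j ∈ R, wt c D j := by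
      intro y
      have e1 : ∑ S, (if vs supp S ∩ Lg c D = R then fh f S else 0) * chi S y
          = ∑ S with vs supp S ∩ Lg c D = R, fh f S * chi S y := by
        rw [Finset.sum_filter]
        refine Finset.sum_congr rfl fun S _ => ?_
        split_ifs <;> simp
      rw [e1]
      have h := hmain y
      have e2 : |∑ S with vs supp S ∩ Lg c D = R, fh f S * chi S y|
          ≤ (2 * (D:ℝ) ^ 2) ^ R.card * B / ∏ j ∈ R, ((K j).card : ℝ) := by
        rw [le_div_iff₀ hKp, mul_comm]; exact h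
      refine e2.trans ?_
      have e3 : (2 * (D:ℝ) ^ 2) ^ R.card * B / ∏ j ∈ R, ((K j).card : ℝ)
          = B * ∏ j ∈ R, (2 * (D:ℝ) ^ 2 / (K j).card) := by
        rw [Finset.prod_div_distrib, Finset.prod_const]; ring
      rw [e3]
      refine mul_le_mul_of_nonneg_left ?_ hB0
      refine Finset.prod_le_prod (fun j _ => by positivity) fun j hj => ?_
      unfold wt
      rw [if_pos (hRL hj)]
      have hN : (0:ℝ) < N c j := by exact_mod_cast N_pos c j
      calc 2 * (D:ℝ) ^ 2 / (K j).card ≤ 2 * (D:ℝ) ^ 2 / ((N c j : ℝ) / (2 * D)) := by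
            refine div_le_div_of_nonneg_left (by positivity) (by positivity) (hKr j hj)
        _ = 4 * (D:ℝ) ^ 3 / N c j := by field_simp; ring
    have := sum_sq_le_of_bound hb
    rw [mul_pow, ← Finset.prod_pow] at this
    refine le_trans (le_of_eq ?_) this
    rw [Finset.sum_filter]
    refine Finset.sum_congr rfl fun S _ => ?_
    split_ifs <;> simp
  · have h0 : ∑ S with vs supp S ∩ Lg c D = R, fh f S ^ 2 = 0 := by
      refine Finset.sum_eq_zero fun S hS => ?_
      rw [Finset.mem_filter] at hS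
      have : d < S.card := by
        by_contra hcon
        apply hR
        rw [← hS.2]
        exact ((Finset.card_le_card Finset.inter_subset_left).trans
          (card_vs_le hk (not_lt.1 hcon))).trans hD
      rw [hdeg S this]; simp
    rw [h0]
    exact mul_nonneg (sq_nonneg _) (Finset.prod_nonneg fun _ _ => sq_nonneg _)

/-- The influence bound. -/
theorem inf_bound (supp : E → Finset V)
    (h2 : ∀ (π : cperm c) (e : E), supp (π • e) = (supp e).image (π : Equiv.Perm V))
    (h3 : ∀ (π : cperm c) (e : E), (∀ v ∈ supp e, (π : Equiv.Perm V) v = v) → π • e = e)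
    {k d D : ℕ} (hk : ∀ e, (supp e).card ≤ k) (hD : k * d ≤ D) (hD1 : 1 ≤ D)
    {f : (E → ℤˣ) → ℝ} {B : ℝ} (hB : ∀ x, |f x| ≤ B)
    (hf : ∀ π : cperm c, ∀ x : E → ℤˣ, f (fun e => x (π • e)) = f x)
    (hdeg : ∀ S, d < S.card → fh f S = 0) (e : E) :
    ∑ S with e ∈ S, fh f S ^ 2 ≤ (B * Real.exp (m / 2) * ∏ v ∈ supp e, wt c D v) ^ 2 := by
  set L := Lg c D with hL
  set T := supp e ∩ L with hT
  have hTL : T ⊆ L := Finset.inter_subset_right
  have h1 : ∑ S with e ∈ S, fh f S ^ 2
      = ∑ R ∈ L.powerset, ∑ S ∈ (univ.filter fun S => e ∈ S) with vs supp S ∩ L = R,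
        fh f S ^ 2 := by
    rw [Finset.sum_fiberwise_of_maps_to]
    intro S _
    exact Finset.mem_powerset.2 Finset.inter_subset_right
  have h4 : ∀ R ∈ L.powerset, ∑ S ∈ (univ.filter fun S => e ∈ S) with vs supp S ∩ L = R,
        fh f S ^ 2 ≤ B ^ 2 * ((∏ j ∈ R, wt c D j ^ 2) *
          ∏ v ∈ L \ R, (if v ∈ T then (0:ℝ) else 1)) := by
    intro R hR
    rw [Finset.mem_powerset] at hR
    by_cases hTR : T ⊆ R
    · have : ∏ v ∈ L \ R, (if v ∈ T then (0:ℝ) else 1) = 1 := by
        refine Finset.prod_eq_one fun v hv => ?_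
        rw [if_neg (fun h => (Finset.mem_sdiff.1 hv).2 (hTR h))]
      rw [this, mul_one]
      refine le_trans ?_ (level_bound supp h2 h3 hk hD hD1 hB hf hdeg R hR)
      refine Finset.sum_le_sum_of_subset_of_nonneg ?_ (fun _ _ _ => sq_nonneg _)
      intro S hS
      simp only [Finset.mem_filter, Finset.mem_univ, true_and] at hS ⊢
      exact hS.2
    · have h0 : ∑ S ∈ (univ.filter fun S => e ∈ S) with vs supp S ∩ L = R, fh f S ^ 2 = 0 := by
        refine Finset.sum_eq_zero fun S hS => ?_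
        exfalso
        simp only [Finset.mem_filter, Finset.mem_univ, true_and] at hS
        apply hTR
        rw [← hS.2]
        exact Finset.inter_subset_inter_right (Finset.subset_biUnion_of_mem supp hS.1)
      rw [h0]
      refine mul_nonneg (sq_nonneg _) (mul_nonneg (Finset.prod_nonneg fun _ _ => sq_nonneg _)
        (Finset.prod_nonneg fun _ _ => ?_))
      split_ifs <;> norm_num
  have h5 : ∑ R ∈ L.powerset, ((∏ j ∈ R, wt c D j ^ 2) *
          ∏ v ∈ L \ R, (if v ∈ T then (0:ℝ) else 1))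
      = ∏ v ∈ L, (wt c D v ^ 2 + (if v ∈ T then (0:ℝ) else 1)) := (Finset.prod_add _ _ _).symm
  have h6 : ∏ v ∈ L, (wt c D v ^ 2 + (if v ∈ T then (0:ℝ) else 1))
      ≤ (∏ v ∈ L, (1 + wt c D v ^ 2)) * ∏ v ∈ T, wt c D v ^ 2 := by
    have e1 : ∏ v ∈ T, wt c D v ^ 2 = ∏ v ∈ L, (if v ∈ T then wt c D v ^ 2 else 1) := by
      rw [Finset.prod_ite_mem, Finset.inter_eq_right.2 hTL]
    rw [e1, ← Finset.prod_mul_distrib]
    refine Finset.prod_le_prod (fun v _ => ?_) fun v _ => ?_
    · split_ifs <;> positivity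
    · split_ifs with hv
      · nlinarith [sq_nonneg (wt c D v), sq_nonneg (wt c D v ^ 2)]
      · linarith
  have h7 : ∏ v ∈ T, wt c D v ^ 2 = ∏ v ∈ supp e, wt c D v ^ 2 := by
    refine Finset.prod_subset Finset.inter_subset_left fun v hv hvT => ?_
    have : v ∉ L := fun h => hvT (Finset.mem_inter.2 ⟨hv, h⟩)
    unfold wt
    rw [if_neg this]; norm_num
  calc ∑ S with e ∈ S, fh f S ^ 2
      ≤ ∑ R ∈ L.powerset, B ^ 2 * ((∏ j ∈ R, wt c D j ^ 2) *
          ∏ v ∈ L \ R, (if v ∈ T then (0:ℝ) else 1)) := by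
        rw [h1]; exact Finset.sum_le_sum h4
    _ = B ^ 2 * ∏ v ∈ L, (wt c D v ^ 2 + (if v ∈ T then (0:ℝ) else 1)) := by
        rw [← Finset.mul_sum, h5]
    _ ≤ B ^ 2 * ((∏ v ∈ L, (1 + wt c D v ^ 2)) * ∏ v ∈ T, wt c D v ^ 2) :=
        mul_le_mul_of_nonneg_left h6 (sq_nonneg _)
    _ ≤ B ^ 2 * (Real.exp m * ∏ v ∈ supp e, wt c D v ^ 2) := by
        rw [h7]
        refine mul_le_mul_of_nonneg_left ?_ (sq_nonneg _)
        exact mul_le_mul_of_nonneg_right (prod_one_add_wt_sq_le c D)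
          (Finset.prod_nonneg fun _ _ => sq_nonneg _)
    _ = (B * Real.exp (m / 2) * ∏ v ∈ supp e, wt c D v) ^ 2 := by
        rw [mul_pow, mul_pow, ← Finset.prod_pow, ← Real.exp_nat_mul]
        have : ((2:ℕ):ℝ) * ((m:ℝ) / 2) = m := by push_cast; ring
        rw [this, mul_assoc]

omit [MulAction (cperm c) E] [DecidableEq E] in
/-- summing the weights over all coordinates -/
theorem sum_supp_le (supp : E → Finset V) {k s D : ℕ} (hk : ∀ e, (supp e).card ≤ k)
    (hs : ∀ T, (univ.filter fun e => supp e = T).card ≤ s) (hD1 : 1 ≤ D) :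
    ∑ e, ∏ v ∈ supp e, wt c D v ≤ s * (1 + 16 * (D:ℝ) ^ 6 * m) ^ k := by
  have h1 : ∑ e, ∏ v ∈ supp e, wt c D v
      = ∑ T : Finset V, ∑ e with supp e = T, ∏ v ∈ supp e, wt c D v :=
    (Finset.sum_fiberwise _ _ _).symm
  have h2 : ∀ T : Finset V, ∑ e with supp e = T, ∏ v ∈ supp e, wt c D v
      ≤ s * (if T.card ≤ k then ∏ v ∈ T, wt c D v else 0) := by
    intro T
    have e1 : ∑ e with supp e = T, ∏ v ∈ supp e, wt c D v
        = ((univ.filter fun e => supp e = T).card : ℝ) * ∏ v ∈ T, wt c D v := by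
      rw [← nsmul_eq_mul, ← Finset.sum_const]
      refine Finset.sum_congr rfl fun e he => ?_
      rw [(Finset.mem_filter.1 he).2]
    rw [e1]
    by_cases hT : T.card ≤ k
    · rw [if_pos hT]
      refine mul_le_mul_of_nonneg_right (by exact_mod_cast hs T)
        (Finset.prod_nonneg fun v _ => wt_nonneg c D v)
    · have : (univ.filter fun e => supp e = T) = ∅ := by
        rw [Finset.filter_eq_empty_iff]
        intro e _ he
        exact hT (he ▸ hk e)
      rw [this]; simp [hT]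
  rw [h1]
  calc ∑ T : Finset V, ∑ e with supp e = T, ∏ v ∈ supp e, wt c D v
      ≤ ∑ T : Finset V, s * (if T.card ≤ k then ∏ v ∈ T, wt c D v else 0) :=
        Finset.sum_le_sum fun T _ => h2 T
    _ = s * ∑ T ∈ (univ : Finset V).powerset, (if T.card ≤ k then ∏ v ∈ T, wt c D v else 0) := by
        rw [← Finset.mul_sum, Finset.powerset_univ]
    _ ≤ s * (1 + ∑ v, wt c D v) ^ k :=
        mul_le_mul_of_nonneg_left (sum_subsets_le _ (wt_nonneg c D) _ k) (Nat.cast_nonneg _)
    _ ≤ s * (1 + 16 * (D:ℝ) ^ 6 * m) ^ k := by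
        refine mul_le_mul_of_nonneg_left ?_ (Nat.cast_nonneg _)
        refine pow_le_pow_left₀ ?_ ?_ k
        · have : 0 ≤ ∑ v, wt c D v := Finset.sum_nonneg fun v _ => wt_nonneg c D v
          positivity
        · linarith [sum_wt_le c hD1]

end Pool.Agent.Helper12.AA
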