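import Pool.Agent.Helper12.AA6

set_option autoImplicit false
open Finset
open scoped Pointwise

namespace Pool.Agent.Helper12.AA

section basic

variable {E : Type*} [Fintype E] [DecidableEq E]

theorem fh_empty (f : (E → ℤˣ) → ℝ) : fh f ∅ = (∑ x, f x) / 2 ^ Fintype.card E := by
  unfold fh chi; simp

theorem sum_sq (f : (E → ℤˣ) → ℝ) :
    (∑ x, f x ^ 2) / 2 ^ Fintype.card E = ∑ S, fh f S ^ 2 := by
  rw [← parseval]
  congr 1
  refine Finset.sum_congr rfl fun x _ => ?_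
  rw [inversion f x]

theorem variance_eq (f : (E → ℤˣ) → ℝ) :
    (∑ x, f x ^ 2) / 2 ^ Fintype.card E - ((∑ x, f x) / 2 ^ Fintype.card E) ^ 2
      = ∑ S with S ≠ ∅, fh f S ^ 2 := by
  rw [sum_sq, ← fh_empty, Finset.filter_ne' , ← Finset.add_sum_erase univ _ (Finset.mem_univ ∅)]
  ring

omit [Fintype E] in
theorem chi_update (S : Finset E) (x : E → ℤˣ) (j : E) (u : ℤˣ) :
    chi S (Function.update x j u) =
      if j ∈ S then ((u : ℤ) : ℝ) * chi (S.erase j) x else chi S x := by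
  unfold chi
  split_ifs with h
  · rw [← Finset.mul_prod_erase S _ h, Function.update_self]
    congr 1
    refine Finset.prod_congr rfl fun e he => ?_
    rw [Function.update_of_ne (Finset.ne_of_mem_erase he)]
  · refine Finset.prod_congr rfl fun e he => ?_
    rw [Function.update_of_ne (by rintro rfl; exact h he)]

theorem influence_eq (f : (E → ℤˣ) → ℝ) (j : E) :
    (∑ x, ((f (Function.update x j 1) - f (Function.update x j (-1))) / 2) ^ 2)
      / 2 ^ Fintype.card E = ∑ S with j ∈ S, fh f S ^ 2 := by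
  have h1 : ∀ x : E → ℤˣ, ((f (Function.update x j 1) - f (Function.update x j (-1))) / 2) ^ 2
      = (∑ S, (if j ∈ S then fh f S else 0) * chi S x) ^ 2 := by
    intro x
    have h2 : (f (Function.update x j 1) - f (Function.update x j (-1))) / 2
        = ∑ S, (if j ∈ S then fh f S * chi (S.erase j) x else 0) := by
      rw [inversion f (Function.update x j 1), inversion f (Function.update x j (-1)),
        ← Finset.sum_sub_distrib, Finset.sum_div]
      refine Finset.sum_congr rfl fun S _ => ?_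
      rw [chi_update, chi_update]
      split_ifs
      · simp
      · simp
    have h3 : ∑ S, (if j ∈ S then fh f S else 0) * chi S x
        = ((x j : ℤ) : ℝ) * ∑ S, (if j ∈ S then fh f S * chi (S.erase j) x else 0) := by
      rw [Finset.mul_sum]
      refine Finset.sum_congr rfl fun S _ => ?_
      split_ifs with h
      · have : chi S x = ((x j : ℤ) : ℝ) * chi (S.erase j) x := by
          unfold chi; rw [← Finset.mul_prod_erase S _ h]
        rw [this]; ring
      · simp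
    rw [h2, h3, mul_pow]
    have : ((x j : ℤ) : ℝ) ^ 2 = 1 := by
      rcases Int.units_eq_one_or (x j) with h | h <;> rw [h] <;> simp
    rw [this, one_mul]
  simp_rw [h1]
  rw [parseval, Finset.sum_filter]
  refine Finset.sum_congr rfl fun S _ => ?_
  split_ifs <;> simp

theorem variance_le (f : (E → ℤˣ) → ℝ) :
    ∑ S with S ≠ ∅, fh f S ^ 2 ≤ ∑ j, ∑ S with j ∈ S, fh f S ^ 2 := by
  have h1 : ∑ j : E, ∑ S with j ∈ S, fh f S ^ 2 = ∑ S, (S.card : ℝ) * fh f S ^ 2 := by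
    simp_rw [Finset.sum_filter]
    rw [Finset.sum_comm]
    refine Finset.sum_congr rfl fun S _ => ?_
    rw [← Finset.sum_filter, Finset.sum_const, nsmul_eq_mul]
    simp
  rw [h1, Finset.sum_filter]
  refine Finset.sum_le_sum fun S _ => ?_
  split_ifs with h
  · have : 1 ≤ S.card := Finset.card_pos.2 (Finset.nonempty_iff_ne_empty.2 h)
    have h' : (1:ℝ) ≤ S.card := by exact_mod_cast this
    nlinarith [sq_nonneg (fh f S)]
  · positivity

/-- degree one: the sum of the absolute values of the degree one coefficients -/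
theorem degree_one (f : (E → ℤˣ) → ℝ) {B : ℝ} (hB : ∀ x, |f x| ≤ B)
    (hdeg : ∀ S, 1 < S.card → fh f S = 0) :
    ∑ j, Real.sqrt (∑ S with j ∈ S, fh f S ^ 2) ≤ B := by
  have h1 : ∀ j, ∑ S with j ∈ S, fh f S ^ 2 = fh f {j} ^ 2 := by
    intro j
    refine Finset.sum_eq_single_of_mem (s := univ.filter fun S : Finset E => j ∈ S)
      (f := fun S => fh f S ^ 2) ({j} : Finset E)
      (Finset.mem_filter.2 ⟨Finset.mem_univ _, Finset.mem_singleton_self j⟩) ?_
    intro S hS hne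
    rw [Finset.mem_filter] at hS
    rw [hdeg S]
    · simp
    · by_contra hcon
      apply hne
      exact (Finset.eq_of_subset_of_card_le (Finset.singleton_subset_iff.2 hS.2)
        (by rw [Finset.card_singleton]; exact not_lt.1 hcon)).symm
  have h2 : ∀ x, f x = fh f ∅ + ∑ j, fh f {j} * ((x j : ℤ) : ℝ) := by
    intro x
    rw [inversion f x]
    have e1 : ∑ S, fh f S * chi S x
        = ∑ S ∈ insert ∅ (univ.image fun j : E => ({j} : Finset E)), fh f S * chi S x := by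
      symm
      refine Finset.sum_subset (Finset.subset_univ _) fun S _ hS => ?_
      rw [hdeg S, zero_mul]
      by_contra hcon
      apply hS
      rcases Nat.le_one_iff_eq_zero_or_eq_one.1 (not_lt.1 hcon) with h | h
      · rw [Finset.card_eq_zero.1 h]; simp
      · obtain ⟨j, rfl⟩ := Finset.card_eq_one.1 h
        simp
    rw [e1, Finset.sum_insert (by simp), Finset.sum_image (by intro a _ b _ h; simpa using h)]
    simp [chi]
  let x : E → ℤˣ := fun j => if 0 ≤ fh f {j} then 1 else -1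
  have hx : ∀ j, fh f {j} * ((x j : ℤ) : ℝ) = |fh f {j}| := by
    intro j
    simp only [x]
    split_ifs with h
    · simp [abs_of_nonneg h]
    · simp [abs_of_neg (not_le.1 h)]
  have h3 := h2 x
  have h4 := h2 (fun j => - x j)
  have h5 : ∑ j, fh f {j} * (((-x j : ℤˣ) : ℤ) : ℝ) = - ∑ j, |fh f {j}| := by
    rw [← Finset.sum_neg_distrib]
    refine Finset.sum_congr rfl fun j _ => ?_
    rw [← hx j]; simp
  simp_rw [hx] at h3
  rw [h5] at h4
  simp_rw [h1, Real.sqrt_sq_eq_abs]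
  have h6 := abs_le.1 (hB x)
  have h7 := abs_le.1 (hB (fun j => - x j))
  linarith [h6.2, h7.1]

end basic

section main

variable {V : Type*} [Fintype V] [DecidableEq V] {m : ℕ}
variable {E : Type*} [Fintype E] [DecidableEq E] {c : V → Fin m} [MulAction (cperm c) E]

theorem mixed_norm (supp : E → Finset V)
    (h2 : ∀ (π : cperm c) (e : E), supp (π • e) = (supp e).image (π : Equiv.Perm V))
    (h3 : ∀ (π : cperm c) (e : E), (∀ v ∈ supp e, (π : Equiv.Perm V) v = v) → π • e = e)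
    {k s d : ℕ} (hk : ∀ e, (supp e).card ≤ k)
    (hs : ∀ T, (univ.filter fun e => supp e = T).card ≤ s) (hd : 1 ≤ d)
    {f : (E → ℤˣ) → ℝ} {B : ℝ} (hB : ∀ x, |f x| ≤ B)
    (hf : ∀ π : cperm c, ∀ x : E → ℤˣ, f (fun e => x (π • e)) = f x)
    (hdeg : ∀ S, d < S.card → fh f S = 0) :
    ∑ e, Real.sqrt (∑ S with e ∈ S, fh f S ^ 2)
      ≤ B * (Real.exp (m / 2) * s * (1 + 16 * (((k + 1) * d : ℕ):ℝ) ^ 6 * m) ^ k) := by
  have hB0 : 0 ≤ B := (abs_nonneg _).trans (hB 1)
  set D := (k + 1) * d with hD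
  have hD1 : 1 ≤ D := Nat.mul_pos (Nat.succ_pos k) hd
  have hkD : k * d ≤ D := Nat.mul_le_mul_right _ (Nat.le_succ k)
  calc ∑ e, Real.sqrt (∑ S with e ∈ S, fh f S ^ 2)
      ≤ ∑ e, B * Real.exp (m / 2) * ∏ v ∈ supp e, wt c D v := by
        refine Finset.sum_le_sum fun e _ => ?_
        have hnn : 0 ≤ B * Real.exp (m / 2) * ∏ v ∈ supp e, wt c D v :=
          mul_nonneg (mul_nonneg hB0 (Real.exp_pos _).le)
            (Finset.prod_nonneg fun v _ => wt_nonneg c D v)
        rw [← Real.sqrt_sq hnn]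
        exact Real.sqrt_le_sqrt (inf_bound supp h2 h3 hk hkD hD1 hB hf hdeg e)
    _ = B * Real.exp (m / 2) * ∑ e, ∏ v ∈ supp e, wt c D v := by rw [Finset.mul_sum]
    _ ≤ B * Real.exp (m / 2) * (s * (1 + 16 * (D:ℝ) ^ 6 * m) ^ k) :=
        mul_le_mul_of_nonneg_left (sum_supp_le supp hk hs hD1)
          (mul_nonneg hB0 (Real.exp_pos _).le)
    _ = B * (Real.exp (m / 2) * s * (1 + 16 * (D:ℝ) ^ 6 * m) ^ k) := by ring

end main

/-- numeric: the polynomial bound is at most `d ^ C` for `d ≥ 2`. -/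
theorem exists_exponent (k m s : ℕ) : ∃ C : ℝ, 0 < C ∧ ∀ d : ℕ, 2 ≤ d →
    Real.exp (m / 2) * s * (1 + 16 * (((k + 1) * d : ℕ):ℝ) ^ 6 * m) ^ k ≤ (d:ℝ) ^ C := by
  set K : ℝ := Real.exp (m / 2) * s * (1 + 16 * ((k:ℝ) + 1) ^ 6 * m) ^ k with hK
  have hK0 : 0 ≤ K := by positivity
  have hlog : 0 ≤ Real.logb 2 (K + 1) := Real.logb_nonneg (by norm_num) (by linarith)
  refine ⟨Real.logb 2 (K + 1) + (6 * k : ℕ) + 1, by positivity, ?_⟩
  intro d hd
  have hd1 : (1:ℝ) ≤ d := by exact_mod_cast (by omega : 1 ≤ d)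
  have hd2 : (2:ℝ) ≤ d := by exact_mod_cast hd
  have hd0 : (0:ℝ) < d := by linarith
  have e1 : Real.exp (m / 2) * s * (1 + 16 * (((k + 1) * d : ℕ):ℝ) ^ 6 * m) ^ k
      ≤ K * (d:ℝ) ^ (6 * k) := by
    have : (1 + 16 * (((k + 1) * d : ℕ):ℝ) ^ 6 * m) ^ k
        ≤ ((1 + 16 * ((k:ℝ) + 1) ^ 6 * m) * (d:ℝ) ^ 6) ^ k := by
      refine pow_le_pow_left₀ (by positivity) ?_ k
      push_cast
      have : (1:ℝ) ≤ (d:ℝ) ^ 6 := one_le_pow₀ hd1
      calc 1 + 16 * (((k:ℝ) + 1) * d) ^ 6 * m = 1 + 16 * ((k:ℝ) + 1) ^ 6 * m * (d:ℝ) ^ 6 := by ring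
        _ ≤ (d:ℝ) ^ 6 + 16 * ((k:ℝ) + 1) ^ 6 * m * (d:ℝ) ^ 6 := by linarith
        _ = (1 + 16 * ((k:ℝ) + 1) ^ 6 * m) * (d:ℝ) ^ 6 := by ring
    calc _ ≤ Real.exp (m / 2) * s * ((1 + 16 * ((k:ℝ) + 1) ^ 6 * m) * (d:ℝ) ^ 6) ^ k :=
          mul_le_mul_of_nonneg_left this (by positivity)
      _ = K * (d:ℝ) ^ (6 * k) := by rw [mul_pow, ← pow_mul, hK]; ring
  have e2 : K ≤ (d:ℝ) ^ (Real.logb 2 (K + 1)) := by
    calc K ≤ K + 1 := by linarith
      _ = (2:ℝ) ^ (Real.logb 2 (K + 1)) :=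
          (Real.rpow_logb (by norm_num) (by norm_num) (by linarith)).symm
      _ ≤ (d:ℝ) ^ (Real.logb 2 (K + 1)) := Real.rpow_le_rpow (by norm_num) hd2 hlog
  refine e1.trans ?_
  rw [Real.rpow_add hd0, Real.rpow_add hd0, Real.rpow_one, Real.rpow_natCast]
  calc K * (d:ℝ) ^ (6 * k) ≤ (d:ℝ) ^ (Real.logb 2 (K + 1)) * (d:ℝ) ^ (6 * k) :=
        mul_le_mul_of_nonneg_right e2 (by positivity)
    _ ≤ (d:ℝ) ^ (Real.logb 2 (K + 1)) * (d:ℝ) ^ (6 * k) * d :=
        le_mul_of_one_le_right (by positivity) hd1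

end Pool.Agent.Helper12.AA
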