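import Pool.Agent.Helper12.StructureInvariantKept

set_option autoImplicit false
open Finset

/-! Instances of `StructureInvariant.result`: uniform hypergraph parameters, relational
structures with `m` vertex colours, and arrays under independent permutations of the axes. -/

namespace Pool.Agent.Helper12.AAExamples

open Pool.Agent.Helper12.StructureInvariantKept

/-- Parameters of `k`-uniform hypergraphs (for `k = 2`: graph parameters). -/
theorem hypergraph (k : ℕ) : ∃ C : ℝ, 0 < C ∧ ∀ (V : Type) [Fintype V] [DecidableEq V]
    (f : ({e : Finset V // e.card = k} → ℤˣ) → ℝ),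
    (∀ (π : Equiv.Perm V) (x : {e : Finset V // e.card = k} → ℤˣ),
      f (fun e => x ⟨e.1.map π.toEmbedding, by simp⟩) = f x) →
    ∀ d : ℕ, DegLE f d →
      (∑ j, l2Deriv f j ≤ (⨆ x, |f x|) * (d : ℝ) ^ C) ∧
        variance f ≤ (⨆ x, |f x|) * (d : ℝ) ^ C * ⨆ j, l2Deriv f j := by
  obtain ⟨C, hC0, hC⟩ := result k 1 1
  refine ⟨C, hC0, ?_⟩
  intro V _ _ f hf d hd
  let act : MulAction (⊤ : Subgroup (Equiv.Perm V)) {e : Finset V // e.card = k} :=
    { smul := fun π e => ⟨e.1.map (π : Equiv.Perm V).toEmbedding, by simp⟩
      one_smul := by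
        intro e; apply Subtype.ext
        show e.1.map (Equiv.toEmbedding (1 : Equiv.Perm V)) = e.1
        rw [Finset.map_eq_image]; exact Finset.image_id
      mul_smul := by
        intro π π' e; apply Subtype.ext
        show e.1.map (Equiv.toEmbedding ((π : Equiv.Perm V) * (π' : Equiv.Perm V)))
          = (e.1.map (Equiv.toEmbedding (π' : Equiv.Perm V))).map
            (Equiv.toEmbedding (π : Equiv.Perm V))
        rw [Finset.map_map]; rfl }
  refine hC V {e : Finset V // e.card = k} (fun _ => 0) ⊤ (fun e => e.1) ?_ f ?_ d hd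
  · refine ⟨fun π _ => Subgroup.mem_top π, fun e => e.2.le, ?_, ?_, ?_⟩
    · intro T
      rw [Finset.card_le_one]
      intro a ha b hb
      rw [Finset.mem_filter] at ha hb
      exact Subtype.ext (ha.2.trans hb.2.symm)
    · intro π e
      exact Finset.map_eq_image _ _
    · intro π e h
      apply Subtype.ext
      show e.1.map (Equiv.toEmbedding (π : Equiv.Perm V)) = e.1
      rw [Finset.map_eq_image]
      calc e.1.image (Equiv.toEmbedding (π : Equiv.Perm V)) = e.1.image id :=
            Finset.image_congr (fun v hv => h v hv)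
        _ = e.1 := Finset.image_id
  · intro π x
    exact hf π x

/-- Isomorphism invariant functions of vertex-coloured structures with `r` relations of arity
`k`; the permutations have to preserve the `m` colours of the vertices. -/
theorem structures (k m r : ℕ) : ∃ C : ℝ, 0 < C ∧ ∀ (V : Type) [Fintype V] [DecidableEq V]
    (c : V → Fin m) (f : (Fin r × (Fin k → V) → ℤˣ) → ℝ),
    (∀ π : Equiv.Perm V, (∀ v, c (π v) = c v) → ∀ x : Fin r × (Fin k → V) → ℤˣ,
      f (fun e => x (e.1, fun i => π (e.2 i))) = f x) →
    ∀ d : ℕ, DegLE f d →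
      (∑ j, l2Deriv f j ≤ (⨆ x, |f x|) * (d : ℝ) ^ C) ∧
        variance f ≤ (⨆ x, |f x|) * (d : ℝ) ^ C * ⨆ j, l2Deriv f j := by
  obtain ⟨C, hC0, hC⟩ := result k m (r * k ^ k)
  refine ⟨C, hC0, ?_⟩
  intro V _ _ c f hf d hd
  let act : MulAction (Pool.Agent.Helper12.AA.cperm c) (Fin r × (Fin k → V)) :=
    { smul := fun π e => (e.1, fun i => (π : Equiv.Perm V) (e.2 i))
      one_smul := fun e => rfl
      mul_smul := fun π π' e => rfl }
  refine hC V (Fin r × (Fin k → V)) c (Pool.Agent.Helper12.AA.cperm c)
    (fun e => univ.image e.2) ?_ f ?_ d hd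
  · refine ⟨fun π hπ => hπ, ?_, ?_, ?_, ?_⟩
    · intro e
      exact Finset.card_image_le.trans (by simp)
    · intro T
      by_cases hT : T.card ≤ k
      · have h1 : (univ.filter fun e : Fin r × (Fin k → V) => univ.image e.2 = T)
            ⊆ (univ : Finset (Fin r)) ×ˢ (Fintype.piFinset fun _ : Fin k => T) := by
          intro e he
          rw [Finset.mem_filter] at he
          rw [Finset.mem_product, Fintype.mem_piFinset]
          refine ⟨Finset.mem_univ _, fun i => ?_⟩
          rw [← he.2]
          exact Finset.mem_image_of_mem _ (Finset.mem_univ i)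
        refine (Finset.card_le_card h1).trans ?_
        rw [Finset.card_product, Fintype.card_piFinset]
        simp only [Finset.card_univ, Fintype.card_fin, Finset.prod_const]
        exact Nat.mul_le_mul_left _ (Nat.pow_le_pow_left hT k)
      · have : (univ.filter fun e : Fin r × (Fin k → V) => univ.image e.2 = T) = ∅ := by
          rw [Finset.filter_eq_empty_iff]
          intro e _ he
          apply hT
          rw [← he]
          exact Finset.card_image_le.trans (by simp)
        rw [this]; simp
    · intro π e
      show univ.image (fun i => (π : Equiv.Perm V) (e.2 i)) = (univ.image e.2).image _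
      rw [Finset.image_image]; rfl
    · intro π e h
      show (e.1, fun i => (π : Equiv.Perm V) (e.2 i)) = e
      apply Prod.ext
      · rfl
      · funext i
        exact h _ (Finset.mem_image_of_mem _ (Finset.mem_univ i))
  · intro π x
    exact hf π π.2 x

end Pool.Agent.Helper12.AAExamples
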