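import Mathlib

/-!
A bounded holomorphic function on the unit disc whose derivative is not integrable with respect to
area (a Paley type product).
-/

set_option autoImplicit false

namespace Pool.Agent.Helper12.DB

open Complex MeasureTheory Metric Set Filter Polynomial
open scoped Topology

/-- The Paley coefficients. -/
noncomputable def a (n : ℕ) : ℝ := 1 / ((n : ℝ) + 2)

lemma a_pos (n : ℕ) : 0 < a n := by unfold a; positivity

lemma a_le_one (n : ℕ) : a n ≤ 1 := by
  unfold a
  rw [div_le_one (by positivity)]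
  have : (0 : ℝ) ≤ n := Nat.cast_nonneg n
  linarith

/-- Degree bound at stage `n`. -/
def M : ℕ → ℕ
  | 0 => 0
  | (n + 1) => 256 ^ n

/-- Shift at stage `n`. -/
def D (n : ℕ) : ℕ := 256 ^ n - M n

/-- The pair of polynomials at stage `n`. -/
noncomputable def PR : ℕ → ℂ[X] × ℂ[X]
  | 0 => (0, 1)
  | (n + 1) => ((PR n).1 + C (a n : ℂ) * X ^ (D n) * (PR n).2,
      X ^ (D n) * (PR n).2 - C (a n : ℂ) * (PR n).1)

lemma M_lt (n : ℕ) : M n < 256 ^ n := by
  cases n with
  | zero => simp [M]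
  | succ n => simp only [M]; exact Nat.pow_lt_pow_right (by norm_num) (Nat.lt_succ_self n)

lemma M_add_D (n : ℕ) : D n + M n = 256 ^ n := by
  unfold D
  have := M_lt n
  omega

lemma M_lt_D (n : ℕ) : M n < D n := by
  unfold D
  cases n with
  | zero => simp [M]
  | succ n =>
      simp only [M]
      have : 256 ^ (n + 1) = 256 * 256 ^ n := by ring
      have h1 : 0 < 256 ^ n := by positivity
      omega

lemma lt_D (n : ℕ) : n + 1 ≤ D n := by
  induction n with
  | zero => simp [D, M]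
  | succ n ih =>
      have h1 := M_lt_D (n + 1)
      have h2 : M (n + 1) = 256 ^ n := rfl
      have h3 : D n ≤ 256 ^ n := by unfold D; omega
      omega

/-- value of the first polynomial -/
noncomputable def P (n : ℕ) (z : ℂ) : ℂ := (PR n).1.eval z

/-- value of the second polynomial -/
noncomputable def R (n : ℕ) (z : ℂ) : ℂ := (PR n).2.eval z

lemma P_zero (z : ℂ) : P 0 z = 0 := by simp [P, PR]

lemma R_zero (z : ℂ) : R 0 z = 1 := by simp [R, PR]

lemma P_succ (n : ℕ) (z : ℂ) : P (n + 1) z = P n z + a n * (z ^ (D n) * R n z) := by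
  simp [P, R, PR]; ring

lemma R_succ (n : ℕ) (z : ℂ) : R (n + 1) z = z ^ (D n) * R n z - a n * P n z := by
  simp [P, R, PR]

lemma sq_identity (p x : ℂ) (t : ℝ) :
    ‖p + t * x‖ ^ 2 + ‖x - t * p‖ ^ 2 = (1 + t ^ 2) * (‖p‖ ^ 2 + ‖x‖ ^ 2) := by
  simp only [Complex.sq_norm, Complex.normSq_apply, Complex.add_re, Complex.add_im, Complex.sub_re,
    Complex.sub_im, Complex.mul_re, Complex.mul_im, Complex.ofReal_re, Complex.ofReal_im]
  ring

lemma circle_bound (n : ℕ) (z : ℂ) (hz : ‖z‖ = 1) :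
    ‖P n z‖ ^ 2 + ‖R n z‖ ^ 2 ≤ Real.exp (1 - 1 / ((n : ℝ) + 1)) := by
  induction n with
  | zero => simp [P_zero, R_zero]
  | succ n ih =>
      rw [P_succ, R_succ, sq_identity]
      have h1 : ‖z ^ D n * R n z‖ = ‖R n z‖ := by simp [hz]
      rw [h1]
      have h2 : 1 + a n ^ 2 ≤ Real.exp (a n ^ 2) := by
        have := Real.add_one_le_exp (a n ^ 2); linarith
      calc (1 + a n ^ 2) * (‖P n z‖ ^ 2 + ‖R n z‖ ^ 2)
          ≤ Real.exp (a n ^ 2) * Real.exp (1 - 1 / ((n : ℝ) + 1)) := by gcongr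
        _ = Real.exp (a n ^ 2 + (1 - 1 / ((n : ℝ) + 1))) := by rw [Real.exp_add]
        _ ≤ Real.exp (1 - 1 / (((n + 1 : ℕ) : ℝ) + 1)) := by
            apply Real.exp_le_exp.mpr
            unfold a
            push_cast
            have hn : (0 : ℝ) ≤ n := Nat.cast_nonneg n
            have h3 : 1 / ((n : ℝ) + 1) - 1 / ((n : ℝ) + 1 + 1)
                = 1 / (((n : ℝ) + 1) * ((n : ℝ) + 2)) := by
              field_simp; ring
            have h4 : (1 / ((n : ℝ) + 2)) ^ 2 ≤ 1 / (((n : ℝ) + 1) * ((n : ℝ) + 2)) := by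
              rw [div_pow, one_pow]
              apply one_div_le_one_div_of_le (by positivity)
              nlinarith
            linarith

lemma circle_bound' (n : ℕ) (z : ℂ) (hz : ‖z‖ = 1) : ‖P n z‖ ≤ 2 ∧ ‖R n z‖ ≤ 2 := by
  have h := circle_bound n z hz
  have h1 : Real.exp (1 - 1 / ((n : ℝ) + 1)) ≤ 4 := by
    have h2 : Real.exp (1 - 1 / ((n : ℝ) + 1)) ≤ Real.exp 1 := by
      apply Real.exp_le_exp.mpr
      have : (0 : ℝ) ≤ 1 / ((n : ℝ) + 1) := by positivity
      linarith
    have := Real.exp_one_lt_d9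
    linarith
  constructor
  · nlinarith [norm_nonneg (P n z), sq_nonneg ‖R n z‖]
  · nlinarith [norm_nonneg (R n z), sq_nonneg ‖P n z‖]

lemma poly_bound (p : ℂ[X]) (K : ℝ) (h : ∀ z : ℂ, ‖z‖ = 1 → ‖p.eval z‖ ≤ K) (z : ℂ)
    (hz : ‖z‖ ≤ 1) : ‖p.eval z‖ ≤ K := by
  have h1 : DiffContOnCl ℂ (fun z => p.eval z) (ball (0 : ℂ) 1) :=
    p.differentiable.diffContOnCl
  refine Complex.norm_le_of_forall_mem_frontier_norm_le (U := ball (0 : ℂ) 1)
    isBounded_ball h1 ?_ ?_
  · intro w hw
    rw [frontier_ball (0 : ℂ) one_ne_zero, mem_sphere_zero_iff_norm] at hw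
    exact h w hw
  · rw [closure_ball (0 : ℂ) one_ne_zero]
    simpa using hz

lemma P_bound (n : ℕ) (z : ℂ) (hz : ‖z‖ ≤ 1) : ‖P n z‖ ≤ 2 :=
  poly_bound _ 2 (fun w hw => (circle_bound' n w hw).1) z hz

lemma R_bound (n : ℕ) (z : ℂ) (hz : ‖z‖ ≤ 1) : ‖R n z‖ ≤ 2 :=
  poly_bound _ 2 (fun w hw => (circle_bound' n w hw).2) z hz

/-- The `n`-th term of the series. -/
noncomputable def term (n : ℕ) (z : ℂ) : ℂ := a n * (z ^ (D n) * R n z)

/-- The bounded function. -/
noncomputable def h (z : ℂ) : ℂ := ∑' n, term n z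

lemma P_eq_sum (n : ℕ) (z : ℂ) : P n z = ∑ k ∈ Finset.range n, term k z := by
  induction n with
  | zero => simp [P_zero]
  | succ n ih => rw [P_succ, Finset.sum_range_succ, ih, term]

lemma term_bound (n : ℕ) (z : ℂ) (r : ℝ) (hz : ‖z‖ ≤ r) (hr : r ≤ 1) :
    ‖term n z‖ ≤ 2 * r ^ n := by
  have hr0 : 0 ≤ r := le_trans (norm_nonneg z) hz
  unfold term
  rw [norm_mul, norm_mul, norm_pow, Complex.norm_real, Real.norm_of_nonneg (a_pos n).le]
  have h1 := R_bound n z (hz.trans hr)
  have h2 : ‖z‖ ^ D n ≤ r ^ n := by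
    calc ‖z‖ ^ D n ≤ r ^ D n := by gcongr
      _ ≤ r ^ n := pow_le_pow_of_le_one hr0 hr (by have := lt_D n; omega)
  calc a n * (‖z‖ ^ D n * ‖R n z‖) ≤ 1 * (r ^ n * 2) := by
        gcongr
        exact a_le_one n
    _ = 2 * r ^ n := by ring

lemma summable_bound (r : ℝ) (hr0 : 0 ≤ r) (hr : r < 1) : Summable (fun n : ℕ => 2 * r ^ n) :=
  (summable_geometric_of_lt_one hr0 hr).mul_left 2

lemma summable_term (z : ℂ) (hz : ‖z‖ < 1) : Summable (fun n => term n z) :=
  Summable.of_norm_bounded (summable_bound ‖z‖ (norm_nonneg z) hz)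
    (fun n => term_bound n z ‖z‖ le_rfl hz.le)

lemma h_bound (z : ℂ) (hz : ‖z‖ < 1) : ‖h z‖ ≤ 2 := by
  have h1 : Tendsto (fun n => P n z) atTop (𝓝 (h z)) := by
    have := (summable_term z hz).hasSum.tendsto_sum_nat
    simpa [P_eq_sum, h] using this
  exact le_of_tendsto h1.norm (Eventually.of_forall fun n => P_bound n z hz.le)

lemma differentiable_term (n : ℕ) : Differentiable ℂ (term n) := by
  unfold term R
  have := (PR n).2.differentiable
  fun_prop

lemma h_differentiableOn : DifferentiableOn ℂ h (ball (0 : ℂ) 1) := by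
  intro z hz
  rw [mem_ball_zero_iff] at hz
  obtain ⟨r, hr1, hr2⟩ := exists_between hz
  have hr0 : 0 ≤ r := (norm_nonneg z).trans hr1.le
  have h1 : DifferentiableOn ℂ h (ball (0 : ℂ) r) := by
    refine differentiableOn_tsum_of_summable_norm (summable_bound r hr0 hr2)
      (fun n => (differentiable_term n).differentiableOn) isOpen_ball ?_
    intro n w hw
    rw [mem_ball_zero_iff] at hw
    exact term_bound n w r hw.le hr2.le
  exact ((h1 z (by simpa using hr1)).differentiableAt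
    (isOpen_ball.mem_nhds (by simpa using hr1))).differentiableWithinAt

/-! ### The coefficient of `z ^ (256 ^ n)` -/

lemma natDegree_bounds (n : ℕ) : (PR n).1.natDegree ≤ M n ∧ (PR n).2.natDegree ≤ M n := by
  induction n with
  | zero => simp [PR, M]
  | succ n ih =>
      have hX : (X ^ (D n) * (PR n).2).natDegree ≤ 256 ^ n := by
        refine natDegree_mul_le.trans ?_
        rw [natDegree_X_pow, ← M_add_D n]
        exact Nat.add_le_add_left ih.2 _
      have hP : (PR n).1.natDegree ≤ 256 ^ n := ih.1.trans (M_lt n).le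
      constructor
      · show ((PR n).1 + C (a n : ℂ) * X ^ (D n) * (PR n).2).natDegree ≤ 256 ^ n
        refine (natDegree_add_le _ _).trans (max_le hP ?_)
        rw [mul_assoc]
        exact (natDegree_C_mul_le _ _).trans hX
      · show (X ^ (D n) * (PR n).2 - C (a n : ℂ) * (PR n).1).natDegree ≤ 256 ^ n
        refine (natDegree_sub_le _ _).trans (max_le hX ?_)
        exact (natDegree_C_mul_le _ _).trans hP

lemma coeff_R (n : ℕ) : (PR n).2.coeff (M n) = 1 := by
  induction n with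
  | zero => simp [PR, M]
  | succ n ih =>
      show (X ^ (D n) * (PR n).2 - C (a n : ℂ) * (PR n).1).coeff (256 ^ n) = 1
      rw [coeff_sub, coeff_C_mul, ← M_add_D n, add_comm (D n) (M n), coeff_X_pow_mul, ih,
        coeff_eq_zero_of_natDegree_lt]
      · simp
      · have h1 := (natDegree_bounds n).1
        have h2 := M_lt_D n
        omega

lemma coeff_P (n : ℕ) : (PR (n + 1)).1.coeff (256 ^ n) = ((a n : ℝ) : ℂ) := by
  show ((PR n).1 + C (a n : ℂ) * X ^ (D n) * (PR n).2).coeff (256 ^ n) = ((a n : ℝ) : ℂ)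
  rw [coeff_add, mul_assoc, coeff_C_mul, ← M_add_D n, add_comm (D n) (M n), coeff_X_pow_mul,
    coeff_R, coeff_eq_zero_of_natDegree_lt]
  · simp
  · have h1 := (natDegree_bounds n).1
    have h2 := M_lt_D n
    omega

lemma coeff_P_stable (n k : ℕ) : (PR (n + 1 + k)).1.coeff (256 ^ n) = ((a n : ℝ) : ℂ) := by
  induction k with
  | zero => exact coeff_P n
  | succ k ih =>
      show ((PR (n + 1 + k)).1 + C (a (n + 1 + k) : ℂ) * X ^ (D (n + 1 + k))
        * (PR (n + 1 + k)).2).coeff (256 ^ n) = ((a n : ℝ) : ℂ)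
      rw [coeff_add, ih, mul_assoc, coeff_C_mul, coeff_X_pow_mul', if_neg]
      · simp
      · have h1 := M_lt_D (n + 1 + k)
        have h2 : M (n + 1 + k) = 256 ^ (n + k) := by
          rw [show n + 1 + k = (n + k) + 1 by ring]; rfl
        have h3 : 256 ^ n ≤ 256 ^ (n + k) := Nat.pow_le_pow_right (by norm_num) (by omega)
        omega

/-- Circle integral of a polynomial against a negative power. -/
lemma circle_poly (p : ℂ[X]) (m : ℕ) (r : ℝ) (hr : 0 < r) :
    (∮ z in C(0, r), p.eval z * (z ^ (m + 1))⁻¹) = 2 * Real.pi * I * p.coeff m := by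
  have hne : ∀ z ∈ sphere (0 : ℂ) r, z ≠ 0 := by
    intro z hz h0
    rw [h0] at hz
    simp at hz
    exact hr.ne hz
  have hcont : ∀ j : ℕ, ContinuousOn (fun z : ℂ => p.coeff j * (z ^ j * (z ^ (m + 1))⁻¹))
      (sphere (0 : ℂ) r) := by
    intro j
    refine continuousOn_const.mul ((continuousOn_id.pow j).mul ?_)
    exact (continuousOn_id.pow (m + 1)).inv₀ (fun z hz => pow_ne_zero _ (hne z hz))
  have h1 : (∮ z in C(0, r), p.eval z * (z ^ (m + 1))⁻¹)
      = ∮ z in C(0, r), ∑ j ∈ Finset.range (max (p.natDegree) m + 1),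
          p.coeff j * (z ^ j * (z ^ (m + 1))⁻¹) := by
    refine circleIntegral.integral_congr hr.le (fun z hz => ?_)
    show p.eval z * (z ^ (m + 1))⁻¹ = _
    rw [Polynomial.eval_eq_sum_range' (n := max (p.natDegree) m + 1) (by omega), Finset.sum_mul]
    refine Finset.sum_congr rfl (fun j _ => by ring)
  rw [h1, circleIntegral.integral_fun_sum
    (fun j _ => (hcont j).circleIntegrable hr.le)]
  rw [Finset.sum_eq_single m]
  · rw [circleIntegral.integral_const_mul]
    have h2 : (∮ z in C(0, r), z ^ m * (z ^ (m + 1))⁻¹) = 2 * Real.pi * I := by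
      rw [← circleIntegral.integral_sub_center_inv (0 : ℂ) hr.ne']
      refine circleIntegral.integral_congr hr.le (fun z hz => ?_)
      have := hne z hz
      simp only [sub_zero]
      field_simp
      ring
    rw [h2]; ring
  · intro j _ hj
    rw [circleIntegral.integral_const_mul]
    have h2 : (∮ z in C(0, r), z ^ j * (z ^ (m + 1))⁻¹) = 0 := by
      refine Eq.trans ?_
        (circleIntegral.integral_sub_zpow_of_ne (n := (j : ℤ) - (m + 1)) (by omega) (0 : ℂ) 0 r)
      refine circleIntegral.integral_congr hr.le (fun z hz => ?_)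
      have h3 := hne z hz
      simp only [sub_zero]
      rw [zpow_sub₀ h3, div_eq_mul_inv]
      norm_cast
    rw [h2, mul_zero]
  · intro hm
    exact absurd (Finset.mem_range.mpr (by omega)) hm

lemma circle_h (n : ℕ) (r : ℝ) (hr : 0 < r) (hr1 : r < 1) :
    (∮ z in C(0, r), h z * (z ^ (256 ^ n + 1))⁻¹) = 2 * Real.pi * I * a n := by
  have hne : ∀ z ∈ sphere (0 : ℂ) r, z ≠ 0 := by
    intro z hz h0
    rw [h0] at hz
    simp at hz
    exact hr.ne hz
  have hU : TendstoUniformlyOn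
      (fun k : ℕ => fun z : ℂ => ∑ j ∈ Finset.range k, term j z * (z ^ (256 ^ n + 1))⁻¹)
      (fun z => ∑' j, term j z * (z ^ (256 ^ n + 1))⁻¹) atTop (sphere (0 : ℂ) r) := by
    refine tendstoUniformlyOn_tsum_nat
      (u := fun j => 2 * r ^ j * (r ^ (256 ^ n + 1))⁻¹)
      ((summable_bound r hr.le hr1).mul_right _) ?_
    intro j z hz
    have hz' : ‖z‖ = r := by simpa using hz
    rw [norm_mul, norm_inv, norm_pow, hz']
    gcongr
    exact term_bound j z r hz'.le hr1.le
  have hlim := hU.tendsto_circleIntegral_of_continuousOn hr.le (Eventually.of_forall fun k => by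
    refine continuousOn_finsetSum _ (fun j _ => ?_)
    refine (differentiable_term j).continuous.continuousOn.mul ?_
    exact (continuousOn_id.pow _).inv₀ (fun z hz => pow_ne_zero _ (hne z hz)))
  have hleft : ∀ k, n + 1 ≤ k → (∮ z in C(0, r), ∑ j ∈ Finset.range k,
      term j z * (z ^ (256 ^ n + 1))⁻¹) = 2 * Real.pi * I * a n := by
    intro k hk
    obtain ⟨l, rfl⟩ := Nat.exists_eq_add_of_le hk
    rw [← coeff_P_stable n l, ← circle_poly _ _ r hr]
    refine circleIntegral.integral_congr hr.le (fun z hz => ?_)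
    show ∑ j ∈ Finset.range (n + 1 + l), term j z * (z ^ (256 ^ n + 1))⁻¹ = _
    rw [← Finset.sum_mul, ← P_eq_sum]
    rfl
  have hlim2 : Tendsto (fun k : ℕ => ∮ z in C(0, r), ∑ j ∈ Finset.range k,
      term j z * (z ^ (256 ^ n + 1))⁻¹) atTop (𝓝 (2 * Real.pi * I * a n)) := by
    refine tendsto_const_nhds.congr' ?_
    filter_upwards [eventually_ge_atTop (n + 1)] with k hk
    exact (hleft k hk).symm
  have h3 := tendsto_nhds_unique hlim hlim2
  rw [← h3]
  refine circleIntegral.integral_congr hr.le (fun z hz => ?_)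
  show h z * (z ^ (256 ^ n + 1))⁻¹ = ∑' j, term j z * (z ^ (256 ^ n + 1))⁻¹
  rw [tsum_mul_right]
  rfl

lemma circle_deriv_h (n : ℕ) (r : ℝ) (hr : 0 < r) (hr1 : r < 1) :
    (∮ z in C(0, r), deriv h z * (z ^ (256 ^ n))⁻¹) = 2 * Real.pi * I * (256 ^ n * a n) := by
  have hne : ∀ z ∈ sphere (0 : ℂ) r, z ≠ 0 := by
    intro z hz h0
    rw [h0] at hz
    simp at hz
    exact hr.ne hz
  have hsub : sphere (0 : ℂ) r ⊆ ball (0 : ℂ) 1 := by
    intro z hz
    simp only [mem_sphere_iff_norm, sub_zero] at hz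
    simp [hz, hr1]
  have hcd : ContinuousOn (deriv h) (ball (0 : ℂ) 1) :=
    (h_differentiableOn.deriv isOpen_ball).continuousOn
  have hch : ContinuousOn h (ball (0 : ℂ) 1) := h_differentiableOn.continuousOn
  have h1 : (∮ z in C(0, r), (deriv h z * (z ^ (256 ^ n))⁻¹
      - 256 ^ n * (h z * (z ^ (256 ^ n + 1))⁻¹))) = 0 := by
    refine circleIntegral.integral_eq_zero_of_hasDerivWithinAt
      (f := fun z => h z * (z ^ (256 ^ n))⁻¹) hr.le ?_
    intro z hz
    have hz0 := hne z hz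
    have hh : HasDerivAt h (deriv h z) z :=
      (h_differentiableOn.differentiableAt (isOpen_ball.mem_nhds (hsub hz))).hasDerivAt
    have hp : HasDerivAt (fun z : ℂ => (z ^ (256 ^ n))⁻¹)
        (-(((256 ^ n : ℕ) : ℂ) * z ^ (256 ^ n - 1)) / (z ^ (256 ^ n)) ^ 2) z :=
      (hasDerivAt_pow (256 ^ n) z).inv (pow_ne_zero _ hz0)
    have := (hh.mul hp).hasDerivWithinAt (s := sphere (0 : ℂ) r)
    refine this.congr_deriv ?_
    have h256 : 256 ^ n - 1 + 1 = 256 ^ n := Nat.sub_add_cancel (Nat.one_le_pow _ _ (by norm_num))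
    have hz1 : z ^ (256 ^ n) = z ^ (256 ^ n - 1) * z := by
      rw [← pow_succ, h256]
    rw [sub_eq_add_neg]
    congr 1
    rw [pow_succ z (256 ^ n), hz1]
    have hz2 : z ^ (256 ^ n - 1) ≠ 0 := pow_ne_zero _ hz0
    push_cast
    field_simp
  rw [circleIntegral.integral_sub, circleIntegral.integral_const_mul, circle_h n r hr hr1,
    sub_eq_zero] at h1
  · rw [h1]; ring
  · refine ContinuousOn.circleIntegrable hr.le ((hcd.mono hsub).mul ?_)
    exact (continuousOn_id.pow _).inv₀ (fun z hz => pow_ne_zero _ (hne z hz))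
  · refine ContinuousOn.circleIntegrable hr.le (continuousOn_const.mul ((hch.mono hsub).mul ?_))
    exact (continuousOn_id.pow _).inv₀ (fun z hz => pow_ne_zero _ (hne z hz))

/-- Lower bound for the circle means of the derivative. -/
lemma circle_mean (n : ℕ) (r : ℝ) (hr : 0 < r) (hr1 : r < 1) :
    2 * Real.pi * (256 ^ n * a n) * r ^ (256 ^ n)
      ≤ ∫ θ in (0 : ℝ)..(2 * Real.pi), r * ‖deriv h (circleMap 0 r θ)‖ := by
  have h1 := circle_deriv_h n r hr hr1
  have h2 : ‖(∮ z in C(0, r), deriv h z * (z ^ (256 ^ n))⁻¹)‖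
      = 2 * Real.pi * (256 ^ n * a n) := by
    rw [h1]
    simp only [norm_mul, Complex.norm_I, Complex.norm_real, Complex.norm_ofNat, norm_pow,
      Real.norm_of_nonneg Real.pi_pos.le, Real.norm_of_nonneg (a_pos n).le, mul_one]
  have h3 : ‖(∮ z in C(0, r), deriv h z * (z ^ (256 ^ n))⁻¹)‖
      ≤ ∫ θ in (0 : ℝ)..(2 * Real.pi), (r * ‖deriv h (circleMap 0 r θ)‖) * (r ^ (256 ^ n))⁻¹ := by
    unfold circleIntegral
    refine (intervalIntegral.norm_integral_le_integral_norm Real.two_pi_pos.le).trans_eq ?_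
    refine intervalIntegral.integral_congr (fun θ _ => ?_)
    simp only [deriv_circleMap, smul_eq_mul, norm_mul, norm_I, norm_circleMap_zero, norm_inv,
      norm_pow, abs_of_pos hr]
    ring
  rw [intervalIntegral.integral_mul_const, h2] at h3
  have h4 : (0 : ℝ) < r ^ (256 ^ n) := by positivity
  calc 2 * Real.pi * (256 ^ n * a n) * r ^ (256 ^ n)
      ≤ ((∫ θ in (0 : ℝ)..(2 * Real.pi), (r * ‖deriv h (circleMap 0 r θ)‖))
          * (r ^ (256 ^ n))⁻¹) * r ^ (256 ^ n) := by gcongr
    _ = _ := by field_simp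

end Pool.Agent.Helper12.DB
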