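import Pool.Agent.Helper12.DB9

/-!
The lower bound and the contradiction.
-/

set_option autoImplicit false

namespace Pool.Agent.Helper12.DB

open Complex MeasureTheory Metric Set Filter
open scoped Topology ENNReal ContDiff ComplexConjugate

/-! ### The weight in the vertical variables -/

/-- The vertical cutoff as a function of the tail. -/
noncomputable def W0 (m : ℕ) (η : ℝ) (t : Fin (m + 1) → ℂ) : ℝ :=
  Real.smoothTransition (2 - (∑ i, ‖t i‖ ^ 2) / η)

lemma W_sh (m : ℕ) (η : ℝ) (x : E m) : W m η (sh m x) = W0 m η (tl m h (fun i => x i)) := by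
  unfold W W0
  congr 3
  rw [EuclideanSpace.norm_sq_eq, Fin.sum_univ_succ, add_sub_cancel_left]
  refine Finset.sum_congr rfl (fun i _ => ?_)
  congr 2
  unfold tl sh
  by_cases hi : i = 0
  · subst hi
    simp
  · have h1 : (i.succ : Fin (m + 2)) ≠ 1 := by
      intro h2
      exact hi (Fin.succ_injective _ (by simpa using h2))
    simp [hi, h1]

lemma continuous_W0 (m : ℕ) (η : ℝ) : Continuous (W0 m η) := by
  unfold W0
  exact Real.smoothTransition.continuous.comp (by fun_prop)

lemma W0_mass (m : ℕ) (η : ℝ) (hη : 0 < η) :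
    (∫⁻ t, ENNReal.ofReal (W0 m η t)) ≠ 0 ∧ (∫⁻ t, ENNReal.ofReal (W0 m η t)) ≠ ⊤ := by
  have hcont := continuous_W0 m η
  have h0 : W0 m η 0 = 1 := by
    unfold W0
    apply Real.smoothTransition.one_of_one_le
    simp
  constructor
  · have h1 : 0 < ∫⁻ t, ENNReal.ofReal (W0 m η t) := by
      rw [lintegral_pos_iff_support (by fun_prop)]
      have h2 : Function.support (fun t => ENNReal.ofReal (W0 m η t)) = {t | 0 < W0 m η t} := by
        ext t
        simp [Function.mem_support]
      rw [h2]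
      refine (isOpen_lt continuous_const hcont).measure_pos _ ⟨0, ?_⟩
      show 0 < W0 m η 0
      rw [h0]; exact one_pos
    exact h1.ne'
  · have hsupp : HasCompactSupport (W0 m η) := by
      refine HasCompactSupport.intro (isCompact_closedBall (0 : Fin (m + 1) → ℂ) (√(2 * η)))
        (fun t ht => ?_)
      rw [mem_closedBall_zero_iff, pi_norm_le_iff_of_nonneg (Real.sqrt_nonneg _)] at ht
      push Not at ht
      obtain ⟨i, hi⟩ := ht
      unfold W0
      apply Real.smoothTransition.zero_of_nonpos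
      have h1 : 2 * η ≤ ‖t i‖ ^ 2 := by
        rw [← Real.sq_sqrt (by positivity : (0 : ℝ) ≤ 2 * η)]
        gcongr
      have h2 : ‖t i‖ ^ 2 ≤ ∑ i, ‖t i‖ ^ 2 :=
        Finset.single_le_sum (f := fun i => ‖t i‖ ^ 2) (fun _ _ => by positivity)
          (Finset.mem_univ i)
      have h3 : 2 ≤ (∑ i, ‖t i‖ ^ 2) / η := by rw [le_div_iff₀ hη]; linarith
      linarith
    exact (hcont.integrable_of_hasCompactSupport hsupp).lintegral_lt_top.ne

/-- Fubini for the weight. -/
lemma fubini_W (m : ℕ) : ∃ c : ℝ≥0∞, c ≠ 0 ∧ c ≠ ⊤ ∧ ∀ (η : ℝ) (γ : ℂ → ℝ≥0∞), Measurable γ →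
    (∀ z, 1 ≤ ‖z‖ → γ z = 0) →
    ∫⁻ x : E m, γ (x 0) * ENNReal.ofReal (W m η (sh m x))
      = c * ((∫⁻ z, γ z) * ∫⁻ t, ENNReal.ofReal (W0 m η t)) := by
  obtain ⟨c, hc0, hc1, hc⟩ := fubini m
  refine ⟨c, hc0, hc1, ?_⟩
  intro η γ hγ hγ0
  have hH : Measurable ((ball (0 : ℂ) 1).indicator h) := by
    classical
    have h1 := ContinuousOn.measurable_piecewise (f := h) (g := fun _ => (0 : ℂ))
      (s := ball (0 : ℂ) 1) h_differentiableOn.continuousOn
      continuousOn_const measurableSet_ball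
    have h2 : (ball (0 : ℂ) 1).piecewise h (fun _ => (0 : ℂ)) = (ball (0 : ℂ) 1).indicator h :=
      Set.piecewise_eq_indicator
    rwa [h2] at h1
  have h1 := hc ((ball (0 : ℂ) 1).indicator h) γ (fun t => ENNReal.ofReal (W0 m η t)) hH hγ
    (by have := continuous_W0 m η; fun_prop)
  rw [← h1]
  refine lintegral_congr (fun x => ?_)
  by_cases hx : ‖x 0‖ < 1
  · rw [W_sh]
    have h2 : tl m h (fun i => x i) = tl m ((ball (0 : ℂ) 1).indicator h) (fun i => x i) := by
      unfold tl
      funext i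
      rw [indicator_of_mem (by simpa using hx)]
    rw [h2]
  · push Not at hx
    rw [hγ0 _ hx, zero_mul, zero_mul]

/-! ### Pointwise lower bound -/

/-- Radial parameter. -/
noncomputable def dl (k : ℕ) : ℝ := 1 / (16 * N k)

/-- Vertical parameter. -/
noncomputable def et (k : ℕ) : ℝ := 1 / (200 * N k)

lemma dl_pos (k : ℕ) : 0 < dl k := by unfold dl; have := N_pos k; positivity

lemma et_pos (k : ℕ) : 0 < et k := by unfold et; have := N_pos k; positivity

lemma et_lt (k : ℕ) : 2 * et k < dl k := by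
  unfold et dl
  have := N_pos k
  rw [mul_one_div, div_lt_div_iff₀ (by positivity) (by positivity)]
  linarith

lemma dl_lt (k : ℕ) : 2 * dl k < 1 := by
  unfold dl
  have := N_pos k
  have h1 := one_le_N k
  rw [mul_one_div, div_lt_one (by positivity)]
  linarith

lemma phase_re (n : ℕ) (b : ℂ) (hb : b ∈ isl n) (z : ℂ) (hz : ‖z - b‖ ≤ rho n) :
    9 / 10 * ‖deriv h b‖ ≤ (ph b * conj (deriv h z)).re := by
  have hn := isl_level n b hb
  obtain ⟨hbA, hbq⟩ := isl_mem n b hb
  have hH := isl_deriv_pos n b hb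
  have hρ := rho_pos n
  have hosc := (osc n hn b hbA hbq z (by rw [mem_closedBall, dist_eq_norm]; linarith)).2
  have h1 : ph b * conj (deriv h b) = (‖deriv h b‖ : ℂ) := by
    unfold ph
    rw [div_mul_eq_mul_div, Complex.mul_conj, Complex.normSq_eq_norm_sq]
    have : (‖deriv h b‖ : ℂ) ≠ 0 := by exact_mod_cast hH.ne'
    push_cast
    field_simp
  have h2 : ‖ph b‖ = 1 := by
    unfold ph
    rw [norm_div, Complex.norm_real, norm_norm, div_self hH.ne']
  have h3 : ph b * conj (deriv h z) = (‖deriv h b‖ : ℂ)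
      + ph b * conj (deriv h z - deriv h b) := by
    rw [map_sub, mul_sub, h1]; ring
  rw [h3, Complex.add_re, Complex.ofReal_re]
  have h4 : |(ph b * conj (deriv h z - deriv h b)).re| ≤ ‖deriv h b‖ / 10 := by
    refine (Complex.abs_re_le_norm _).trans ?_
    rw [norm_mul, h2, one_mul, Complex.norm_conj]
    exact hosc
  have := (abs_le.mp h4).1
  linarith

/-- The lower bound for one island. -/
lemma term_lower (n k : ℕ) (hnk : n ≤ k) (b : ℂ) (hb : b ∈ isl n) (z w : ℂ)
    (hw : ‖w - h z‖ ^ 2 ≤ 2 * et k) :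
    (closedBall b (rho n / 5)).indicator (fun _ => 9 / 10 * ‖deriv h b‖) z
      ≤ (T n b z w * conj (deriv h z)).re * ct (dl k) z := by
  have hn := isl_level n b hb
  obtain ⟨hbA, hbq⟩ := isl_mem n b hb
  have hH := isl_deriv_pos n b hb
  have hρ := rho_pos n
  have hNn := N_pos n
  have hNk := N_pos k
  by_cases hz : z ∈ closedBall b (rho n / 5)
  · rw [indicator_of_mem hz]
    rw [mem_closedBall, dist_eq_norm] at hz
    have hlin := lin n hn b hbA hbq z (by rw [mem_closedBall, dist_eq_norm]; linarith)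
    have h1 : ‖h z - h b‖ ≤ 11 / 10 * ‖deriv h b‖ * (rho n / 5) := by
      have h2 : ‖h z - h b‖ ≤ ‖h z - h b - deriv h b * (z - b)‖ + ‖deriv h b * (z - b)‖ := by
        calc ‖h z - h b‖ = ‖(h z - h b - deriv h b * (z - b)) + deriv h b * (z - b)‖ := by
              congr 1; ring
          _ ≤ _ := norm_add_le _ _
      rw [norm_mul] at h2
      have h3 : 11 / 10 * ‖deriv h b‖ * ‖z - b‖ ≤ 11 / 10 * ‖deriv h b‖ * (rho n / 5) := by gcongr
      linarith
    have h4 : ‖w - h z‖ ≤ 1 / 10 * (‖deriv h b‖ * rho n) := by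
      have hqk := q_pos k
      have hqn := q_pos n
      have h5 : 2 * et k = (1 / 10 / q k ^ 4) ^ 2 := by
        unfold et; rw [N_eq]; field_simp; norm_num
      rw [h5] at hw
      have h6 : ‖w - h z‖ ≤ 1 / 10 / q k ^ 4 := (abs_le_of_sq_le_sq' hw (by positivity)).2
      have h7 : q n ^ 7 * rho n ≤ ‖deriv h b‖ * rho n := by gcongr
      have h8 : q n ^ 7 * rho n = 1 / q n ^ 3 := by rw [rho]; field_simp
      rw [h8] at h7
      have h9 : q n ≤ q k := by unfold q; exact pow_le_pow_right₀ (by norm_num) hnk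
      have h10 : 1 ≤ q k := by unfold q; exact one_le_pow₀ (by norm_num)
      have h11 : q n ^ 3 ≤ q k ^ 4 := by
        calc q n ^ 3 ≤ q k ^ 3 := by gcongr
          _ ≤ q k ^ 4 := pow_le_pow_right₀ h10 (by norm_num)
      have h12 : 1 / q k ^ 4 ≤ 1 / q n ^ 3 := one_div_le_one_div_of_le (by positivity) h11
      have h13 : 1 / 10 / q k ^ 4 = 1 / 10 * (1 / q k ^ 4) := by ring
      rw [h13] at h6
      linarith
    have h5 : ‖w - h b‖ ≤ ‖deriv h b‖ * rho n / 3 := by
      have : ‖w - h b‖ ≤ ‖w - h z‖ + ‖h z - h b‖ := by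
        calc ‖w - h b‖ = ‖(w - h z) + (h z - h b)‖ := by congr 1; ring
          _ ≤ _ := norm_add_le _ _
      have hp : 0 < ‖deriv h b‖ * rho n := by positivity
      nlinarith
    have hT : T n b z w = ph b := by
      rw [T_eq_of_near n b z w (by linarith), bmp_eq_one _ _ _ (by positivity) h5]
      simp
    have hct : ct (dl k) z = 1 := by
      apply ct_eq_one _ (dl_pos k)
      have h6 := (near_island n b hb z (by linarith)).2
      have h7 : 1 / (8 * N k) ≤ 1 / (8 * N n) := by
        apply one_div_le_one_div_of_le (by positivity)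
        have := N_mono hnk
        linarith
      have h8 : 2 * dl k = 1 / (8 * N k) := by unfold dl; field_simp; norm_num
      rw [h8]
      have h9 : 0 < 1 / (8 * N n) := by positivity
      have h10 : ‖z‖ ^ 2 ≤ ‖z‖ := by
        have h11 : ‖z‖ ≤ 1 := by linarith
        nlinarith [norm_nonneg z]
      linarith
    rw [hT, hct, mul_one]
    exact phase_re n b hb z (by linarith)
  · rw [indicator_of_notMem hz]
    refine mul_nonneg ?_ (ct_nonneg _ _)
    by_cases hT : T n b z w = 0
    · rw [hT]; simp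
    · have h1 := phase_re n b hb z (T_ne_zero n b z w hT).le
      have h2 : T n b z w * conj (deriv h z)
          = ((bmp b (2 / 3 * rho n) z * bmp (h b) (‖deriv h b‖ * rho n / 3) w : ℝ) : ℂ)
            * (ph b * conj (deriv h z)) := by
        rw [T]; ring
      rw [h2, Complex.re_ofReal_mul]
      refine mul_nonneg (mul_nonneg (bmp_nonneg _ _ _) (bmp_nonneg _ _ _)) ?_
      have h3 : 0 ≤ 9 / 10 * ‖deriv h b‖ := by positivity
      linarith

/-- Pointwise lower bound for the whole integrand. -/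
lemma pointwise_lower (m k : ℕ) (x : E m) (hx : ‖x 0‖ < 1) :
    ∑ n ∈ Finset.range (k + 1), ∑ b ∈ isl n,
      (closedBall b (rho n / 5)).indicator (fun _ => 9 / 10 * ‖deriv h b‖) (x 0)
        * W m (et k) (sh m x)
      ≤ (frm m 1 x * phi1 m (dl k) (et k) x).re := by
  have hδ := dl_pos k
  have hη := et_pos k
  have hNk := N_pos k
  have hf1 : frm m 1 x = g (x 0) (x 1) := by simp [frm]
  have hre : (frm m 1 x * phi1 m (dl k) (et k) x).re
      = (g (x 0) (x 1) * conj (deriv h (x 0))).re * ct (dl k) (x 0) * W m (et k) (sh m x) := by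
    have : frm m 1 x * phi1 m (dl k) (et k) x
        = ((ct (dl k) (x 0) * W m (et k) (sh m x) : ℝ) : ℂ)
          * (g (x 0) (x 1) * conj (deriv h (x 0))) := by
      rw [hf1, phi1]; push_cast; ring
    rw [this, Complex.re_ofReal_mul]
    ring
  rw [hre]
  have hW := W_nonneg m (et k) (sh m x)
  by_cases hW0 : W m (et k) (sh m x) = 0
  · rw [hW0]; simp
  have hσ : ‖sh m x‖ ^ 2 - ‖sh m x 0‖ ^ 2 ≤ 2 * et k := by
    by_contra hcon
    push Not at hcon
    exact hW0 (W_eq_zero m _ hη _ hcon.le)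
  have hw : ‖x 1 - h (x 0)‖ ^ 2 ≤ 2 * et k := by
    have h1 := norm_sq_two m (sh m x)
    have h2 : sh m x 1 = x 1 - h (x 0) := shear_one m x _
    rw [h2] at h1
    linarith
  have hterm : ∀ n ∈ Finset.range (k + 1), ∀ b ∈ isl n,
      (closedBall b (rho n / 5)).indicator (fun _ => 9 / 10 * ‖deriv h b‖) (x 0)
      ≤ (T n b (x 0) (x 1) * conj (deriv h (x 0))).re * ct (dl k) (x 0) := by
    intro n hn b hb
    exact term_lower n k (by have := Finset.mem_range.mp hn; omega) b hb (x 0) (x 1) hw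
  simp_rw [← Finset.sum_mul]
  refine mul_le_mul_of_nonneg_right ?_ hW
  by_cases hct : ct (dl k) (x 0) = 0
  · rw [hct, mul_zero]
    refine Finset.sum_nonpos (fun n hn => Finset.sum_nonpos (fun b hb => ?_))
    have := hterm n hn b hb
    rw [hct, mul_zero] at this
    exact this
  · have hlev : ‖x 0‖ ≤ 1 - 1 / N (k + 1) := by
      have h1 : dl k < 1 - ‖x 0‖ ^ 2 := by
        by_contra hcon
        push Not at hcon
        exact hct (ct_eq_zero _ hδ _ hcon)
      have h2 : 1 / N (k + 1) = dl k / 16 := by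
        unfold dl N; rw [pow_succ]; field_simp; norm_num
      rw [h2]
      nlinarith [norm_nonneg (x 0)]
    rw [g_eq_sum (k + 1) (x 0) (x 1) hlev, Finset.sum_mul, Complex.re_sum, Finset.sum_mul]
    refine Finset.sum_le_sum (fun n hn => ?_)
    unfold F
    rw [Finset.sum_mul, Complex.re_sum, Finset.sum_mul]
    exact Finset.sum_le_sum (fun b hb => hterm n hn b hb)

end Pool.Agent.Helper12.DB
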