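import Pool.Agent.Helper12.DB10

/-!
The contradiction: the `∂̄`-equation with the constructed datum has no bounded solution.
-/

set_option autoImplicit false

namespace Pool.Agent.Helper12.DB

open Complex MeasureTheory Metric Set Filter
open scoped Topology ENNReal ContDiff ComplexConjugate

/-- The total radial weight. -/
noncomputable def gt (k : ℕ) (z : ℂ) : ℝ≥0∞ :=
  ∑ n ∈ Finset.range (k + 1), ∑ b ∈ isl n,
    (closedBall b (rho n / 5)).indicator (fun _ => ENNReal.ofReal (9 / 10 * ‖deriv h b‖)) z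

/-- The total mass. -/
noncomputable def S (k : ℕ) : ℝ :=
  ∑ n ∈ Finset.range (k + 1), ∑ b ∈ isl n, 9 / 10 * ‖deriv h b‖ * ((rho n / 5) ^ 2 * Real.pi)

lemma measurable_gt (k : ℕ) : Measurable (gt k) := by
  unfold gt
  refine Finset.measurable_sum _ (fun n _ => Finset.measurable_sum _ (fun b _ => ?_))
  exact measurable_const.indicator measurableSet_closedBall

lemma lintegral_gt (k : ℕ) : ∫⁻ z, gt k z = ENNReal.ofReal (S k) := by
  unfold gt S
  rw [lintegral_finsetSum _ (fun n _ => Finset.measurable_sum _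
    (fun b _ => measurable_const.indicator measurableSet_closedBall)),
    ENNReal.ofReal_sum_of_nonneg (fun n _ => Finset.sum_nonneg (fun b _ => by
      have := Real.pi_pos; positivity))]
  refine Finset.sum_congr rfl (fun n _ => ?_)
  rw [lintegral_finsetSum _ (fun b _ => measurable_const.indicator measurableSet_closedBall),
    ENNReal.ofReal_sum_of_nonneg (fun b _ => by have := Real.pi_pos; positivity)]
  refine Finset.sum_congr rfl (fun b _ => ?_)
  have hρ := rho_pos n
  have hpi : ((NNReal.pi : NNReal) : ℝ≥0∞) = ENNReal.ofReal Real.pi := by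
    rw [← NNReal.coe_real_pi, ENNReal.ofReal_coe_nnreal]
  rw [lintegral_indicator measurableSet_closedBall, setLIntegral_const, Complex.volume_closedBall,
    hpi, ← ENNReal.ofReal_pow (by positivity), ← ENNReal.ofReal_mul (by positivity),
    ← ENNReal.ofReal_mul (by positivity)]

lemma island_disc (n k : ℕ) (hnk : n ≤ k) (b : ℂ) (hb : b ∈ isl n) (z : ℂ)
    (hz : z ∈ closedBall b (rho n / 5)) : 2 * dl k ≤ 1 - ‖z‖ ^ 2 := by
  have hρ := rho_pos n
  have hNn := N_pos n
  have hNk := N_pos k
  rw [mem_closedBall, dist_eq_norm] at hz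
  have h6 := (near_island n b hb z (by linarith)).2
  have h7 : 1 / (8 * N k) ≤ 1 / (8 * N n) := by
    apply one_div_le_one_div_of_le (by positivity)
    have := N_mono hnk
    linarith
  have h8 : 2 * dl k = 1 / (8 * N k) := by unfold dl; field_simp; norm_num
  rw [h8]
  have h9 : 0 < 1 / (8 * N n) := by positivity
  have h10 : ‖z‖ ^ 2 ≤ ‖z‖ := by
    have h11 : ‖z‖ ≤ 1 := by linarith
    nlinarith [norm_nonneg z]
  linarith

lemma gt_ne_zero (k : ℕ) (z : ℂ) (hz : gt k z ≠ 0) : 2 * dl k ≤ 1 - ‖z‖ ^ 2 := by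
  obtain ⟨n, hn, h1⟩ := Finset.exists_ne_zero_of_sum_ne_zero hz
  obtain ⟨b, hb, h2⟩ := Finset.exists_ne_zero_of_sum_ne_zero h1
  have h3 : z ∈ closedBall b (rho n / 5) := by
    by_contra hcon
    exact h2 (indicator_of_notMem hcon _)
  exact island_disc n k (by have := Finset.mem_range.mp hn; omega) b hb z h3

lemma gt_mul_W (m k : ℕ) (x : E m) (hx : x ∈ Om m) :
    gt k (x 0) * ENNReal.ofReal (W m (et k) (sh m x))
      ≤ ENNReal.ofReal (frm m 1 x * phi1 m (dl k) (et k) x).re := by
  have h1 := pointwise_lower m k x (fiber_disc m x hx)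
  refine le_trans (le_of_eq ?_) (ENNReal.ofReal_le_ofReal h1)
  have hW := W_nonneg m (et k) (sh m x)
  simp_rw [← Finset.sum_mul]
  rw [ENNReal.ofReal_mul' hW]
  congr 1
  unfold gt
  have hnn : ∀ n, ∀ b : ℂ,
      0 ≤ (closedBall b (rho n / 5)).indicator (fun _ => 9 / 10 * ‖deriv h b‖) (x 0) :=
    fun n b => indicator_nonneg (fun _ _ => by positivity) _
  rw [ENNReal.ofReal_sum_of_nonneg (fun n _ => Finset.sum_nonneg (fun b _ => hnn n b))]
  refine Finset.sum_congr rfl (fun n _ => ?_)
  rw [ENNReal.ofReal_sum_of_nonneg (fun b _ => hnn n b)]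
  refine Finset.sum_congr rfl (fun b _ => ?_)
  by_cases hb : x 0 ∈ closedBall b (rho n / 5)
  · rw [indicator_of_mem hb, indicator_of_mem hb]
  · rw [indicator_of_notMem hb, indicator_of_notMem hb, ENNReal.ofReal_zero]

lemma gt_W_outside (m k : ℕ) (x : E m) (hx : x ∉ Om m) :
    gt k (x 0) * ENNReal.ofReal (W m (et k) (sh m x)) = 0 := by
  by_cases hg : gt k (x 0) = 0
  · rw [hg, zero_mul]
  · have h1 := gt_ne_zero k (x 0) hg
    rw [mem_Om, not_lt] at hx
    have h2 : W m (et k) (sh m x) = 0 := by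
      apply W_eq_zero m _ (et_pos k)
      rw [sh_zero]
      have h3 := et_lt k
      have h4 := dl_pos k
      nlinarith
    rw [h2, ENNReal.ofReal_zero, mul_zero]

lemma integrable_frm_phi (m k : ℕ) :
    Integrable (fun x => frm m 1 x * phi1 m (dl k) (et k) x) (volume.restrict (Om m)) := by
  have ht := isTest_phi1 m (dl k) (et k) (dl_pos k) (et_pos k) (et_lt k)
  have h1 : Integrable (phi1 m (dl k) (et k)) (volume : Measure (E m)) :=
    ht.1.continuous.integrable_of_hasCompactSupport ht.2.1
  refine h1.restrict.bdd_mul ((frm_bound m).1 1) (c := 1) (Eventually.of_forall fun x => ?_)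
  have : frm m 1 x = g (x 0) (x 1) := by simp [frm]
  rw [this]
  exact norm_g_le _ _

lemma lower_bound (m k : ℕ) :
    ∫⁻ x : E m, gt k (x 0) * ENNReal.ofReal (W m (et k) (sh m x))
      ≤ ‖∫ x in Om m, frm m 1 x * phi1 m (dl k) (et k) x‖ₑ := by
  have hint := integrable_frm_phi m k
  have hmeas : MeasurableSet (Om m) := (isOpen_Om m).measurableSet
  have hre : Integrable (fun x => (frm m 1 x * phi1 m (dl k) (et k) x).re)
      (volume.restrict (Om m)) := hint.re
  have hnn : ∀ x ∈ Om m, 0 ≤ (frm m 1 x * phi1 m (dl k) (et k) x).re := by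
    intro x hx
    refine le_trans ?_ (pointwise_lower m k x (fiber_disc m x hx))
    refine Finset.sum_nonneg (fun n _ => Finset.sum_nonneg (fun b _ => ?_))
    exact mul_nonneg (indicator_nonneg (fun _ _ => by positivity) _) (W_nonneg _ _ _)
  calc ∫⁻ x : E m, gt k (x 0) * ENNReal.ofReal (W m (et k) (sh m x))
      = ∫⁻ x in Om m, gt k (x 0) * ENNReal.ofReal (W m (et k) (sh m x)) := by
        rw [← lintegral_indicator hmeas]
        refine lintegral_congr (fun x => ?_)
        by_cases hx : x ∈ Om m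
        · rw [indicator_of_mem hx]
        · rw [indicator_of_notMem hx, gt_W_outside m k x hx]
    _ ≤ ∫⁻ x in Om m, ENNReal.ofReal (frm m 1 x * phi1 m (dl k) (et k) x).re :=
        setLIntegral_mono' hmeas (fun x hx => gt_mul_W m k x hx)
    _ = ENNReal.ofReal (∫ x in Om m, (frm m 1 x * phi1 m (dl k) (et k) x).re) := by
        rw [ofReal_integral_eq_lintegral_ofReal hre]
        filter_upwards [ae_restrict_mem hmeas] with x hx
        exact hnn x hx
    _ = ENNReal.ofReal (∫ x in Om m, frm m 1 x * phi1 m (dl k) (et k) x).re := by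
        congr 1
        exact Complex.reCLM.integral_comp_comm hint
    _ ≤ ENNReal.ofReal ‖∫ x in Om m, frm m 1 x * phi1 m (dl k) (et k) x‖ :=
        ENNReal.ofReal_le_ofReal (Complex.re_le_norm _)
    _ = _ := ofReal_norm _

lemma S_bound (m : ℕ) (u : E m → ℂ) (C : ℝ) (hu : FunBound (Om m) u C)
    (hw : ∀ j, WeakDbar (Om m) j u (frm m j)) :
    ∃ Q : ℝ, ∀ k, S k ≤ Q := by
  obtain ⟨K, hK0, hK⟩ := exists_deriv_bound
  obtain ⟨c, hc0, hc1, hc⟩ := fubini_W m
  refine ⟨max C 0 * (2 * Real.pi * K), fun k => ?_⟩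
  have hup := weak_consequence m (dl k) (et k) (dl_pos k) (et_pos k) (et_lt k) u C hu hw
  have hlow := lower_bound m k
  have hw0 := W0_mass m (et k) (et_pos k)
  set w := ∫⁻ t, ENNReal.ofReal (W0 m (et k) t) with hwdef
  have hδ := dl_pos k
  have h1 := hc (et k) (gt k) (measurable_gt k) (fun z hz => by
    by_contra hcon
    have := gt_ne_zero k z hcon
    nlinarith)
  have hmeasdC : Measurable (fun z : ℂ => ‖dC (fun z => (ct (dl k) z : ℂ)) z‖ₑ) := by
    have hsm : ContDiff ℝ ∞ (fun z : ℂ => (ct (dl k) z : ℂ)) :=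
      Complex.ofRealCLM.contDiff.comp (contDiff_ct _)
    have hcf : ∀ v : ℂ, Continuous (fun z => fderiv ℝ (fun z : ℂ => (ct (dl k) z : ℂ)) z v) :=
      fun v => (hsm.continuous_fderiv (by simp)).clm_apply continuous_const
    have hcont : Continuous (fun z : ℂ => dC (fun z => (ct (dl k) z : ℂ)) z) := by
      unfold dC
      exact continuous_const.mul ((hcf 1).add (continuous_const.mul (hcf I)))
    exact hcont.measurable.enorm
  have h2 := hc (et k) (fun z => ‖dC (fun z => (ct (dl k) z : ℂ)) z‖ₑ) hmeasdC (fun z hz => by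
    rw [dC_outside (dl k) hδ z (Or.inl (by nlinarith))]
    simp)
  rw [h2] at hup
  rw [h1, lintegral_gt] at hlow
  have hvar := variation K (dl k) hδ (dl_lt k) hK
  have h3 : c * (ENNReal.ofReal (S k) * w)
      ≤ ENNReal.ofReal C * (c * (ENNReal.ofReal (2 * Real.pi * K) * w)) := by
    refine hlow.trans (hup.trans ?_)
    gcongr
  have h4 : (c * w) * ENNReal.ofReal (S k)
      ≤ (c * w) * (ENNReal.ofReal C * ENNReal.ofReal (2 * Real.pi * K)) := by
    calc (c * w) * ENNReal.ofReal (S k) = c * (ENNReal.ofReal (S k) * w) := by ring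
      _ ≤ ENNReal.ofReal C * (c * (ENNReal.ofReal (2 * Real.pi * K) * w)) := h3
      _ = _ := by ring
  have h5 : ENNReal.ofReal (S k) ≤ ENNReal.ofReal C * ENNReal.ofReal (2 * Real.pi * K) :=
    (ENNReal.mul_le_mul_iff_right (mul_ne_zero hc0 hw0.1) (ENNReal.mul_ne_top hc1 hw0.2)).mp h4
  have h6 : ENNReal.ofReal C = ENNReal.ofReal (max C 0) := by
    rcases le_total C 0 with hC | hC
    · rw [max_eq_right hC, ENNReal.ofReal_of_nonpos hC, ENNReal.ofReal_zero]
    · rw [max_eq_left hC]
  rw [h6, ← ENNReal.ofReal_mul (le_max_right _ _)] at h5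
  have hp := Real.pi_pos
  exact (ENNReal.ofReal_le_ofReal_iff (by positivity)).mp h5

/-- There is no bounded solution. -/
theorem no_bounded_solution (m : ℕ) (u : E m → ℂ) (C : ℝ) (hu : FunBound (Om m) u C) :
    ¬ ∀ j, WeakDbar (Om m) j u (frm m j) := by
  intro hw
  obtain ⟨Q, hQ⟩ := S_bound m u C hu hw
  set c0 : ℝ := 9 * Real.pi / (250 * 440) with hc0
  have hpi := Real.pi_pos
  have hc0pos : 0 < c0 := by positivity
  have hterm : ∀ n, c0 * a n ≤ (∑ b ∈ isl n, 9 / 10 * ‖deriv h b‖ * ((rho n / 5) ^ 2 * Real.pi))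
      + (if n < 15 then c0 else 0) := by
    intro n
    by_cases hn : n < 15
    · rw [if_pos hn]
      have h1 : 0 ≤ ∑ b ∈ isl n, 9 / 10 * ‖deriv h b‖ * ((rho n / 5) ^ 2 * Real.pi) :=
        Finset.sum_nonneg (fun b _ => by positivity)
      have h2 := a_le_one n
      nlinarith
    · rw [if_neg hn, add_zero]
      push Not at hn
      have h1 := isl_sum n hn
      have h2 : ∑ b ∈ isl n, 9 / 10 * ‖deriv h b‖ * ((rho n / 5) ^ 2 * Real.pi)
          = 9 * Real.pi / 250 * ∑ b ∈ isl n, ‖deriv h b‖ * rho n ^ 2 := by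
        rw [Finset.mul_sum]
        refine Finset.sum_congr rfl (fun b _ => by ring)
      rw [h2]
      calc c0 * a n = 9 * Real.pi / 250 * (a n / 440) := by rw [hc0]; ring
        _ ≤ _ := by gcongr
  have hsum : ∀ k, ∑ n ∈ Finset.range k, c0 * a n ≤ Q + 15 * c0 := by
    intro k
    calc ∑ n ∈ Finset.range k, c0 * a n ≤ ∑ n ∈ Finset.range (k + 1), c0 * a n := by
          refine Finset.sum_le_sum_of_subset_of_nonneg (Finset.range_mono (Nat.le_succ k)) ?_
          intro n _ _
          have := a_pos n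
          positivity
      _ ≤ ∑ n ∈ Finset.range (k + 1), ((∑ b ∈ isl n, 9 / 10 * ‖deriv h b‖
            * ((rho n / 5) ^ 2 * Real.pi)) + (if n < 15 then c0 else 0)) :=
          Finset.sum_le_sum (fun n _ => hterm n)
      _ = S k + ∑ n ∈ Finset.range (k + 1), (if n < 15 then c0 else 0) := by
          rw [Finset.sum_add_distrib]; rfl
      _ ≤ Q + 15 * c0 := by
          refine add_le_add (hQ k) ?_
          rw [← Finset.sum_filter, Finset.sum_const, nsmul_eq_mul]
          have h1 : ((Finset.range (k + 1)).filter (fun n => n < 15)).card ≤ 15 := by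
            have h2 : (Finset.range (k + 1)).filter (fun n => n < 15) ⊆ Finset.range 15 := by
              intro n hn
              rw [Finset.mem_filter] at hn
              exact Finset.mem_range.mpr hn.2
            simpa using Finset.card_le_card h2
          have h3 : (((Finset.range (k + 1)).filter (fun n => n < 15)).card : ℝ) ≤ 15 := by
            exact_mod_cast h1
          nlinarith
  have hs : Summable (fun n => c0 * a n) :=
    summable_of_sum_range_le (fun n => by have := a_pos n; positivity) hsum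
  have hs2 : Summable a := by
    have := hs.mul_left c0⁻¹
    refine this.congr (fun n => ?_)
    field_simp
  have hs3 : Summable (fun n : ℕ => 1 / ((n : ℝ))) := by
    rw [← summable_nat_add_iff 2]
    refine hs2.congr (fun n => ?_)
    unfold a
    push_cast
    rfl
  exact Real.not_summable_one_div_natCast hs3

end Pool.Agent.Helper12.DB
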