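import Pool.Agent.Helper12.DB1

/-!
Area lower bounds for the derivative on the annuli, and the choice of islands.
-/

set_option autoImplicit false

namespace Pool.Agent.Helper12.DB

open Complex MeasureTheory Metric Set Filter
open scoped Topology ENNReal

/-- `N n = 256 ^ n` as a real number. -/
noncomputable def N (n : ℕ) : ℝ := (256 : ℝ) ^ n

lemma N_pos (n : ℕ) : 0 < N n := by unfold N; positivity

lemma one_le_N (n : ℕ) : 1 ≤ N n := by unfold N; exact one_le_pow₀ (by norm_num)

/-- The annulus at level `n`. -/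
def An (n : ℕ) : Set ℂ := {z | 1 - 1 / (2 * N n) < ‖z‖ ∧ ‖z‖ < 1 - 1 / (4 * N n)}

lemma measurableSet_An (n : ℕ) : MeasurableSet (An n) := by
  have h1 : An n = (fun z : ℂ => ‖z‖) ⁻¹' (Ioo (1 - 1 / (2 * N n)) (1 - 1 / (4 * N n))) := rfl
  rw [h1]
  exact measurable_norm measurableSet_Ioo

lemma measurable_deriv_h : Measurable (deriv h) := measurable_deriv h

lemma radius_pow (n : ℕ) (r : ℝ) (hr : 1 - 1 / (2 * N n) < r) : 1 / 2 ≤ r ^ (256 ^ n) := by
  have hN := N_pos n
  have h1 : 0 ≤ 1 - 1 / (2 * N n) := by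
    have := one_le_N n
    rw [sub_nonneg, div_le_one (by positivity)]
    linarith
  have h2 : (1 : ℝ) + (256 ^ n : ℕ) * (-(1 / (2 * N n))) ≤ (1 + -(1 / (2 * N n))) ^ (256 ^ n) :=
    one_add_mul_le_pow (by linarith) _
  have h3 : ((256 ^ n : ℕ) : ℝ) = N n := by unfold N; push_cast; rfl
  rw [h3] at h2
  have h4 : 1 + N n * (-(1 / (2 * N n))) = 1 / 2 := by field_simp; ring
  rw [h4] at h2
  calc (1 : ℝ) / 2 ≤ (1 + -(1 / (2 * N n))) ^ (256 ^ n) := h2
    _ = (1 - 1 / (2 * N n)) ^ (256 ^ n) := by ring_nf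
    _ ≤ r ^ (256 ^ n) := by gcongr

lemma area_lower (n : ℕ) :
    ENNReal.ofReal (Real.pi / 4 * a n) ≤ ∫⁻ z in An n, ENNReal.ofReal ‖deriv h z‖ := by
  have hN := N_pos n
  have hN1 := one_le_N n
  have ha := a_pos n
  rw [← lintegral_indicator (measurableSet_An n), ← Complex.lintegral_comp_polarCoord_symm]
  have htarget : polarCoord.target = Ioi (0 : ℝ) ×ˢ Ioo (-Real.pi) Real.pi := rfl
  rw [htarget, Measure.volume_eq_prod, ← Measure.prod_restrict, lintegral_prod]
  swap
  · refine Measurable.aemeasurable ?_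
    refine Measurable.mul (by fun_prop) ?_
    refine ((measurable_deriv_h.norm.ennreal_ofReal).indicator (measurableSet_An n)).comp ?_
    have : Measurable (fun p : ℝ × ℝ => Complex.polarCoord.symm p) := by
      have : (fun p : ℝ × ℝ => Complex.polarCoord.symm p)
          = fun p : ℝ × ℝ => (p.1 : ℂ) * (Real.cos p.2 + Real.sin p.2 * I) := by
        funext p; rw [Complex.polarCoord_symm_apply]
      rw [this]; fun_prop
    exact this
  have hr1 : 0 ≤ 1 - 1 / (2 * N n) := by
    rw [sub_nonneg, div_le_one (by positivity)]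
    linarith
  have hsub : Ioo (1 - 1 / (2 * N n)) (1 - 1 / (4 * N n)) ⊆ Ioi (0 : ℝ) := fun r hr =>
    lt_of_le_of_lt hr1 hr.1
  have key : ∀ r ∈ Ioo (1 - 1 / (2 * N n)) (1 - 1 / (4 * N n)),
      ENNReal.ofReal (Real.pi * (N n * a n)) ≤
        ∫⁻ θ in Ioo (-Real.pi) Real.pi, ENNReal.ofReal r •
          (An n).indicator (fun z => ENNReal.ofReal ‖deriv h z‖) (Complex.polarCoord.symm (r, θ)) := by
    intro r hr
    have hr0 : 0 < r := hsub hr
    have hrlt : r < 1 := by
      have h2 : 0 < 1 / (4 * N n) := by positivity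
      linarith [hr.2]
    have hcirc : ∀ θ : ℝ, Complex.polarCoord.symm (r, θ) = circleMap 0 r θ := by
      intro θ
      rw [Complex.polarCoord_symm_apply, circleMap, Complex.exp_mul_I]
      simp
    have hcont : Continuous (fun θ : ℝ => r * ‖deriv h (circleMap 0 r θ)‖) := by
      have hcd : ContinuousOn (deriv h) (ball (0 : ℂ) 1) :=
        (h_differentiableOn.deriv isOpen_ball).continuousOn
      refine continuous_const.mul (Continuous.norm ?_)
      refine hcd.comp_continuous (continuous_circleMap 0 r) (fun θ => ?_)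
      simp [abs_of_pos hr0, hrlt]
    have hint : ∫⁻ θ in Ioo (-Real.pi) Real.pi, ENNReal.ofReal r •
          (An n).indicator (fun z => ENNReal.ofReal ‖deriv h z‖) (Complex.polarCoord.symm (r, θ))
        = ENNReal.ofReal (∫ θ in (-Real.pi)..Real.pi, r * ‖deriv h (circleMap 0 r θ)‖) := by
      rw [intervalIntegral.integral_of_le (by linarith [Real.pi_pos]),
        ofReal_integral_eq_lintegral_ofReal]
      · rw [Measure.restrict_congr_set (Ioo_ae_eq_Ioc (a := -Real.pi) (b := Real.pi))]
        refine lintegral_congr (fun θ => ?_)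
        rw [hcirc, indicator_of_mem, smul_eq_mul, ENNReal.ofReal_mul hr0.le]
        show 1 - 1 / (2 * N n) < ‖circleMap 0 r θ‖ ∧ ‖circleMap 0 r θ‖ < 1 - 1 / (4 * N n)
        rw [norm_circleMap_zero, abs_of_pos hr0]
        exact hr
      · exact (hcont.integrableOn_Icc (a := -Real.pi) (b := Real.pi)).mono_set Ioc_subset_Icc_self
      · exact Eventually.of_forall fun θ => by positivity
    rw [hint]
    apply ENNReal.ofReal_le_ofReal
    have hper : Function.Periodic (fun θ : ℝ => r * ‖deriv h (circleMap 0 r θ)‖) (2 * Real.pi) := by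
      intro θ
      simp only
      rw [periodic_circleMap 0 r θ]
    have h3 := hper.intervalIntegral_add_eq (-Real.pi) 0
    rw [show -Real.pi + 2 * Real.pi = Real.pi by ring, zero_add] at h3
    rw [h3]
    have h4 := circle_mean n r hr0 hrlt
    have h5 := radius_pow n r hr.1
    have h6 : ((256 : ℝ) ^ n) = N n := rfl
    rw [h6] at h4
    have h7 : 0 < Real.pi * (N n * a n) := by positivity
    nlinarith
  calc ENNReal.ofReal (Real.pi / 4 * a n)
      = ENNReal.ofReal (Real.pi * (N n * a n)) * ENNReal.ofReal (1 / (4 * N n)) := by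
        rw [← ENNReal.ofReal_mul (by positivity)]
        congr 1; field_simp
    _ = ∫⁻ r in Ioo (1 - 1 / (2 * N n)) (1 - 1 / (4 * N n)),
          ENNReal.ofReal (Real.pi * (N n * a n)) := by
        rw [setLIntegral_const, Real.volume_Ioo]
        congr 2; field_simp; ring
    _ ≤ ∫⁻ r in Ioo (1 - 1 / (2 * N n)) (1 - 1 / (4 * N n)),
          ∫⁻ θ in Ioo (-Real.pi) Real.pi, ENNReal.ofReal r •
          (An n).indicator (fun z => ENNReal.ofReal ‖deriv h z‖)
            (Complex.polarCoord.symm (r, θ)) :=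
        setLIntegral_mono' measurableSet_Ioo key
    _ ≤ _ := lintegral_mono_set hsub

end Pool.Agent.Helper12.DB
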