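import Pool.Agent.Helper12.DB2

/-!
Cauchy estimates for the bounded function and the choice of islands.
-/

set_option autoImplicit false

namespace Pool.Agent.Helper12.DB

open Complex MeasureTheory Metric Set Filter
open scoped Topology ENNReal

/-- `q n = 2 ^ n`, so that `N n = q n ^ 8`. -/
noncomputable def q (n : ℕ) : ℝ := (2 : ℝ) ^ n

lemma q_pos (n : ℕ) : 0 < q n := by unfold q; positivity

lemma N_eq (n : ℕ) : N n = q n ^ 8 := by
  unfold N q
  rw [← pow_mul, mul_comm, pow_mul]
  norm_num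

/-- Island radius at level `n`. -/
noncomputable def rho (n : ℕ) : ℝ := 1 / q n ^ 10

lemma rho_pos (n : ℕ) : 0 < rho n := by unfold rho; have := q_pos n; positivity

lemma q_large (n : ℕ) (hn : 15 ≤ n) : 32768 ≤ q n := by
  unfold q
  calc (32768 : ℝ) = 2 ^ 15 := by norm_num
    _ ≤ 2 ^ n := pow_le_pow_right₀ (by norm_num) hn

lemma deriv_bound (z : ℂ) (r : ℝ) (hr : 0 < r) (hz : ‖z‖ + r < 1) : ‖deriv h z‖ ≤ 2 / r := by
  have hsub : closedBall z r ⊆ ball (0 : ℂ) 1 := by
    intro w hw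
    rw [mem_closedBall, dist_eq_norm] at hw
    rw [mem_ball_zero_iff]
    calc ‖w‖ = ‖z + (w - z)‖ := by congr 1; ring
      _ ≤ ‖z‖ + ‖w - z‖ := norm_add_le _ _
      _ < 1 := by linarith
  refine Complex.norm_deriv_le_of_forall_mem_sphere_norm_le hr ?_ ?_
  · refine (h_differentiableOn.mono ?_).diffContOnCl
    rw [closure_ball _ hr.ne']
    exact hsub
  · intro w hw
    exact h_bound w (by simpa using hsub (sphere_subset_closedBall hw))

lemma deriv2_bound (z : ℂ) (r : ℝ) (hr : 0 < r) (hz : ‖z‖ + 2 * r < 1) :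
    ‖deriv (deriv h) z‖ ≤ 2 / r ^ 2 := by
  have hd : DifferentiableOn ℂ (deriv h) (ball (0 : ℂ) 1) := h_differentiableOn.deriv isOpen_ball
  have hb : ∀ w ∈ closedBall z r, ‖w‖ + r < 1 := by
    intro w hw
    rw [mem_closedBall, dist_eq_norm] at hw
    have : ‖w‖ ≤ ‖z‖ + ‖w - z‖ := by
      calc ‖w‖ = ‖z + (w - z)‖ := by congr 1; ring
        _ ≤ ‖z‖ + ‖w - z‖ := norm_add_le _ _
    linarith
  have hsub : closedBall z r ⊆ ball (0 : ℂ) 1 := fun w hw => by
    rw [mem_ball_zero_iff]; linarith [hb w hw]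
  have := Complex.norm_deriv_le_of_forall_mem_sphere_norm_le (f := deriv h) (C := 2 / r) hr
    (by
      refine (hd.mono ?_).diffContOnCl
      rw [closure_ball _ hr.ne']
      exact hsub)
    (fun w hw => deriv_bound w r hr (hb w (sphere_subset_closedBall hw)))
  calc ‖deriv (deriv h) z‖ ≤ 2 / r / r := this
    _ = 2 / r ^ 2 := by field_simp

lemma small_rho (n : ℕ) (hn : 15 ≤ n) : 5 * rho n ≤ 1 / (16 * N n) := by
  have hq := q_large n hn
  have hq0 := q_pos n
  rw [N_eq, rho, mul_one_div, div_le_div_iff₀ (by positivity) (by positivity)]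
  have h1 : q n ^ 10 = q n ^ 8 * q n ^ 2 := by ring
  have h2 : (80 : ℝ) ≤ q n ^ 2 := by nlinarith
  have h3 : 0 < q n ^ 8 := by positivity
  nlinarith

lemma osc (n : ℕ) (hn : 15 ≤ n) (b : ℂ) (hb : b ∈ An n) (hq : q n ^ 7 ≤ ‖deriv h b‖)
    (z : ℂ) (hz : z ∈ closedBall b (5 * rho n)) :
    ‖z‖ < 1 ∧ ‖deriv h z - deriv h b‖ ≤ ‖deriv h b‖ / 10 := by
  have hN := N_pos n
  have hq0 := q_pos n
  have hql := q_large n hn
  set r : ℝ := 1 / (16 * N n) with hr
  have hr0 : 0 < r := by positivity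
  have h4 : 1 / (4 * N n) = 4 * r := by rw [hr]; field_simp; norm_num
  have hsm := small_rho n hn
  rw [← hr] at hsm
  have hbn : ‖b‖ < 1 - 4 * r := by rw [← h4]; exact hb.2
  have hnorm : ∀ w ∈ closedBall b (5 * rho n), ‖w‖ + 2 * r < 1 := by
    intro w hw
    rw [mem_closedBall, dist_eq_norm] at hw
    have : ‖w‖ ≤ ‖b‖ + ‖w - b‖ := by
      calc ‖w‖ = ‖b + (w - b)‖ := by congr 1; ring
        _ ≤ ‖b‖ + ‖w - b‖ := norm_add_le _ _
    linarith
  refine ⟨by linarith [hnorm z hz], ?_⟩
  have hd : DifferentiableOn ℂ (deriv h) (ball (0 : ℂ) 1) := h_differentiableOn.deriv isOpen_ball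
  have hlip := (convex_closedBall b (5 * rho n)).norm_image_sub_le_of_norm_hasDerivWithin_le
    (f := deriv h) (f' := deriv (deriv h)) (C := 2 / r ^ 2)
    (fun w hw => ((hd.differentiableAt (isOpen_ball.mem_nhds (by
      rw [mem_ball_zero_iff]; linarith [hnorm w hw]))).hasDerivAt).hasDerivWithinAt)
    (fun w hw => deriv2_bound w r hr0 (hnorm w hw))
    (mem_closedBall_self (by have := rho_pos n; positivity)) hz
  refine hlip.trans ?_
  rw [mem_closedBall, dist_eq_norm] at hz
  have h5 : 2 / r ^ 2 = 512 * q n ^ 16 := by rw [hr, N_eq]; field_simp; norm_num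
  rw [h5]
  calc 512 * q n ^ 16 * ‖z - b‖ ≤ 512 * q n ^ 16 * (5 * rho n) := by gcongr
    _ = 2560 * q n ^ 6 := by rw [rho]; field_simp; norm_num
    _ ≤ q n ^ 7 / 10 := by
        have : q n ^ 7 = q n ^ 6 * q n := by ring
        have h6 : 0 < q n ^ 6 := by positivity
        nlinarith
    _ ≤ ‖deriv h b‖ / 10 := by linarith

lemma lin (n : ℕ) (hn : 15 ≤ n) (b : ℂ) (hb : b ∈ An n) (hq : q n ^ 7 ≤ ‖deriv h b‖)
    (z : ℂ) (hz : z ∈ closedBall b (5 * rho n)) :
    ‖h z - h b - deriv h b * (z - b)‖ ≤ ‖deriv h b‖ / 10 * ‖z - b‖ := by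
  have hlip := (convex_closedBall b (5 * rho n)).norm_image_sub_le_of_norm_hasDerivWithin_le
    (f := fun w => h w - deriv h b * w) (f' := fun w => deriv h w - deriv h b * 1)
    (C := ‖deriv h b‖ / 10)
    (fun w hw => ((((h_differentiableOn.differentiableAt (isOpen_ball.mem_nhds (by
      rw [mem_ball_zero_iff]; exact (osc n hn b hb hq w hw).1))).hasDerivAt)).sub
        ((hasDerivAt_id w).const_mul (deriv h b))).hasDerivWithinAt)
    (fun w hw => by simpa using (osc n hn b hb hq w hw).2)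
    (mem_closedBall_self (by have := rho_pos n; positivity)) hz
  calc ‖h z - h b - deriv h b * (z - b)‖
      = ‖(h z - deriv h b * z) - (h b - deriv h b * b)‖ := by congr 1; ring
    _ ≤ _ := hlip

lemma volume_An (n : ℕ) : volume (An n) ≤ ENNReal.ofReal (Real.pi / (2 * N n)) := by
  have hN := N_pos n
  have hN1 := one_le_N n
  have hr1 : 0 ≤ 1 - 1 / (2 * N n) := by
    rw [sub_nonneg, div_le_one (by positivity)]; linarith
  have hr2 : 0 ≤ 1 - 1 / (4 * N n) := by
    rw [sub_nonneg, div_le_one (by positivity)]; linarith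
  have hle : 1 / (4 * N n) ≤ 1 / (2 * N n) := by
    apply one_div_le_one_div_of_le (by positivity); linarith
  have hsub : An n ⊆ ball (0 : ℂ) (1 - 1 / (4 * N n)) \ ball (0 : ℂ) (1 - 1 / (2 * N n)) := by
    intro z hz
    refine ⟨by simpa using hz.2, ?_⟩
    rw [mem_ball_zero_iff, not_lt]
    exact hz.1.le
  refine (measure_mono hsub).trans ?_
  rw [measure_sdiff (ball_subset_ball (by linarith)) measurableSet_ball.nullMeasurableSet
    (measure_ball_lt_top).ne, Complex.volume_ball, Complex.volume_ball]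
  have hpi : ((NNReal.pi : NNReal) : ℝ≥0∞) = ENNReal.ofReal Real.pi := by
    rw [← NNReal.coe_real_pi, ENNReal.ofReal_coe_nnreal]
  rw [hpi, ← ENNReal.ofReal_pow hr2, ← ENNReal.ofReal_pow hr1,
    ← ENNReal.ofReal_mul (by positivity), ← ENNReal.ofReal_mul (by positivity),
    ← ENNReal.ofReal_sub _ (by positivity)]
  apply ENNReal.ofReal_le_ofReal
  have h1 : (1 - 1 / (4 * N n)) ^ 2 * Real.pi - (1 - 1 / (2 * N n)) ^ 2 * Real.pi
      = Real.pi * ((1 / (4 * N n)) * (2 - 3 * (1 / (4 * N n)))) := by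
    field_simp; ring
  have h2 : Real.pi / (2 * N n) = Real.pi * ((1 / (4 * N n)) * 2) := by field_simp; ring
  rw [h1, h2]
  have h3 : 0 < 1 / (4 * N n) := by positivity
  gcongr
  linarith

/-- The set of points of the annulus with large derivative. -/
def En (n : ℕ) : Set ℂ := An n ∩ {z | q n ^ 7 ≤ ‖deriv h z‖}

lemma measurableSet_En' (n : ℕ) : MeasurableSet {z : ℂ | q n ^ 7 ≤ ‖deriv h z‖} :=
  measurableSet_le measurable_const measurable_deriv_h.norm

lemma four_le (n : ℕ) (hn : 15 ≤ n) : 4 * ((n : ℝ) + 2) ≤ q n := by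
  unfold q
  induction n, hn using Nat.le_induction with
  | base => norm_num
  | succ k hk ih =>
      have h1 : (2 : ℝ) ^ (k + 1) = 2 * 2 ^ k := by ring
      rw [h1]; push_cast
      have h2 : (15 : ℝ) ≤ k := by exact_mod_cast hk
      linarith

lemma area_En (n : ℕ) (hn : 15 ≤ n) :
    ENNReal.ofReal (Real.pi / 8 * a n) ≤ ∫⁻ z in En n, ENNReal.ofReal ‖deriv h z‖ := by
  have hN := N_pos n
  have hq := q_pos n
  have ha := a_pos n
  have h1 := area_lower n
  rw [← lintegral_inter_add_sdiff (μ := volume) _ (An n) (measurableSet_En' n)] at h1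
  have h2 : ∫⁻ z in An n \ {z : ℂ | q n ^ 7 ≤ ‖deriv h z‖}, ENNReal.ofReal ‖deriv h z‖
      ≤ ENNReal.ofReal (Real.pi / 8 * a n) := by
    calc ∫⁻ z in An n \ {z : ℂ | q n ^ 7 ≤ ‖deriv h z‖}, ENNReal.ofReal ‖deriv h z‖
        ≤ ∫⁻ z in An n \ {z : ℂ | q n ^ 7 ≤ ‖deriv h z‖}, ENNReal.ofReal (q n ^ 7) := by
          refine setLIntegral_mono' ((measurableSet_An n).diff (measurableSet_En' n)) ?_
          intro z hz
          apply ENNReal.ofReal_le_ofReal
          have := hz.2
          simp only [mem_ofPred_eq, not_le] at this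
          exact this.le
      _ = ENNReal.ofReal (q n ^ 7) * volume (An n \ {z : ℂ | q n ^ 7 ≤ ‖deriv h z‖}) := by
          rw [setLIntegral_const]
      _ ≤ ENNReal.ofReal (q n ^ 7) * ENNReal.ofReal (Real.pi / (2 * N n)) := by
          gcongr
          exact (measure_mono sdiff_subset).trans (volume_An n)
      _ = ENNReal.ofReal (Real.pi / (2 * q n)) := by
          rw [← ENNReal.ofReal_mul (by positivity), N_eq]
          congr 1; field_simp
      _ ≤ ENNReal.ofReal (Real.pi / 8 * a n) := by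
          apply ENNReal.ofReal_le_ofReal
          have h3 := four_le n hn
          unfold a
          rw [div_mul_div_comm, mul_one]
          apply div_le_div_of_nonneg_left Real.pi_pos.le (by positivity)
          linarith
  have h3 : ENNReal.ofReal (Real.pi / 4 * a n)
      = ENNReal.ofReal (Real.pi / 8 * a n) + ENNReal.ofReal (Real.pi / 8 * a n) := by
    rw [← ENNReal.ofReal_add (by positivity) (by positivity)]; congr 1; ring
  rw [h3] at h1
  have h4 : ENNReal.ofReal (Real.pi / 8 * a n) + ENNReal.ofReal (Real.pi / 8 * a n)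
      ≤ (∫⁻ z in En n, ENNReal.ofReal ‖deriv h z‖) + ENNReal.ofReal (Real.pi / 8 * a n) :=
    h1.trans (add_le_add le_rfl h2)
  exact (ENNReal.add_le_add_iff_right ENNReal.ofReal_ne_top).mp h4

/-- Choice of islands at level `n`. -/
lemma exists_islands (n : ℕ) (hn : 15 ≤ n) : ∃ s : Finset ℂ,
    (∀ b ∈ s, b ∈ An n ∧ q n ^ 7 ≤ ‖deriv h b‖) ∧
    (s : Set ℂ).PairwiseDisjoint (fun b => closedBall b (rho n)) ∧
    a n / 440 ≤ ∑ b ∈ s, ‖deriv h b‖ * rho n ^ 2 := by
  have hρ := rho_pos n
  have ha := a_pos n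
  obtain ⟨u, hut, hdisj, hcov⟩ := Vitali.exists_disjoint_subfamily_covering_enlargement_closedBall
    (En n) (fun z : ℂ => z) (fun _ => rho n) (rho n) (fun _ _ => le_rfl) 5 (by norm_num)
  have hcount : u.Countable := hdisj.countable_of_nonempty_interior (fun b _ => by
    rw [interior_closedBall _ hρ.ne']; exact nonempty_ball.mpr hρ)
  have : Countable u := hcount.to_subtype
  have hsub : En n ⊆ ⋃ b : u, closedBall (b : ℂ) (5 * rho n) := by
    intro z hz
    obtain ⟨b, hbu, hb⟩ := hcov z hz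
    exact mem_iUnion.mpr ⟨⟨b, hbu⟩, hb (mem_closedBall_self hρ.le)⟩
  have h1 : ENNReal.ofReal (Real.pi / 8 * a n)
      ≤ ∑' b : u, ENNReal.ofReal (55 / 2 * Real.pi * (‖deriv h b‖ * rho n ^ 2)) := by
    calc ENNReal.ofReal (Real.pi / 8 * a n) ≤ ∫⁻ z in En n, ENNReal.ofReal ‖deriv h z‖ :=
          area_En n hn
      _ ≤ ∫⁻ z in ⋃ b : u, closedBall (b : ℂ) (5 * rho n), ENNReal.ofReal ‖deriv h z‖ :=
          lintegral_mono_set hsub
      _ ≤ ∑' b : u, ∫⁻ z in closedBall (b : ℂ) (5 * rho n), ENNReal.ofReal ‖deriv h z‖ :=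
          lintegral_iUnion_le _ _
      _ ≤ _ := by
          refine ENNReal.tsum_le_tsum (fun b => ?_)
          have hb := hut b.2
          calc ∫⁻ z in closedBall (b : ℂ) (5 * rho n), ENNReal.ofReal ‖deriv h z‖
              ≤ ∫⁻ z in closedBall (b : ℂ) (5 * rho n), ENNReal.ofReal (11 / 10 * ‖deriv h b‖) := by
                refine setLIntegral_mono' measurableSet_closedBall (fun z hz => ?_)
                apply ENNReal.ofReal_le_ofReal
                have h2 := (osc n hn b hb.1 hb.2 z hz).2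
                have h3 : ‖deriv h z‖ ≤ ‖deriv h z - deriv h b‖ + ‖deriv h b‖ := by
                  calc ‖deriv h z‖ = ‖(deriv h z - deriv h b) + deriv h b‖ := by congr 1; ring
                    _ ≤ _ := norm_add_le _ _
                linarith
            _ = ENNReal.ofReal (11 / 10 * ‖deriv h b‖) * volume (closedBall (b : ℂ) (5 * rho n)) := by
                rw [setLIntegral_const]
            _ = ENNReal.ofReal (55 / 2 * Real.pi * (‖deriv h b‖ * rho n ^ 2)) := by
                have hpi : ((NNReal.pi : NNReal) : ℝ≥0∞) = ENNReal.ofReal Real.pi := by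
                  rw [← NNReal.coe_real_pi, ENNReal.ofReal_coe_nnreal]
                rw [Complex.volume_closedBall, hpi, ← ENNReal.ofReal_pow (by positivity),
                  ← ENNReal.ofReal_mul (by positivity), ← ENNReal.ofReal_mul (by positivity)]
                congr 1; ring
            _ ≤ _ := le_rfl
  have h2 : ENNReal.ofReal (Real.pi / 16 * a n)
      < ∑' b : u, ENNReal.ofReal (55 / 2 * Real.pi * (‖deriv h b‖ * rho n ^ 2)) := by
    refine lt_of_lt_of_le ?_ h1
    rw [ENNReal.ofReal_lt_ofReal_iff (by positivity)]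
    have := Real.pi_pos
    nlinarith [mul_pos Real.pi_pos ha]
  rw [ENNReal.tsum_eq_iSup_sum, lt_iSup_iff] at h2
  obtain ⟨s, hs⟩ := h2
  refine ⟨s.map (Function.Embedding.subtype _), ?_, ?_, ?_⟩
  · intro b hb
    rw [Finset.mem_map] at hb
    obtain ⟨c, _, rfl⟩ := hb
    exact hut c.2
  · intro x hx y hy hxy
    simp only [Finset.coe_map, Function.Embedding.subtype_apply, mem_image, Finset.mem_coe] at hx hy
    obtain ⟨x', _, rfl⟩ := hx
    obtain ⟨y', _, rfl⟩ := hy
    exact hdisj x'.2 y'.2 hxy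
  · rw [Finset.sum_map]
    rw [← ENNReal.ofReal_sum_of_nonneg (fun b _ => by positivity)] at hs
    have h3 := (ENNReal.ofReal_lt_ofReal_iff_of_nonneg (by positivity)).mp hs
    rw [← Finset.mul_sum] at h3
    simp only [Function.Embedding.subtype_apply]
    have hpi := Real.pi_pos
    have h4 : a n / 440 * (55 / 2 * Real.pi) = Real.pi / 16 * a n := by ring
    rw [← h4] at h3
    have h5 : 0 < 55 / 2 * Real.pi := by positivity
    nlinarith

end Pool.Agent.Helper12.DB
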