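import Mathlib

/-!
Definitions for the weak `∂̄`-equation on open sets of `ℂⁿ` with bounded data.
-/

set_option autoImplicit false

namespace Pool.Agent.Helper12.DB

open scoped ContDiff
open MeasureTheory

/-- The Wirtinger derivative `∂φ/∂z̄_j` of a function on `ℂⁿ`. -/
noncomputable def dbar {n : ℕ} (j : Fin n) (φ : EuclideanSpace ℂ (Fin n) → ℂ)
    (x : EuclideanSpace ℂ (Fin n)) : ℂ :=
  (1 / 2) * (fderiv ℝ φ x (EuclideanSpace.single j 1)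
    + Complex.I * fderiv ℝ φ x (EuclideanSpace.single j Complex.I))

/-- Test functions: smooth functions on `ℂⁿ` with compact support contained in `Ω`. -/
def IsTest {n : ℕ} (Ω : Set (EuclideanSpace ℂ (Fin n))) (φ : EuclideanSpace ℂ (Fin n) → ℂ) : Prop :=
  ContDiff ℝ ∞ φ ∧ HasCompactSupport φ ∧ tsupport φ ⊆ Ω

/-- `∂u/∂z̄_j = g` on `Ω` in the sense of distributions. -/
def WeakDbar {n : ℕ} (Ω : Set (EuclideanSpace ℂ (Fin n))) (j : Fin n)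
    (u g : EuclideanSpace ℂ (Fin n) → ℂ) : Prop :=
  ∀ φ : EuclideanSpace ℂ (Fin n) → ℂ, IsTest Ω φ →
    ∫ x in Ω, u x * dbar j φ x = - ∫ x in Ω, g x * φ x

/-- The form `f = ∑ f_j dz̄_j` is `∂̄`-closed on `Ω` in the sense of distributions:
`∂f_j/∂z̄_k = ∂f_k/∂z̄_j` for all `j, k`. -/
def WeakClosed {n : ℕ} (Ω : Set (EuclideanSpace ℂ (Fin n)))
    (f : Fin n → EuclideanSpace ℂ (Fin n) → ℂ) : Prop :=
  ∀ j k : Fin n, ∀ φ : EuclideanSpace ℂ (Fin n) → ℂ, IsTest Ω φ →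
    ∫ x in Ω, f j x * dbar k φ x = ∫ x in Ω, f k x * dbar j φ x

/-- `f` is a `(0,1)`-form with measurable coefficients and `‖f‖_∞ ≤ M` on `Ω`. -/
def FormBound {n : ℕ} (Ω : Set (EuclideanSpace ℂ (Fin n)))
    (f : Fin n → EuclideanSpace ℂ (Fin n) → ℂ) (M : ℝ) : Prop :=
  (∀ j, AEStronglyMeasurable (f j) (volume.restrict Ω)) ∧
    ∀ᵐ x ∂(volume.restrict Ω), Real.sqrt (∑ j, ‖f j x‖ ^ 2) ≤ M

/-- `u` is a measurable function with `‖u‖_∞ ≤ M` on `Ω`. -/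
def FunBound {n : ℕ} (Ω : Set (EuclideanSpace ℂ (Fin n)))
    (u : EuclideanSpace ℂ (Fin n) → ℂ) (M : ℝ) : Prop :=
  AEStronglyMeasurable u (volume.restrict Ω) ∧ ∀ᵐ x ∂(volume.restrict Ω), ‖u x‖ ≤ M

/-- `∂̄` satisfies uniform estimates on `Ω`. -/
def UniformEstimates {n : ℕ} (Ω : Set (EuclideanSpace ℂ (Fin n))) : Prop :=
  ∃ C : ℝ, ∀ (f : Fin n → EuclideanSpace ℂ (Fin n) → ℂ) (M : ℝ), FormBound Ω f M →
    WeakClosed Ω f → ∃ u : EuclideanSpace ℂ (Fin n) → ℂ,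
      FunBound Ω u (C * M) ∧ ∀ j, WeakDbar Ω j u (f j)

/-- `Ω` is biholomorphic to the unit ball of `ℂⁿ`. -/
def BiholomorphicToBall {n : ℕ} (Ω : Set (EuclideanSpace ℂ (Fin n))) : Prop :=
  ∃ F G : EuclideanSpace ℂ (Fin n) → EuclideanSpace ℂ (Fin n),
    DifferentiableOn ℂ F (Metric.ball 0 1) ∧ DifferentiableOn ℂ G Ω ∧
    Set.MapsTo F (Metric.ball 0 1) Ω ∧ Set.MapsTo G Ω (Metric.ball 0 1) ∧
    Set.LeftInvOn G F (Metric.ball 0 1) ∧ Set.RightInvOn G F Ω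

end Pool.Agent.Helper12.DB
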