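import Pool.Agent.Helper12.DB3
import Pool.Agent.Helper12.DBDefs

/-!
The domain and the closed bounded form.
-/

set_option autoImplicit false

namespace Pool.Agent.Helper12.DB

open Complex MeasureTheory Metric Set Filter
open scoped Topology ENNReal ContDiff

/-- A smooth bump: `1` on the ball of radius `r`, `0` outside the ball of radius `3r/2`. -/
noncomputable def bmp (c : ℂ) (r : ℝ) (w : ℂ) : ℝ :=
  Real.smoothTransition (2 - ‖w - c‖ ^ 2 / r ^ 2)

lemma bmp_nonneg (c : ℂ) (r : ℝ) (w : ℂ) : 0 ≤ bmp c r w := Real.smoothTransition.nonneg _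

lemma bmp_le_one (c : ℂ) (r : ℝ) (w : ℂ) : bmp c r w ≤ 1 := Real.smoothTransition.le_one _

lemma bmp_eq_one (c : ℂ) (r : ℝ) (w : ℂ) (hr : 0 < r) (h : ‖w - c‖ ≤ r) : bmp c r w = 1 := by
  apply Real.smoothTransition.one_of_one_le
  have : ‖w - c‖ ^ 2 / r ^ 2 ≤ 1 := by
    rw [div_le_one (by positivity)]
    gcongr
  linarith

lemma bmp_eq_zero (c : ℂ) (r : ℝ) (w : ℂ) (hr : 0 < r) (h : 3 / 2 * r ≤ ‖w - c‖) :
    bmp c r w = 0 := by
  apply Real.smoothTransition.zero_of_nonpos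
  have : 2 ≤ ‖w - c‖ ^ 2 / r ^ 2 := by
    rw [le_div_iff₀ (by positivity)]
    nlinarith [norm_nonneg (w - c)]
  linarith

lemma contDiff_bmp (c : ℂ) (r : ℝ) : ContDiff ℝ ∞ (bmp c r) := by
  unfold bmp
  refine Real.smoothTransition.contDiff.comp ?_
  exact contDiff_const.sub (((contDiff_id.sub contDiff_const).norm_sq ℝ).div_const _)

/-- The islands at level `n`. -/
noncomputable def isl (n : ℕ) : Finset ℂ :=
  if hn : 15 ≤ n then (exists_islands n hn).choose else ∅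

lemma isl_level (n : ℕ) (b : ℂ) (hb : b ∈ isl n) : 15 ≤ n := by
  by_contra hn
  simp [isl, hn] at hb

lemma isl_mem (n : ℕ) (b : ℂ) (hb : b ∈ isl n) : b ∈ An n ∧ q n ^ 7 ≤ ‖deriv h b‖ := by
  have hn := isl_level n b hb
  rw [isl, dif_pos hn] at hb
  exact (exists_islands n hn).choose_spec.1 b hb

lemma isl_disj (n : ℕ) : (isl n : Set ℂ).PairwiseDisjoint (fun b => closedBall b (rho n)) := by
  by_cases hn : 15 ≤ n
  · rw [isl, dif_pos hn]
    exact (exists_islands n hn).choose_spec.2.1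
  · simp [isl, hn]

lemma isl_sum (n : ℕ) (hn : 15 ≤ n) : a n / 440 ≤ ∑ b ∈ isl n, ‖deriv h b‖ * rho n ^ 2 := by
  rw [isl, dif_pos hn]
  exact (exists_islands n hn).choose_spec.2.2

lemma isl_deriv_pos (n : ℕ) (b : ℂ) (hb : b ∈ isl n) : 0 < ‖deriv h b‖ :=
  lt_of_lt_of_le (by have := q_pos n; positivity) (isl_mem n b hb).2

/-- The phase. -/
noncomputable def ph (b : ℂ) : ℂ := deriv h b / ‖deriv h b‖

/-- The contribution of one island to the coefficient. -/
noncomputable def T (n : ℕ) (b : ℂ) (z w : ℂ) : ℂ :=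
  ph b * (bmp b (2 / 3 * rho n) z * bmp (h b) (‖deriv h b‖ * rho n / 3) w : ℝ)

/-- Level `n` of the coefficient. -/
noncomputable def F (n : ℕ) (z w : ℂ) : ℂ := ∑ b ∈ isl n, T n b z w

/-- The coefficient of `dz̄_1`, as a function of the first two coordinates. -/
noncomputable def g (z w : ℂ) : ℂ := ∑' n, F n z w

lemma rho_le (n : ℕ) (hn : 15 ≤ n) : rho n ≤ 1 / (80 * N n) := by
  have h1 := small_rho n hn
  have hN := N_pos n
  have h2 : 1 / (80 * N n) = 1 / (16 * N n) / 5 := by field_simp; norm_num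
  rw [h2]
  linarith

lemma near_island (n : ℕ) (b : ℂ) (hb : b ∈ isl n) (z : ℂ) (hz : ‖z - b‖ ≤ rho n) :
    1 - 1 / N n < ‖z‖ ∧ ‖z‖ < 1 - 1 / (8 * N n) := by
  have hn := isl_level n b hb
  have hr := rho_le n hn
  have hN := N_pos n
  have hb' := (isl_mem n b hb).1
  obtain ⟨h1, h2⟩ := hb'
  have e1 : 1 / (80 * N n) = 1 / N n * (1 / 80) := by field_simp
  have e2 : 1 / (2 * N n) = 1 / N n * (1 / 2) := by field_simp
  have e3 : 1 / (4 * N n) = 1 / N n * (1 / 4) := by field_simp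
  have e4 : 1 / (8 * N n) = 1 / N n * (1 / 8) := by field_simp
  rw [e1] at hr
  rw [e2] at h1
  rw [e3] at h2
  rw [e4]
  have hp : 0 < 1 / N n := by positivity
  have t1 : ‖z‖ ≤ ‖b‖ + ‖z - b‖ := by
    calc ‖z‖ = ‖b + (z - b)‖ := by congr 1; ring
      _ ≤ ‖b‖ + ‖z - b‖ := norm_add_le _ _
  have t2 : ‖b‖ ≤ ‖z‖ + ‖z - b‖ := by
    calc ‖b‖ = ‖z - (z - b)‖ := by congr 1; ring
      _ ≤ ‖z‖ + ‖z - b‖ := norm_sub_le _ _
  constructor <;> linarith

lemma T_ne_zero (n : ℕ) (b : ℂ) (z w : ℂ) (hT : T n b z w ≠ 0) : ‖z - b‖ < rho n := by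
  by_contra hcon
  push Not at hcon
  apply hT
  have hρ := rho_pos n
  rw [T, bmp_eq_zero b (2 / 3 * rho n) z (by positivity) (by linarith)]
  simp

lemma norm_T_le (n : ℕ) (b : ℂ) (z w : ℂ) : ‖T n b z w‖ ≤ 1 := by
  rw [T, norm_mul, ph, norm_div, Complex.norm_real, norm_norm, Complex.norm_real, Real.norm_of_nonneg
    (mul_nonneg (bmp_nonneg _ _ _) (bmp_nonneg _ _ _))]
  have h1 : ‖deriv h b‖ / ‖deriv h b‖ ≤ 1 := div_self_le_one _
  have h2 : bmp b (2 / 3 * rho n) z * bmp (h b) (‖deriv h b‖ * rho n / 3) w ≤ 1 :=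
    mul_le_one₀ (bmp_le_one _ _ _) (bmp_nonneg _ _ _) (bmp_le_one _ _ _)
  exact mul_le_one₀ h1 (mul_nonneg (bmp_nonneg _ _ _) (bmp_nonneg _ _ _)) h2

lemma F_ne_zero (n : ℕ) (z w : ℂ) (hF : F n z w ≠ 0) :
    1 - 1 / N n < ‖z‖ ∧ ‖z‖ < 1 - 1 / (8 * N n) := by
  obtain ⟨b, hb, hT⟩ := Finset.exists_ne_zero_of_sum_ne_zero hF
  exact near_island n b hb z (T_ne_zero n b z w hT).le

lemma norm_F_le (n : ℕ) (z w : ℂ) : ‖F n z w‖ ≤ 1 := by
  by_cases hF : ∃ b ∈ isl n, T n b z w ≠ 0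
  · obtain ⟨b, hb, hT⟩ := hF
    have : F n z w = T n b z w := by
      unfold F
      refine Finset.sum_eq_single b (fun c hc hcb => ?_) (fun h => absurd hb h)
      by_contra hT'
      have h1 := (T_ne_zero n b z w hT).le
      have h2 := (T_ne_zero n c z w hT').le
      have h3 := isl_disj n (Finset.mem_coe.mpr hc) (Finset.mem_coe.mpr hb) hcb
      exact Set.disjoint_left.mp h3 (by simpa [dist_eq_norm] using h2)
        (by simpa [dist_eq_norm] using h1)
    rw [this]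
    exact norm_T_le n b z w
  · push Not at hF
    have : F n z w = 0 := Finset.sum_eq_zero hF
    rw [this]; simp

lemma N_mono {n k : ℕ} (hnk : n ≤ k) : N n ≤ N k := by
  unfold N
  exact pow_le_pow_right₀ (by norm_num) hnk

lemma F_eq_zero_of_le (k n : ℕ) (hkn : k ≤ n) (z w : ℂ) (hz : ‖z‖ ≤ 1 - 1 / N k) :
    F n z w = 0 := by
  by_contra hF
  have h1 := (F_ne_zero n z w hF).1
  have hk := N_pos k
  have h2 : 1 / N n ≤ 1 / N k := one_div_le_one_div_of_le hk (N_mono hkn)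
  linarith

lemma g_eq_sum (k : ℕ) (z w : ℂ) (hz : ‖z‖ ≤ 1 - 1 / N k) :
    g z w = ∑ n ∈ Finset.range k, F n z w := by
  unfold g
  refine tsum_eq_sum (fun n hn => ?_)
  rw [Finset.mem_range, not_lt] at hn
  exact F_eq_zero_of_le k n hn z w hz

lemma exists_level (z : ℂ) (hz : ‖z‖ < 1) : ∃ k, ‖z‖ < 1 - 1 / N k := by
  obtain ⟨k, hk⟩ := exists_pow_lt_of_lt_one (sub_pos.mpr hz) (by norm_num : (1 / 256 : ℝ) < 1)
  refine ⟨k, ?_⟩
  have : 1 / N k = (1 / 256 : ℝ) ^ k := by unfold N; rw [one_div_pow]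
  rw [this]
  linarith

lemma norm_g_le (z w : ℂ) : ‖g z w‖ ≤ 1 := by
  by_cases hF : ∃ n, F n z w ≠ 0
  · obtain ⟨n, hn⟩ := hF
    have h1 := F_ne_zero n z w hn
    have : g z w = F n z w := by
      unfold g
      refine tsum_eq_single n (fun k hk => ?_)
      by_contra hF'
      have h2 := F_ne_zero k z w hF'
      have hN := N_pos n
      have hK := N_pos k
      rcases lt_or_gt_of_ne hk with hlt | hlt
      · have h3 : N (k + 1) ≤ N n := N_mono hlt
        have h4 : N (k + 1) = 256 * N k := by unfold N; ring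
        have h5 : 1 / N n ≤ 1 / (8 * N k) := one_div_le_one_div_of_le (by positivity) (by linarith)
        linarith [h1.1, h2.2]
      · have h3 : N (n + 1) ≤ N k := N_mono hlt
        have h4 : N (n + 1) = 256 * N n := by unfold N; ring
        have h5 : 1 / N k ≤ 1 / (8 * N n) := one_div_le_one_div_of_le (by positivity) (by linarith)
        linarith [h2.1, h1.2]
    rw [this]
    exact norm_F_le n z w
  · push Not at hF
    have : g z w = 0 := by unfold g; simp [hF]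
    rw [this]; simp

end Pool.Agent.Helper12.DB
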