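import Pool.Agent.Helper12.DB4

/-!
The coefficient is smooth and `∂̄`-closed on the domain.
-/

set_option autoImplicit false

namespace Pool.Agent.Helper12.DB

open Complex MeasureTheory Metric Set Filter
open scoped Topology ENNReal ContDiff

/-- The shape of `ℂ^(m+2)`. -/
abbrev E (m : ℕ) := EuclideanSpace ℂ (Fin (m + 2))

/-- The sheared ball. -/
def Om (m : ℕ) : Set (E m) := {x | ‖x - EuclideanSpace.single 1 (h (x 0))‖ < 1}

lemma single_eq_smul (m : ℕ) (i : Fin (m + 2)) (c : ℂ) :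
    (EuclideanSpace.single i c : E m) = c • EuclideanSpace.single i 1 := by
  ext j
  by_cases hj : j = i
  · subst hj; simp
  · simp [hj]

lemma norm_sq_two (m : ℕ) (y : E m) : ‖y 0‖ ^ 2 + ‖y 1‖ ^ 2 ≤ ‖y‖ ^ 2 := by
  rw [EuclideanSpace.norm_sq_eq, Fin.sum_univ_succ, Fin.sum_univ_succ]
  have h1 : (Fin.succ (0 : Fin (m + 1)) : Fin (m + 2)) = 1 := rfl
  rw [h1]
  have h2 : 0 ≤ ∑ i : Fin m, ‖y (Fin.succ (Fin.succ i))‖ ^ 2 := by positivity
  linarith

lemma shear_zero (m : ℕ) (x : E m) (c : ℂ) : (x - EuclideanSpace.single 1 c : E m) 0 = x 0 := by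
  simp

lemma shear_one (m : ℕ) (x : E m) (c : ℂ) : (x - EuclideanSpace.single 1 c : E m) 1 = x 1 - c := by
  simp

lemma fiber (m : ℕ) (x : E m) (hx : x ∈ Om m) : ‖x 0‖ ^ 2 + ‖x 1 - h (x 0)‖ ^ 2 < 1 := by
  have h1 := norm_sq_two m (x - EuclideanSpace.single 1 (h (x 0)))
  rw [shear_zero, shear_one] at h1
  have h2 : ‖x - EuclideanSpace.single 1 (h (x 0))‖ < 1 := hx
  have h3 : ‖x - EuclideanSpace.single 1 (h (x 0))‖ ^ 2 < 1 := by
    rw [sq_lt_one_iff_abs_lt_one, abs_norm]; exact h2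
  linarith

lemma fiber_disc (m : ℕ) (x : E m) (hx : x ∈ Om m) : ‖x 0‖ < 1 := by
  have := fiber m x hx
  nlinarith [norm_nonneg (x 0), sq_nonneg ‖x 1 - h (x 0)‖]

/-- On the domain, the bump in the second variable vanishes away from the centre of the island. -/
lemma vanish (n : ℕ) (b : ℂ) (hb : b ∈ isl n) (z w : ℂ) (hzw : ‖z‖ ^ 2 + ‖w - h z‖ ^ 2 < 1)
    (hz : 65 / 100 * rho n ≤ ‖z - b‖) : T n b z w = 0 := by
  have hn := isl_level n b hb
  have hρ := rho_pos n
  have hq := q_pos n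
  have hql := q_large n hn
  by_cases hz2 : rho n ≤ ‖z - b‖
  · rw [T, bmp_eq_zero b (2 / 3 * rho n) z (by positivity) (by linarith)]
    simp
  push Not at hz2
  obtain ⟨hbA, hbq⟩ := isl_mem n b hb
  have hH := isl_deriv_pos n b hb
  set H := ‖deriv h b‖ with hHdef
  have hmem : z ∈ closedBall b (5 * rho n) := by
    rw [mem_closedBall, dist_eq_norm]; linarith
  have hlin := lin n hn b hbA hbq z hmem
  rw [← hHdef] at hlin
  have h1 : 9 / 10 * H * ‖z - b‖ ≤ ‖h z - h b‖ := by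
    have h2 : ‖deriv h b * (z - b)‖ ≤ ‖h z - h b‖ + ‖h z - h b - deriv h b * (z - b)‖ := by
      calc ‖deriv h b * (z - b)‖
          = ‖(h z - h b) - (h z - h b - deriv h b * (z - b))‖ := by congr 1; ring
        _ ≤ _ := norm_sub_le _ _
    rw [norm_mul, ← hHdef] at h2
    linarith
  have h3 : ‖w - h z‖ ≤ 3 / 2 / q n ^ 4 := by
    have hN := N_pos n
    have h4 := (near_island n b hb z hz2.le).1
    have h5 : ‖z‖ < 1 := by nlinarith [norm_nonneg z, sq_nonneg ‖w - h z‖]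
    have h6 : ‖w - h z‖ ^ 2 ≤ 2 * (1 - ‖z‖) := by nlinarith [norm_nonneg z]
    have h7 : ‖w - h z‖ ^ 2 ≤ 2 / N n := by
      have : 2 / N n = 2 * (1 / N n) := by ring
      rw [this]; linarith
    rw [N_eq] at h7
    have h8 : (2 : ℝ) / q n ^ 8 ≤ (3 / 2 / q n ^ 4) ^ 2 := by
      rw [div_pow, ← pow_mul]
      apply div_le_div_of_nonneg_right (by norm_num) (by positivity)
    exact abs_le_of_sq_le_sq' (h7.trans h8) (by positivity) |>.2
  have h9 : H * rho n / 2 ≤ ‖w - h b‖ := by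
    have h10 : ‖h z - h b‖ ≤ ‖w - h b‖ + ‖w - h z‖ := by
      calc ‖h z - h b‖ = ‖(w - h b) - (w - h z)‖ := by congr 1; ring
        _ ≤ _ := norm_sub_le _ _
    have h11 : 9 / 10 * H * (65 / 100 * rho n) ≤ 9 / 10 * H * ‖z - b‖ := by gcongr
    have h12 : 3 / 2 / q n ^ 4 ≤ 8 / 100 * (H * rho n) := by
      have h13 : q n ^ 7 * rho n ≤ H * rho n := by gcongr
      have h14 : q n ^ 7 * rho n = 1 / q n ^ 3 := by rw [rho]; field_simp
      rw [h14] at h13
      have h15 : 3 / 2 / q n ^ 4 ≤ 8 / 100 * (1 / q n ^ 3) := by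
        rw [mul_one_div, div_le_div_iff₀ (by positivity) (by positivity)]
        have : q n ^ 4 = q n ^ 3 * q n := by ring
        have h16 : 0 < q n ^ 3 := by positivity
        nlinarith
      linarith
    nlinarith
  have h17 : bmp (h b) (H * rho n / 3) w = 0 :=
    bmp_eq_zero _ _ _ (by positivity) (by linarith)
  rw [T, ← hHdef, h17]
  simp

lemma T_eq_of_near (n : ℕ) (b : ℂ) (z w : ℂ) (hz : ‖z - b‖ ≤ 2 / 3 * rho n) :
    T n b z w = ph b * (bmp (h b) (‖deriv h b‖ * rho n / 3) w : ℝ) := by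
  have hρ := rho_pos n
  rw [T, bmp_eq_one b (2 / 3 * rho n) z (by positivity) hz, one_mul]

/-! ### Derivatives -/

section deriv

variable {n : ℕ}

lemma dbar_congr {j : Fin n} {φ ψ : EuclideanSpace ℂ (Fin n) → ℂ} {x : EuclideanSpace ℂ (Fin n)}
    (hφ : φ =ᶠ[𝓝 x] ψ) : dbar j φ x = dbar j ψ x := by
  unfold dbar; rw [hφ.fderiv_eq]

lemma dbar_zero (j : Fin n) (x : EuclideanSpace ℂ (Fin n)) :
    dbar j (fun _ => (0 : ℂ)) x = 0 := by
  unfold dbar; simp

lemma dbar_mul {j : Fin n} {φ ψ : EuclideanSpace ℂ (Fin n) → ℂ} {x : EuclideanSpace ℂ (Fin n)}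
    (hφ : DifferentiableAt ℝ φ x) (hψ : DifferentiableAt ℝ ψ x) :
    dbar j (fun y => φ y * ψ y) x = φ x * dbar j ψ x + dbar j φ x * ψ x := by
  unfold dbar
  rw [fderiv_fun_mul hφ hψ]
  simp only [add_apply, smul_apply, smul_eq_mul]
  ring

lemma dbar_sum {ι : Type*} (s : Finset ι) {j : Fin n} {φ : ι → EuclideanSpace ℂ (Fin n) → ℂ}
    {x : EuclideanSpace ℂ (Fin n)} (hφ : ∀ i ∈ s, DifferentiableAt ℝ (φ i) x) :
    dbar j (fun y => ∑ i ∈ s, φ i y) x = ∑ i ∈ s, dbar j (φ i) x := by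
  unfold dbar
  rw [fderiv_fun_sum hφ]
  simp only [sum_apply]
  rw [← Finset.mul_sum, Finset.sum_add_distrib, ← Finset.mul_sum]

/-- The coordinate projection as a real continuous linear map. -/
noncomputable def prj (i : Fin n) : EuclideanSpace ℂ (Fin n) →L[ℝ] ℂ :=
  (EuclideanSpace.proj (𝕜 := ℂ) i : EuclideanSpace ℂ (Fin n) →L[ℂ] ℂ).restrictScalars ℝ

lemma prj_apply (i : Fin n) (x : EuclideanSpace ℂ (Fin n)) : prj i x = x i := rfl

lemma dbar_proj {i k : Fin n} (hik : k ≠ i) (A : ℂ → ℂ) (x : EuclideanSpace ℂ (Fin n))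
    (hA : DifferentiableAt ℝ A (x i)) : dbar k (fun y => A (y i)) x = 0 := by
  have h1 : HasFDerivAt (fun y : EuclideanSpace ℂ (Fin n) => A (y i))
      ((fderiv ℝ A (x i)).comp (prj i)) x :=
    HasFDerivAt.comp x (g := A) (f := fun y => prj i y) hA.hasFDerivAt (prj i).hasFDerivAt
  unfold dbar
  rw [h1.fderiv]
  simp [prj_apply, hik.symm]

end deriv

lemma contDiff_coord (m : ℕ) (i : Fin (m + 2)) : ContDiff ℝ ∞ (fun y : E m => y i) :=
  (prj i).contDiff

lemma contDiff_T (m n : ℕ) (b : ℂ) : ContDiff ℝ ∞ (fun y : E m => T n b (y 0) (y 1)) := by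
  unfold T
  refine contDiff_const.mul (Complex.ofRealCLM.contDiff.comp ?_)
  exact ((contDiff_bmp _ _).comp (contDiff_coord m 0)).mul
    ((contDiff_bmp _ _).comp (contDiff_coord m 1))

lemma contDiff_F (m n : ℕ) : ContDiff ℝ ∞ (fun y : E m => F n (y 0) (y 1)) := by
  unfold F
  exact ContDiff.sum (fun b _ => contDiff_T m n b)

/-- Locally the coefficient is a finite sum. -/
lemma g_eventuallyEq (m : ℕ) (x : E m) (hx : ‖x 0‖ < 1) : ∃ k, (fun y : E m => g (y 0) (y 1))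
    =ᶠ[𝓝 x] fun y => ∑ n ∈ Finset.range k, F n (y 0) (y 1) := by
  obtain ⟨k, hk⟩ := exists_level (x 0) hx
  refine ⟨k, ?_⟩
  have hopen : IsOpen {y : E m | ‖y 0‖ < 1 - 1 / N k} :=
    isOpen_lt (contDiff_coord m 0).continuous.norm continuous_const
  filter_upwards [hopen.mem_nhds hk] with y hy
  exact g_eq_sum k (y 0) (y 1) (le_of_lt hy)

lemma contDiffAt_g (m : ℕ) (x : E m) (hx : ‖x 0‖ < 1) :
    ContDiffAt ℝ ∞ (fun y : E m => g (y 0) (y 1)) x := by
  obtain ⟨k, hk⟩ := g_eventuallyEq m x hx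
  exact (ContDiff.sum (fun n _ => contDiff_F m n)).contDiffAt.congr_of_eventuallyEq hk

lemma h_continuousOn_coord (m : ℕ) : ContinuousOn (fun x : E m => h (x 0)) {x | ‖x 0‖ < 1} :=
  h_differentiableOn.continuousOn.comp (contDiff_coord m 0).continuous.continuousOn
    (fun x hx => by simpa using hx)

lemma isOpen_Om (m : ℕ) : IsOpen (Om m) := by
  have hopen : IsOpen {x : E m | ‖x 0‖ < 1} :=
    isOpen_lt (contDiff_coord m 0).continuous.norm continuous_const
  have hEq : Om m = {x : E m | ‖x 0‖ < 1} ∩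
      (fun x : E m => ‖x - EuclideanSpace.single 1 (h (x 0))‖) ⁻¹' Iio 1 := by
    ext x
    exact ⟨fun hx => ⟨fiber_disc m x hx, hx⟩, fun hx => hx.2⟩
  rw [hEq]
  refine ContinuousOn.isOpen_inter_preimage ?_ hopen isOpen_Iio
  refine ContinuousOn.norm (continuousOn_id.sub ?_)
  have hcont : Continuous (fun c : ℂ => (EuclideanSpace.single 1 c : E m)) := by
    have hfun : (fun c : ℂ => (EuclideanSpace.single 1 c : E m))
        = fun c : ℂ => c • (EuclideanSpace.single 1 1 : E m) :=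
      funext fun c => single_eq_smul m 1 c
    rw [hfun]
    fun_prop
  exact hcont.comp_continuousOn (h_continuousOn_coord m)

lemma dbar_T (m n : ℕ) (b : ℂ) (hb : b ∈ isl n) (x : E m) (hx : x ∈ Om m) (k : Fin (m + 2))
    (hk : k ≠ 1) : dbar k (fun y : E m => T n b (y 0) (y 1)) x = 0 := by
  have hρ := rho_pos n
  by_cases hz : ‖x 0 - b‖ < 2 / 3 * rho n
  · have hopen : IsOpen {y : E m | ‖y 0 - b‖ < 2 / 3 * rho n} :=
      isOpen_lt ((contDiff_coord m 0).continuous.sub continuous_const).norm continuous_const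
    have : (fun y : E m => T n b (y 0) (y 1)) =ᶠ[𝓝 x]
        fun y => (fun w : ℂ => ph b * (bmp (h b) (‖deriv h b‖ * rho n / 3) w : ℝ)) (y 1) := by
      filter_upwards [hopen.mem_nhds hz] with y hy
      exact T_eq_of_near n b (y 0) (y 1) (le_of_lt hy)
    rw [dbar_congr this]
    refine dbar_proj hk (fun w : ℂ => ph b * (bmp (h b) (‖deriv h b‖ * rho n / 3) w : ℝ)) x ?_
    refine DifferentiableAt.const_mul ?_ _
    have := (contDiff_bmp (h b) (‖deriv h b‖ * rho n / 3)).differentiable (by simp)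
    exact Complex.ofRealCLM.differentiableAt.comp _ this.differentiableAt
  · push Not at hz
    have hopen : IsOpen {y : E m | 65 / 100 * rho n < ‖y 0 - b‖} :=
      isOpen_lt continuous_const ((contDiff_coord m 0).continuous.sub continuous_const).norm
    have : (fun y : E m => T n b (y 0) (y 1)) =ᶠ[𝓝 x] fun _ => 0 := by
      filter_upwards [hopen.mem_nhds (show 65 / 100 * rho n < ‖x 0 - b‖ by linarith),
        (isOpen_Om m).mem_nhds hx] with y hy hy2
      exact vanish n b hb (y 0) (y 1) (fiber m y hy2) (le_of_lt hy)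
    rw [dbar_congr this, dbar_zero]

lemma dbar_F (m n : ℕ) (x : E m) (hx : x ∈ Om m) (k : Fin (m + 2))
    (hk : k ≠ 1) : dbar k (fun y : E m => F n (y 0) (y 1)) x = 0 := by
  unfold F
  rw [dbar_sum _ (fun b _ => (contDiff_T m n b).differentiable (by simp) |>.differentiableAt)]
  exact Finset.sum_eq_zero (fun b hb => dbar_T m n b hb x hx k hk)

lemma dbar_g (m : ℕ) (x : E m) (hx : x ∈ Om m) (k : Fin (m + 2)) (hk : k ≠ 1) :
    dbar k (fun y : E m => g (y 0) (y 1)) x = 0 := by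
  obtain ⟨K, hK⟩ := g_eventuallyEq m x (fiber_disc m x hx)
  rw [dbar_congr hK, dbar_sum _ (fun n _ => (contDiff_F m n).differentiable (by simp)
    |>.differentiableAt)]
  exact Finset.sum_eq_zero (fun n _ => dbar_F m n x hx k hk)

end Pool.Agent.Helper12.DB
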