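import Pool.Agent.Helper12.DB5

/-!
Closedness in the sense of distributions, and the Fubini formula for the shear.
-/

set_option autoImplicit false

namespace Pool.Agent.Helper12.DB

open Complex MeasureTheory Metric Set Filter
open scoped Topology ENNReal ContDiff

/-- The form `g dz̄_1`. -/
noncomputable def frm (m : ℕ) (j : Fin (m + 2)) (x : E m) : ℂ :=
  if j = 1 then g (x 0) (x 1) else 0

lemma integral_fderiv_eq_zero (m : ℕ) (ψ : E m → ℂ) (hψ : ContDiff ℝ ∞ ψ)
    (hc : HasCompactSupport ψ) (v : E m) : ∫ x, fderiv ℝ ψ x v = 0 := by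
  have hcont : Continuous (fun x => fderiv ℝ ψ x v) :=
    (hψ.continuous_fderiv (by simp)).clm_apply continuous_const
  have hsupp : HasCompactSupport (fun x => fderiv ℝ ψ x v) :=
    (hc.fderiv ℝ).comp_left (g := fun L : E m →L[ℝ] ℂ => L v) (by simp)
  have := integral_mul_fderiv_eq_neg_fderiv_mul_of_integrable (μ := (volume : Measure (E m)))
    (f := fun _ => (1 : ℂ)) (g := ψ) (v := v)
    (by simp) (by simpa using hcont.integrable_of_hasCompactSupport hsupp)
    (by simpa using hψ.continuous.integrable_of_hasCompactSupport hc)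
    (fun _ _ => differentiableAt_const _)
    (fun x _ => (hψ.differentiable (by simp)).differentiableAt)
  simpa using this

lemma integral_dbar_eq_zero (m : ℕ) (k : Fin (m + 2)) (ψ : E m → ℂ) (hψ : ContDiff ℝ ∞ ψ)
    (hc : HasCompactSupport ψ) : ∫ x, dbar k ψ x = 0 := by
  have hint : ∀ v : E m, Integrable (fun x => fderiv ℝ ψ x v) := by
    intro v
    have hcont : Continuous (fun x => fderiv ℝ ψ x v) :=
      (hψ.continuous_fderiv (by simp)).clm_apply continuous_const
    have hsupp : HasCompactSupport (fun x => fderiv ℝ ψ x v) :=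
      (hc.fderiv ℝ).comp_left (g := fun L : E m →L[ℝ] ℂ => L v) (by simp)
    exact hcont.integrable_of_hasCompactSupport hsupp
  unfold dbar
  rw [integral_const_mul, integral_add (hint _) ((hint _).const_mul _), integral_const_mul,
    integral_fderiv_eq_zero m ψ hψ hc, integral_fderiv_eq_zero m ψ hψ hc]
  simp

lemma dbar_eq_zero_of_notMem {n : ℕ} (k : Fin n) (φ : EuclideanSpace ℂ (Fin n) → ℂ)
    (x : EuclideanSpace ℂ (Fin n)) (hx : x ∉ tsupport φ) : dbar k φ x = 0 := by
  have h1 : φ =ᶠ[𝓝 x] fun _ => 0 := notMem_tsupport_iff_eventuallyEq.mp hx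
  rw [dbar_congr h1, dbar_zero]

lemma integral_g_dbar (m : ℕ) (k : Fin (m + 2)) (hk : k ≠ 1) (φ : E m → ℂ)
    (hφ : IsTest (Om m) φ) : ∫ x in Om m, g (x 0) (x 1) * dbar k φ x = 0 := by
  obtain ⟨hφ1, hφ2, hφ3⟩ := hφ
  have hψ : ContDiff ℝ ∞ (fun x : E m => g (x 0) (x 1) * φ x) := by
    rw [contDiff_iff_contDiffAt]
    intro x
    by_cases hx : x ∈ tsupport φ
    · exact (contDiffAt_g m x (fiber_disc m x (hφ3 hx))).mul hφ1.contDiffAt
    · have h1 : φ =ᶠ[𝓝 x] fun _ => 0 := notMem_tsupport_iff_eventuallyEq.mp hx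
      have h2 : (fun x : E m => g (x 0) (x 1) * φ x) =ᶠ[𝓝 x] fun _ => 0 := by
        filter_upwards [h1] with y hy
        rw [hy, mul_zero]
      exact contDiffAt_const.congr_of_eventuallyEq h2
  have hc : HasCompactSupport (fun x : E m => g (x 0) (x 1) * φ x) := hφ2.mul_left
  rw [← integral_dbar_eq_zero m k _ hψ hc,
    setIntegral_eq_integral_of_forall_compl_eq_zero (s := Om m)]
  · refine integral_congr_ae (Eventually.of_forall fun x => ?_)
    show g (x 0) (x 1) * dbar k φ x = dbar k (fun x : E m => g (x 0) (x 1) * φ x) x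
    by_cases hx : x ∈ tsupport φ
    · have hxO := hφ3 hx
      rw [dbar_mul ((contDiffAt_g m x (fiber_disc m x hxO)).differentiableAt (by simp))
        ((hφ1.differentiable (by simp)).differentiableAt), dbar_g m x hxO k hk]
      ring
    · rw [dbar_eq_zero_of_notMem k φ x hx, dbar_eq_zero_of_notMem]
      · simp
      · intro h2
        exact hx ((tsupport_mul_subset_right (f := fun x : E m => g (x 0) (x 1))) h2)
  · intro x hx
    rw [dbar_eq_zero_of_notMem k φ x (fun h2 => hx (hφ3 h2)), mul_zero]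

lemma frm_closed (m : ℕ) : WeakClosed (Om m) (frm m) := by
  intro j k φ hφ
  by_cases hj : j = 1 <;> by_cases hk : k = 1
  · subst hj; subst hk; rfl
  · subst hj
    have h1 : ∀ x : E m, frm m 1 x = g (x 0) (x 1) := fun x => by simp [frm]
    have h2 : ∀ x : E m, frm m k x = 0 := fun x => by simp [frm, hk]
    simp only [h1, h2, zero_mul, integral_zero]
    exact integral_g_dbar m k hk φ hφ
  · subst hk
    have h1 : ∀ x : E m, frm m 1 x = g (x 0) (x 1) := fun x => by simp [frm]
    have h2 : ∀ x : E m, frm m j x = 0 := fun x => by simp [frm, hj]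
    simp only [h1, h2, zero_mul, integral_zero]
    exact (integral_g_dbar m j hj φ hφ).symm
  · have h1 : ∀ x : E m, frm m k x = 0 := fun x => by simp [frm, hk]
    have h2 : ∀ x : E m, frm m j x = 0 := fun x => by simp [frm, hj]
    simp only [h1, h2, zero_mul, integral_zero]

lemma frm_smooth (m : ℕ) (j : Fin (m + 2)) : ContDiffOn ℝ ∞ (frm m j) (Om m) := by
  intro x hx
  refine ContDiffAt.contDiffWithinAt ?_
  by_cases hj : j = 1
  · subst hj
    have : frm m 1 = fun x : E m => g (x 0) (x 1) := funext fun x => by simp [frm]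
    rw [this]
    exact contDiffAt_g m x (fiber_disc m x hx)
  · have : frm m j = fun _ => 0 := funext fun x => by simp [frm, hj]
    rw [this]
    exact contDiffAt_const

lemma frm_bound (m : ℕ) : FormBound (Om m) (frm m) 1 := by
  refine ⟨fun j => ((frm_smooth m j).continuousOn).aestronglyMeasurable
    (isOpen_Om m).measurableSet, Eventually.of_forall fun x => ?_⟩
  rw [Real.sqrt_le_left (by norm_num), Finset.sum_eq_single 1]
  · have h1 : frm m 1 x = g (x 0) (x 1) := by simp [frm]
    rw [h1]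
    have := norm_g_le (x 0) (x 1)
    rw [one_pow]
    exact pow_le_one₀ (norm_nonneg _) this
  · intro j _ hj
    simp [frm, hj]
  · intro h1; exact absurd (Finset.mem_univ _) h1

/-! ### Fubini -/

lemma map_haar (m : ℕ) : ∃ c : ℝ≥0∞, c ≠ 0 ∧ c ≠ ⊤ ∧
    ∀ G : (Fin (m + 2) → ℂ) → ℝ≥0∞, Measurable G →
      ∫⁻ x : E m, G (fun i => x i) = c * ∫⁻ y, G y := by
  let L : E m ≃L[ℝ] (Fin (m + 2) → ℂ) := PiLp.continuousLinearEquiv 2 ℝ (fun _ : Fin (m + 2) => ℂ)
  have hL : ∀ x : E m, L x = fun i => x i := fun x => rfl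
  have : (Measure.map L (volume : Measure (E m))).IsAddHaarMeasure :=
    L.isAddHaarMeasure_map volume
  obtain ⟨c, hc0, h1⟩ : ∃ c : NNReal, c ≠ 0 ∧ Measure.map L (volume : Measure (E m))
      = c • (volume : Measure (Fin (m + 2) → ℂ)) :=
    ⟨_, (Measure.addHaarScalarFactor_pos_of_isAddHaarMeasure _ _).ne',
      Measure.isAddLeftInvariant_eq_smul _ _⟩
  refine ⟨(c : ℝ≥0∞), ENNReal.coe_ne_zero.mpr hc0, ENNReal.coe_ne_top, ?_⟩
  intro G hG
  have h2 : ∫⁻ x : E m, G (fun i => x i) = ∫⁻ y, G y ∂(Measure.map L (volume : Measure (E m))) := by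
    rw [lintegral_map hG L.continuous.measurable]
    rfl
  rw [h2, h1, lintegral_smul_measure]
  rfl

/-- The tail coordinates after the shear. -/
noncomputable def tl (m : ℕ) (H : ℂ → ℂ) (x : Fin (m + 2) → ℂ) : Fin (m + 1) → ℂ :=
  fun i => x i.succ - Pi.single (M := fun _ => ℂ) (0 : Fin (m + 1)) (H (x 0)) i

lemma fubini (m : ℕ) : ∃ c : ℝ≥0∞, c ≠ 0 ∧ c ≠ ⊤ ∧
    ∀ (H : ℂ → ℂ) (γ : ℂ → ℝ≥0∞) (Ψ : (Fin (m + 1) → ℂ) → ℝ≥0∞), Measurable H → Measurable γ →
      Measurable Ψ → ∫⁻ x : E m, γ (x 0) * Ψ (tl m H (fun i => x i))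
        = c * ((∫⁻ z, γ z) * ∫⁻ y, Ψ y) := by
  obtain ⟨c, hc0, hc1, hc⟩ := map_haar m
  refine ⟨c, hc0, hc1, ?_⟩
  intro H γ Ψ hH hγ hΨ
  have htl : Measurable (tl m H) := by
    rw [measurable_pi_iff]
    intro i
    unfold tl
    refine (measurable_pi_apply _).sub ?_
    by_cases hi : i = 0
    · subst hi
      simp only [Pi.single_eq_same]
      exact hH.comp (measurable_pi_apply _)
    · simp only [Pi.single_eq_of_ne hi]
      exact measurable_const
  have h1 := hc (fun x => γ (x 0) * Ψ (tl m H x))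
    ((hγ.comp (measurable_pi_apply 0)).mul (hΨ.comp htl))
  rw [h1]
  congr 1
  have hmp := (volume_preserving_piFinSuccAbove (fun _ : Fin (m + 2) => ℂ) 0)
  have h2 : ∫⁻ x : Fin (m + 2) → ℂ, γ (x 0) * Ψ (tl m H x)
      = ∫⁻ p : ℂ × (Fin (m + 1) → ℂ), γ p.1 *
        Ψ (p.2 - Pi.single (M := fun _ => ℂ) (0 : Fin (m + 1)) (H p.1)) := by
    rw [← hmp.lintegral_comp_emb (MeasurableEquiv.measurableEmbedding _)]
    refine lintegral_congr (fun x => ?_)
    rfl
  rw [h2, Measure.volume_eq_prod, lintegral_prod]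
  · rw [← lintegral_mul_const _ hγ]
    refine lintegral_congr (fun z => ?_)
    have h3 : ∫⁻ y : Fin (m + 1) → ℂ, γ z * Ψ (y - Pi.single (M := fun _ => ℂ) 0 (H z))
        = γ z * ∫⁻ y : Fin (m + 1) → ℂ, Ψ (y - Pi.single (M := fun _ => ℂ) 0 (H z)) := by
      rw [lintegral_const_mul]
      exact hΨ.comp (measurable_id.sub measurable_const)
    show ∫⁻ y : Fin (m + 1) → ℂ, γ z * Ψ (y - Pi.single (M := fun _ => ℂ) 0 (H z)) = _
    rw [h3, lintegral_sub_right_eq_self (fun y => Ψ y)]
  · refine Measurable.aemeasurable ?_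
    refine (hγ.comp measurable_fst).mul (hΨ.comp (measurable_snd.sub ?_))
    rw [measurable_pi_iff]
    intro i
    by_cases hi : i = 0
    · subst hi
      simp only [Pi.single_eq_same]
      exact hH.comp measurable_fst
    · simp only [Pi.single_eq_of_ne hi]
      exact measurable_const

end Pool.Agent.Helper12.DB
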