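import Pool.Agent.Helper12.DB6

/-!
The test functions adapted to the shear.
-/

set_option autoImplicit false

namespace Pool.Agent.Helper12.DB

open Complex MeasureTheory Metric Set Filter
open scoped Topology ENNReal ContDiff ComplexConjugate

/-- Radial cutoff in the disc. -/
noncomputable def ct (δ : ℝ) (z : ℂ) : ℝ := Real.smoothTransition ((1 - ‖z‖ ^ 2) / δ - 1)

/-- Vertical cutoff. -/
noncomputable def W (m : ℕ) (η : ℝ) (y : E m) : ℝ :=
  Real.smoothTransition (2 - (‖y‖ ^ 2 - ‖y 0‖ ^ 2) / η)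

/-- The inverse shear. -/
noncomputable def sh (m : ℕ) (x : E m) : E m := x - EuclideanSpace.single 1 (h (x 0))

/-- The first test function. -/
noncomputable def phi (m : ℕ) (δ η : ℝ) (x : E m) : ℂ := (ct δ (x 0) : ℂ) * (W m η (sh m x) : ℂ)

/-- The second test function. -/
noncomputable def phi1 (m : ℕ) (δ η : ℝ) (x : E m) : ℂ :=
  (conj (deriv h (x 0)) * (ct δ (x 0) : ℂ)) * (W m η (sh m x) : ℂ)

/-- The Wirtinger derivative in one variable. -/
noncomputable def dC (A : ℂ → ℂ) (z : ℂ) : ℂ := (1 / 2) * (fderiv ℝ A z 1 + I * fderiv ℝ A z I)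

lemma contDiff_ct (δ : ℝ) : ContDiff ℝ ∞ (ct δ) := by
  unfold ct
  refine Real.smoothTransition.contDiff.comp ?_
  exact ((contDiff_const.sub (contDiff_id.norm_sq ℝ)).div_const _).sub contDiff_const

lemma contDiff_W (m : ℕ) (η : ℝ) : ContDiff ℝ ∞ (W m η) := by
  unfold W
  refine Real.smoothTransition.contDiff.comp ?_
  exact contDiff_const.sub (((contDiff_id.norm_sq ℂ).sub
    ((contDiff_coord m 0).norm_sq ℝ)).div_const _)

lemma contDiffAt_h (z : ℂ) (hz : ‖z‖ < 1) : ContDiffAt ℝ ∞ h z := by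
  have hz' : z ∈ ball (0 : ℂ) 1 := by simpa using hz
  have h1 : ContDiffAt ℂ ∞ h z :=
    (h_differentiableOn.contDiffOn isOpen_ball).contDiffAt (isOpen_ball.mem_nhds hz')
  exact h1.restrict_scalars ℝ

lemma contDiffAt_deriv_h (z : ℂ) (hz : ‖z‖ < 1) : ContDiffAt ℝ ∞ (deriv h) z := by
  have hz' : z ∈ ball (0 : ℂ) 1 := by simpa using hz
  have h1 : ContDiffAt ℂ ∞ (deriv h) z :=
    ((h_differentiableOn.deriv isOpen_ball).contDiffOn isOpen_ball).contDiffAt
      (isOpen_ball.mem_nhds hz')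
  exact h1.restrict_scalars ℝ

/-- The embedding of the second coordinate. -/
noncomputable def inj (m : ℕ) : ℂ →L[ℝ] E m :=
  ((ContinuousLinearMap.id ℂ ℂ).smulRight (EuclideanSpace.single 1 (1 : ℂ) : E m)).restrictScalars ℝ

lemma inj_apply (m : ℕ) (c : ℂ) : inj m c = EuclideanSpace.single 1 c := by
  rw [single_eq_smul m 1 c]
  rfl

lemma sh_eq (m : ℕ) : sh m = fun x : E m => x - inj m (h (x 0)) := by
  funext x; rw [inj_apply]; rfl

lemma contDiffAt_sh (m : ℕ) (x : E m) (hx : ‖x 0‖ < 1) : ContDiffAt ℝ ∞ (sh m) x := by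
  rw [sh_eq]
  refine contDiffAt_id.sub ((inj m).contDiff.contDiffAt.comp x ?_)
  exact (contDiffAt_h (x 0) hx).comp x (contDiff_coord m 0).contDiffAt

lemma fderiv_sh (m : ℕ) (x : E m) (hx : ‖x 0‖ < 1) (v : E m) :
    fderiv ℝ (sh m) x v = v - EuclideanSpace.single 1 (deriv h (x 0) * v 0) := by
  have hz' : x 0 ∈ ball (0 : ℂ) 1 := by simpa using hx
  have h1 : HasDerivAt h (deriv h (x 0)) (x 0) :=
    (h_differentiableOn.differentiableAt (isOpen_ball.mem_nhds hz')).hasDerivAt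
  obtain ⟨Dh, hD, hDv⟩ : ∃ Dh : ℂ →L[ℝ] ℂ, HasFDerivAt h Dh (x 0) ∧
      ∀ c, Dh c = deriv h (x 0) * c :=
    ⟨_, h1.hasFDerivAt.restrictScalars ℝ, fun c => by simp [mul_comm]⟩
  have h2 : HasFDerivAt (fun y : E m => h (y 0)) (Dh.comp (prj 0)) x :=
    HasFDerivAt.comp x (g := h) (f := fun y => prj (0 : Fin (m + 2)) y) hD (prj 0).hasFDerivAt
  have h3 : HasFDerivAt (sh m)
      (ContinuousLinearMap.id ℝ (E m) - (inj m).comp (Dh.comp (prj 0))) x := by
    rw [sh_eq]
    exact (hasFDerivAt_id x).sub ((inj m).hasFDerivAt.comp x h2)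
  rw [h3.fderiv]
  show v - inj m (Dh (prj 0 v)) = _
  rw [hDv, inj_apply]
  rfl

/-- `W` does not depend on the first coordinate. -/
lemma fderiv_W_zero (m : ℕ) (η : ℝ) (y : E m) (c : ℂ) :
    fderiv ℝ (W m η) y (EuclideanSpace.single 0 c) = 0 := by
  have hd : DifferentiableAt ℝ (W m η) y := ((contDiff_W m η).differentiable (by simp)).differentiableAt
  rw [← hd.lineDeriv_eq_fderiv]
  unfold lineDeriv
  have hconst : ∀ t : ℝ, W m η (y + t • (EuclideanSpace.single 0 c : E m)) = W m η y := by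
    intro t
    unfold W
    congr 3
    rw [EuclideanSpace.norm_sq_eq, EuclideanSpace.norm_sq_eq, Fin.sum_univ_succ,
      Fin.sum_univ_succ (f := fun i => ‖y i‖ ^ 2)]
    have h1 : ∀ i : Fin (m + 1), (y + t • (EuclideanSpace.single 0 c : E m)) i.succ = y i.succ := by
      intro i
      simp
    simp only [h1]
    ring
  simp only [hconst]
  exact deriv_const 0 _

lemma linear_identity (m : ℕ) (L : E m →L[ℝ] ℝ) (a : ℂ) :
    (1 / 2 : ℂ) * (((L (EuclideanSpace.single 1 a) : ℝ) : ℂ)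
      + I * ((L (EuclideanSpace.single 1 (a * I)) : ℝ) : ℂ))
    = conj a * ((1 / 2 : ℂ) * (((L (EuclideanSpace.single 1 1) : ℝ) : ℂ)
      + I * ((L (EuclideanSpace.single 1 I) : ℝ) : ℂ))) := by
  have h1 : (EuclideanSpace.single 1 a : E m)
      = a.re • (EuclideanSpace.single 1 (1 : ℂ) : E m) + a.im • (EuclideanSpace.single 1 I : E m) := by
    ext j
    by_cases hj : j = 1
    · subst hj; simp [Complex.re_add_im]
    · simp [hj]
  have h2 : (EuclideanSpace.single 1 (a * I) : E m)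
      = (-a.im) • (EuclideanSpace.single 1 (1 : ℂ) : E m)
        + a.re • (EuclideanSpace.single 1 I : E m) := by
    ext j
    by_cases hj : j = 1
    · subst hj
      simp only [PiLp.single_apply, if_true, PiLp.add_apply, PiLp.smul_apply]
      apply Complex.ext <;> simp
    · simp [hj]
  rw [h1, h2, map_add, map_add, map_smul, map_smul, map_smul, map_smul]
  simp only [smul_eq_mul]
  apply Complex.ext <;> simp <;> ring

/-- The real valued function `W ∘ sh`, complexified. -/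
noncomputable def B (m : ℕ) (η : ℝ) (x : E m) : ℂ := (W m η (sh m x) : ℂ)

lemma contDiffAt_B (m : ℕ) (η : ℝ) (x : E m) (hx : ‖x 0‖ < 1) : ContDiffAt ℝ ∞ (B m η) x := by
  unfold B
  exact Complex.ofRealCLM.contDiff.contDiffAt.comp x
    ((contDiff_W m η).contDiffAt.comp x (contDiffAt_sh m x hx))

lemma fderiv_B (m : ℕ) (η : ℝ) (x : E m) (hx : ‖x 0‖ < 1) (v : E m) :
    fderiv ℝ (B m η) x v = ((fderiv ℝ (W m η) (sh m x)
      (v - EuclideanSpace.single 1 (deriv h (x 0) * v 0)) : ℝ) : ℂ) := by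
  have h1 : DifferentiableAt ℝ (sh m) x := (contDiffAt_sh m x hx).differentiableAt (by simp)
  have h2 : DifferentiableAt ℝ (W m η) (sh m x) :=
    ((contDiff_W m η).differentiable (by simp)).differentiableAt
  have h3 : HasFDerivAt (fun x => W m η (sh m x))
      ((fderiv ℝ (W m η) (sh m x)).comp (fderiv ℝ (sh m) x)) x :=
    h2.hasFDerivAt.comp x h1.hasFDerivAt
  have h4 : HasFDerivAt (B m η) (Complex.ofRealCLM.comp
      ((fderiv ℝ (W m η) (sh m x)).comp (fderiv ℝ (sh m) x))) x :=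
    Complex.ofRealCLM.hasFDerivAt.comp x h3
  rw [h4.fderiv]
  show (((fderiv ℝ (W m η) (sh m x)) (fderiv ℝ (sh m) x v) : ℝ) : ℂ) = _
  rw [fderiv_sh m x hx]

lemma dbar_B (m : ℕ) (η : ℝ) (x : E m) (hx : ‖x 0‖ < 1) :
    dbar 0 (B m η) x = - conj (deriv h (x 0)) * dbar 1 (B m η) x := by
  unfold dbar
  rw [fderiv_B m η x hx, fderiv_B m η x hx, fderiv_B m η x hx, fderiv_B m η x hx]
  have e0 : ∀ c : ℂ, (EuclideanSpace.single 0 c : E m) 0 = c := fun c => by simp
  have e1 : ∀ c : ℂ, (EuclideanSpace.single 1 c : E m) 0 = 0 := fun c => by simp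
  rw [e0, e0, e1, e1]
  have z0 : (EuclideanSpace.single 1 (deriv h (x 0) * 0) : E m) = 0 := by
    rw [mul_zero, single_eq_smul, zero_smul]
  rw [z0, sub_zero, sub_zero, map_sub, map_sub, fderiv_W_zero, fderiv_W_zero]
  have := linear_identity m (fderiv ℝ (W m η) (sh m x)) (deriv h (x 0))
  rw [mul_one]
  push_cast
  linear_combination (-1 : ℂ) * this

lemma dbar_coord_fun (m : ℕ) (A : ℂ → ℂ) (x : E m) (hA : DifferentiableAt ℝ A (x 0)) :
    dbar 0 (fun y : E m => A (y 0)) x = dC A (x 0) := by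
  have h1 : HasFDerivAt (fun y : E m => A (y 0)) ((fderiv ℝ A (x 0)).comp (prj 0)) x :=
    HasFDerivAt.comp x (g := A) (f := fun y => prj (0 : Fin (m + 2)) y) hA.hasFDerivAt
      (prj 0).hasFDerivAt
  unfold dbar dC
  rw [h1.fderiv]
  simp [prj_apply]

/-- The key cancellation. -/
lemma key_identity (m : ℕ) (δ η : ℝ) (x : E m) (hx : ‖x 0‖ < 1) :
    dbar 0 (phi m δ η) x + dbar 1 (phi1 m δ η) x
      = dC (fun z => (ct δ z : ℂ)) (x 0) * B m η x := by
  have hB : DifferentiableAt ℝ (B m η) x := (contDiffAt_B m η x hx).differentiableAt (by simp)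
  have hA0 : ContDiff ℝ ∞ (fun z : ℂ => (ct δ z : ℂ)) :=
    Complex.ofRealCLM.contDiff.comp (contDiff_ct δ)
  have hA : DifferentiableAt ℝ (fun z : ℂ => (ct δ z : ℂ)) (x 0) :=
    (hA0.differentiable (by simp)).differentiableAt
  have hcoord : DifferentiableAt ℝ (fun y : E m => y 0) x :=
    ((contDiff_coord m 0).differentiable (by simp)).differentiableAt
  have hAx : DifferentiableAt ℝ (fun y : E m => (ct δ (y 0) : ℂ)) x := hA.comp x hcoord
  have hC : DifferentiableAt ℝ (fun z : ℂ => conj (deriv h z) * (ct δ z : ℂ)) (x 0) := by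
    refine DifferentiableAt.mul ?_ hA
    exact (Complex.conjCLE.differentiableAt).comp (x 0)
      ((contDiffAt_deriv_h (x 0) hx).differentiableAt (by simp))
  have hCx : DifferentiableAt ℝ (fun y : E m => conj (deriv h (y 0)) * (ct δ (y 0) : ℂ)) x :=
    DifferentiableAt.comp (g := fun z : ℂ => conj (deriv h z) * (ct δ z : ℂ)) x hC hcoord
  have e1 : dbar 0 (phi m δ η) x = (ct δ (x 0) : ℂ) * dbar 0 (B m η) x
      + dC (fun z => (ct δ z : ℂ)) (x 0) * B m η x := by
    have := dbar_mul (j := 0) hAx hB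
    rw [dbar_coord_fun m (fun z => (ct δ z : ℂ)) x hA] at this
    exact this
  have e2 : dbar 1 (phi1 m δ η) x
      = conj (deriv h (x 0)) * (ct δ (x 0) : ℂ) * dbar 1 (B m η) x := by
    have := dbar_mul (j := 1) hCx hB
    rw [dbar_proj (i := 0) (by simp) (fun z : ℂ => conj (deriv h z) * (ct δ z : ℂ)) x hC,
      zero_mul, add_zero] at this
    exact this
  rw [e1, e2, dbar_B m η x hx]
  ring

end Pool.Agent.Helper12.DB
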