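import Pool.Agent.Helper12.DB7

/-!
The adapted functions are test functions.
-/

set_option autoImplicit false

namespace Pool.Agent.Helper12.DB

open Complex MeasureTheory Metric Set Filter
open scoped Topology ENNReal ContDiff ComplexConjugate

lemma ct_eq_zero (δ : ℝ) (hδ : 0 < δ) (z : ℂ) (hz : 1 - ‖z‖ ^ 2 ≤ δ) : ct δ z = 0 := by
  apply Real.smoothTransition.zero_of_nonpos
  have : (1 - ‖z‖ ^ 2) / δ ≤ 1 := by rw [div_le_one hδ]; exact hz
  linarith

lemma ct_eq_one (δ : ℝ) (hδ : 0 < δ) (z : ℂ) (hz : 2 * δ ≤ 1 - ‖z‖ ^ 2) : ct δ z = 1 := by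
  apply Real.smoothTransition.one_of_one_le
  have : 2 ≤ (1 - ‖z‖ ^ 2) / δ := by rw [le_div_iff₀ hδ]; linarith
  linarith

lemma ct_nonneg (δ : ℝ) (z : ℂ) : 0 ≤ ct δ z := Real.smoothTransition.nonneg _

lemma ct_le_one (δ : ℝ) (z : ℂ) : ct δ z ≤ 1 := Real.smoothTransition.le_one _

lemma W_nonneg (m : ℕ) (η : ℝ) (y : E m) : 0 ≤ W m η y := Real.smoothTransition.nonneg _

lemma W_le_one (m : ℕ) (η : ℝ) (y : E m) : W m η y ≤ 1 := Real.smoothTransition.le_one _

lemma W_eq_zero (m : ℕ) (η : ℝ) (hη : 0 < η) (y : E m) (hy : 2 * η ≤ ‖y‖ ^ 2 - ‖y 0‖ ^ 2) :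
    W m η y = 0 := by
  apply Real.smoothTransition.zero_of_nonpos
  have : 2 ≤ (‖y‖ ^ 2 - ‖y 0‖ ^ 2) / η := by rw [le_div_iff₀ hη]; linarith
  linarith

lemma near_far (δ : ℝ) (hδ : 0 < δ) (m : ℕ) (x : E m) (hx : 1 ≤ ‖x 0‖) :
    ∀ᶠ y : E m in 𝓝 x, ct δ (y 0) = 0 := by
  have hopen : IsOpen {y : E m | 1 - ‖y 0‖ ^ 2 < δ} :=
    isOpen_lt (continuous_const.sub ((contDiff_coord m 0).continuous.norm.pow 2)) continuous_const
  have hmem : x ∈ {y : E m | 1 - ‖y 0‖ ^ 2 < δ} := by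
    show 1 - ‖x 0‖ ^ 2 < δ
    nlinarith
  filter_upwards [hopen.mem_nhds hmem] with y hy
  exact ct_eq_zero δ hδ (y 0) (le_of_lt hy)

lemma contDiff_phi (m : ℕ) (δ η : ℝ) (hδ : 0 < δ) : ContDiff ℝ ∞ (phi m δ η) := by
  rw [contDiff_iff_contDiffAt]
  intro x
  by_cases hx : ‖x 0‖ < 1
  · refine ContDiffAt.mul ?_ (contDiffAt_B m η x hx)
    exact (Complex.ofRealCLM.contDiff.comp ((contDiff_ct δ).comp (contDiff_coord m 0))).contDiffAt
  · push Not at hx
    refine contDiffAt_const (c := (0 : ℂ)) |>.congr_of_eventuallyEq ?_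
    filter_upwards [near_far δ hδ m x hx] with y hy
    simp [phi, hy]

lemma contDiff_phi1 (m : ℕ) (δ η : ℝ) (hδ : 0 < δ) : ContDiff ℝ ∞ (phi1 m δ η) := by
  rw [contDiff_iff_contDiffAt]
  intro x
  by_cases hx : ‖x 0‖ < 1
  · refine ContDiffAt.mul (ContDiffAt.mul ?_ ?_) (contDiffAt_B m η x hx)
    · have h1 : ContDiffAt ℝ ∞ (fun y : E m => deriv h (y 0)) x :=
        ContDiffAt.comp (g := deriv h) x (contDiffAt_deriv_h (x 0) hx)
          (contDiff_coord m 0).contDiffAt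
      exact Complex.conjCLE.contDiff.contDiffAt.comp x h1
    · exact (Complex.ofRealCLM.contDiff.comp
        ((contDiff_ct δ).comp (contDiff_coord m 0))).contDiffAt
  · push Not at hx
    refine contDiffAt_const (c := (0 : ℂ)) |>.congr_of_eventuallyEq ?_
    filter_upwards [near_far δ hδ m x hx] with y hy
    simp [phi1, hy]

/-- The compact set containing the supports. -/
def K0 (m : ℕ) (δ η : ℝ) : Set (E m) := {y | ‖y 0‖ ^ 2 ≤ 1 - δ ∧ ‖y‖ ^ 2 - ‖y 0‖ ^ 2 ≤ 2 * η}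

lemma isCompact_K0 (m : ℕ) (δ η : ℝ) : IsCompact (K0 m δ η) := by
  have hcl : IsClosed (K0 m δ η) := by
    have c0 : Continuous (fun y : E m => ‖y 0‖ ^ 2) := (contDiff_coord m 0).continuous.norm.pow 2
    exact (isClosed_le c0 continuous_const).inter
      (isClosed_le ((continuous_norm.pow 2).sub c0) continuous_const)
  refine Metric.isCompact_of_isClosed_isBounded hcl ?_
  refine (Metric.isBounded_closedBall (x := (0 : E m)) (r := 1 + |1 - δ + 2 * η|)).subset ?_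
  intro y hy
  rw [mem_closedBall_zero_iff]
  obtain ⟨h1, h2⟩ := hy
  have h3 : ‖y‖ ^ 2 ≤ |1 - δ + 2 * η| := (by linarith : ‖y‖ ^ 2 ≤ 1 - δ + 2 * η).trans (le_abs_self _)
  nlinarith [norm_nonneg y, abs_nonneg (1 - δ + 2 * η)]

/-- The shear. -/
noncomputable def shr (m : ℕ) (y : E m) : E m := y + EuclideanSpace.single 1 (h (y 0))

lemma shr_zero (m : ℕ) (y : E m) : shr m y 0 = y 0 := by simp [shr]

lemma sh_zero (m : ℕ) (y : E m) : sh m y 0 = y 0 := by simp [sh]

lemma sh_shr (m : ℕ) (y : E m) : sh m (shr m y) = y := by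
  rw [sh, shr_zero, shr, add_sub_cancel_right]

lemma shr_sh (m : ℕ) (y : E m) : shr m (sh m y) = y := by
  rw [shr, sh_zero, sh, sub_add_cancel]

lemma mem_Om (m : ℕ) (x : E m) : x ∈ Om m ↔ ‖sh m x‖ < 1 := Iff.rfl

lemma continuousOn_shr (m : ℕ) : ContinuousOn (shr m) {y : E m | ‖y 0‖ < 1} := by
  unfold shr
  refine continuousOn_id.add ?_
  have hfun : (fun y : E m => (EuclideanSpace.single 1 (h (y 0)) : E m))
      = fun y : E m => inj m (h (y 0)) := funext fun y => (inj_apply m _).symm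
  rw [hfun]
  exact (inj m).continuous.comp_continuousOn (h_continuousOn_coord m)

/-- The image of the compact set. -/
def K1 (m : ℕ) (δ η : ℝ) : Set (E m) := shr m '' K0 m δ η

lemma isCompact_K1 (m : ℕ) (δ η : ℝ) (hδ : 0 < δ) : IsCompact (K1 m δ η) := by
  refine (isCompact_K0 m δ η).image_of_continuousOn ((continuousOn_shr m).mono ?_)
  intro y hy
  have h1 : ‖y 0‖ ^ 2 ≤ 1 - δ := hy.1
  show ‖y 0‖ < 1
  nlinarith [norm_nonneg (y 0)]

lemma K1_subset (m : ℕ) (δ η : ℝ) (hη : 2 * η < δ) : K1 m δ η ⊆ Om m := by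
  rintro _ ⟨y, hy, rfl⟩
  rw [mem_Om, sh_shr]
  obtain ⟨h1, h2⟩ := hy
  nlinarith [norm_nonneg y]

lemma mem_K1 (m : ℕ) (δ η : ℝ) (hδ : 0 < δ) (hη : 0 < η) (x : E m) (h1 : ct δ (x 0) ≠ 0)
    (h2 : W m η (sh m x) ≠ 0) : x ∈ K1 m δ η := by
  refine ⟨sh m x, ⟨?_, ?_⟩, shr_sh m x⟩
  · by_contra hcon
    push Not at hcon
    rw [sh_zero] at hcon
    exact h1 (ct_eq_zero δ hδ (x 0) (by linarith))
  · by_contra hcon
    push Not at hcon
    exact h2 (W_eq_zero m η hη _ hcon.le)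

lemma isTest_of_support (m : ℕ) (δ η : ℝ) (hδ : 0 < δ) (hηδ : 2 * η < δ) (φ : E m → ℂ)
    (hφ : ContDiff ℝ ∞ φ) (hs : Function.support φ ⊆ K1 m δ η) : IsTest (Om m) φ := by
  have hK := isCompact_K1 m δ η hδ
  refine ⟨hφ, HasCompactSupport.of_support_subset_isCompact hK hs, ?_⟩
  exact (closure_minimal hs hK.isClosed).trans (K1_subset m δ η hηδ)

lemma isTest_phi (m : ℕ) (δ η : ℝ) (hδ : 0 < δ) (hη : 0 < η) (hηδ : 2 * η < δ) :
    IsTest (Om m) (phi m δ η) := by
  refine isTest_of_support m δ η hδ hηδ _ (contDiff_phi m δ η hδ) ?_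
  intro x hx
  rw [Function.mem_support, phi, mul_ne_zero_iff] at hx
  exact mem_K1 m δ η hδ hη x (by simpa using hx.1) (by simpa using hx.2)

lemma isTest_phi1 (m : ℕ) (δ η : ℝ) (hδ : 0 < δ) (hη : 0 < η) (hηδ : 2 * η < δ) :
    IsTest (Om m) (phi1 m δ η) := by
  refine isTest_of_support m δ η hδ hηδ _ (contDiff_phi1 m δ η hδ) ?_
  intro x hx
  rw [Function.mem_support, phi1, mul_ne_zero_iff, mul_ne_zero_iff] at hx
  exact mem_K1 m δ η hδ hη x (by simpa using hx.1.2) (by simpa using hx.2)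

/-! ### The domain -/

lemma norm_coord_le (m : ℕ) (y : E m) (i : Fin (m + 2)) : ‖y i‖ ≤ ‖y‖ := PiLp.norm_apply_le y i

lemma differentiableAt_single_h (m : ℕ) (y : E m) (hy : ‖y 0‖ < 1) :
    DifferentiableAt ℂ (fun y : E m => (EuclideanSpace.single 1 (h (y 0)) : E m)) y := by
  have hfun : (fun y : E m => (EuclideanSpace.single 1 (h (y 0)) : E m))
      = fun y : E m => h (y 0) • (EuclideanSpace.single 1 (1 : ℂ) : E m) :=
    funext fun y => single_eq_smul m 1 _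
  rw [hfun]
  have h1 : DifferentiableAt ℂ h (y 0) :=
    h_differentiableOn.differentiableAt (isOpen_ball.mem_nhds (by simpa using hy))
  have h2 : DifferentiableAt ℂ (fun y : E m => y 0) y :=
    (EuclideanSpace.proj (𝕜 := ℂ) (0 : Fin (m + 2))).differentiableAt
  exact (DifferentiableAt.comp (g := h) y h1 h2).smul_const _

lemma differentiableOn_shr (m : ℕ) : DifferentiableOn ℂ (shr m) (ball (0 : E m) 1) := by
  intro y hy
  have hy0 : ‖y 0‖ < 1 := by
    rw [mem_ball_zero_iff] at hy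
    exact lt_of_le_of_lt (norm_coord_le m y 0) hy
  exact (differentiableAt_id.add (differentiableAt_single_h m y hy0)).differentiableWithinAt

lemma differentiableOn_sh (m : ℕ) : DifferentiableOn ℂ (sh m) (Om m) := by
  intro y hy
  exact (differentiableAt_id.sub
    (differentiableAt_single_h m y (fiber_disc m y hy))).differentiableWithinAt

lemma Om_eq_image (m : ℕ) : Om m = shr m '' ball (0 : E m) 1 := by
  ext x
  constructor
  · intro hx
    exact ⟨sh m x, by simpa using (mem_Om m x).mp hx, shr_sh m x⟩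
  · rintro ⟨y, hy, rfl⟩
    rw [mem_Om, sh_shr]
    simpa using hy

lemma biholomorphic (m : ℕ) : BiholomorphicToBall (Om m) := by
  refine ⟨shr m, sh m, differentiableOn_shr m, differentiableOn_sh m, ?_, ?_, ?_, ?_⟩
  · intro y hy
    rw [Om_eq_image]
    exact mem_image_of_mem _ hy
  · intro x hx
    simpa using (mem_Om m x).mp hx
  · intro y _
    exact sh_shr m y
  · intro x _
    exact shr_sh m x

lemma isConnected_Om (m : ℕ) : IsConnected (Om m) := by
  rw [Om_eq_image]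
  refine IsConnected.image ?_ _ ((continuousOn_shr m).mono ?_)
  · exact ⟨nonempty_ball.mpr one_pos, (convex_ball (0 : E m) 1).isPreconnected⟩
  · intro y hy
    rw [mem_ball_zero_iff] at hy
    exact lt_of_le_of_lt (norm_coord_le m y 0) hy

lemma isBounded_Om (m : ℕ) : Bornology.IsBounded (Om m) := by
  refine (Metric.isBounded_closedBall (x := (0 : E m)) (r := 3)).subset ?_
  intro x hx
  rw [mem_closedBall_zero_iff]
  have h1 : ‖sh m x‖ < 1 := (mem_Om m x).mp hx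
  have h2 : ‖(EuclideanSpace.single 1 (h (x 0)) : E m)‖ ≤ 2 := by
    rw [PiLp.norm_single]
    exact h_bound _ (fiber_disc m x hx)
  calc ‖x‖ = ‖sh m x + EuclideanSpace.single 1 (h (x 0))‖ := by rw [sh, sub_add_cancel]
    _ ≤ ‖sh m x‖ + ‖(EuclideanSpace.single 1 (h (x 0)) : E m)‖ := norm_add_le _ _
    _ ≤ 3 := by linarith

end Pool.Agent.Helper12.DB
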