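import Pool.Agent.Helper12.DB8

/-!
Upper bound: the cutoff has bounded variation, and the consequence of the weak equation.
-/

set_option autoImplicit false

namespace Pool.Agent.Helper12.DB

open Complex MeasureTheory Metric Set Filter
open scoped Topology ENNReal ContDiff ComplexConjugate

lemma exists_deriv_bound : ∃ K : ℝ, 0 ≤ K ∧ ∀ t, |deriv Real.smoothTransition t| ≤ K := by
  have hcont : Continuous (deriv Real.smoothTransition) :=
    (Real.smoothTransition.contDiff (n := 1)).continuous_deriv le_rfl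
  have hsupp : HasCompactSupport (deriv Real.smoothTransition) := by
    refine HasCompactSupport.intro (isCompact_Icc (a := (0 : ℝ)) (b := 1)) (fun t ht => ?_)
    rw [mem_Icc, not_and_or, not_le, not_le] at ht
    rcases ht with ht | ht
    · have : Real.smoothTransition =ᶠ[𝓝 t] fun _ => 0 := by
        filter_upwards [Iio_mem_nhds ht] with s hs
        exact Real.smoothTransition.zero_of_nonpos (le_of_lt hs)
      rw [this.deriv_eq, deriv_const]
    · have : Real.smoothTransition =ᶠ[𝓝 t] fun _ => 1 := by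
        filter_upwards [Ioi_mem_nhds ht] with s hs
        exact Real.smoothTransition.one_of_one_le (le_of_lt hs)
      rw [this.deriv_eq, deriv_const]
  obtain ⟨K, hK⟩ := hsupp.exists_bound_of_continuous hcont
  exact ⟨K, (norm_nonneg _).trans (hK 0), fun t => hK t⟩

lemma fderiv_ct (δ : ℝ) (z v : ℂ) : fderiv ℝ (ct δ) z v
    = deriv Real.smoothTransition ((1 - ‖z‖ ^ 2) / δ - 1) * (-(2 * inner ℝ z v) / δ) := by
  have h1 : HasFDerivAt (fun z : ℂ => ‖z‖ ^ 2) (2 • innerSL ℝ z) z :=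
    (hasStrictFDerivAt_norm_sq z).hasFDerivAt
  obtain ⟨L, hL, hLv⟩ : ∃ L : ℂ →L[ℝ] ℝ, HasFDerivAt (fun z : ℂ => (1 - ‖z‖ ^ 2) / δ - 1) L z ∧
      ∀ v, L v = -(2 * inner ℝ z v) / δ := by
    refine ⟨_, (((h1.const_sub 1).const_mul δ⁻¹).sub_const 1).congr_of_eventuallyEq
      (Eventually.of_forall fun y => ?_), fun v => ?_⟩
    · simp only [div_eq_inv_mul]
    · simp
      ring
  have h3 : HasDerivAt Real.smoothTransition
      (deriv Real.smoothTransition ((1 - ‖z‖ ^ 2) / δ - 1)) ((1 - ‖z‖ ^ 2) / δ - 1) :=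
    ((Real.smoothTransition.contDiff (n := 1)).differentiable (by simp)).differentiableAt.hasDerivAt
  have h4 := h3.comp_hasFDerivAt z hL
  have h5 : fderiv ℝ (ct δ) z
      = deriv Real.smoothTransition ((1 - ‖z‖ ^ 2) / δ - 1) • L := h4.fderiv
  rw [h5, smul_apply, hLv, smul_eq_mul]

lemma fderiv_ofReal_comp (A : ℂ → ℝ) (z v : ℂ) (hA : DifferentiableAt ℝ A z) :
    fderiv ℝ (fun z => (A z : ℂ)) z v = ((fderiv ℝ A z v : ℝ) : ℂ) := by
  have h1 : HasFDerivAt (fun z => (A z : ℂ)) (Complex.ofRealCLM.comp (fderiv ℝ A z)) z :=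
    Complex.ofRealCLM.hasFDerivAt.comp z hA.hasFDerivAt
  rw [h1.fderiv]
  rfl

lemma dC_congr {A A' : ℂ → ℂ} {z : ℂ} (hA : A =ᶠ[𝓝 z] A') : dC A z = dC A' z := by
  unfold dC; rw [hA.fderiv_eq]

lemma norm_dC_le (K δ : ℝ) (hδ : 0 < δ) (hK : ∀ t, |deriv Real.smoothTransition t| ≤ K) (z : ℂ)
    (hz : ‖z‖ ≤ 1) : ‖dC (fun z => (ct δ z : ℂ)) z‖ ≤ 2 * K / δ := by
  have hd : DifferentiableAt ℝ (ct δ) z := ((contDiff_ct δ).differentiable (by simp)).differentiableAt
  have hv : ∀ v : ℂ, ‖v‖ = 1 → |fderiv ℝ (ct δ) z v| ≤ 2 * K / δ := by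
    intro v hv
    rw [fderiv_ct, abs_mul, abs_div, abs_neg, abs_mul, abs_two, abs_of_pos hδ]
    have h1 : |inner ℝ z v| ≤ 1 := by
      calc |inner ℝ z v| ≤ ‖z‖ * ‖v‖ := abs_real_inner_le_norm z v
        _ ≤ 1 := by rw [hv, mul_one]; exact hz
    calc |deriv Real.smoothTransition ((1 - ‖z‖ ^ 2) / δ - 1)| * (2 * |inner ℝ z v| / δ)
        ≤ K * (2 * 1 / δ) := by
          gcongr
          · exact (abs_nonneg _).trans (hK 0)
          · exact hK _
      _ = 2 * K / δ := by ring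
  unfold dC
  rw [fderiv_ofReal_comp _ _ _ hd, fderiv_ofReal_comp _ _ _ hd, norm_mul]
  have h1 := hv 1 (by simp)
  have h2 := hv I (by simp)
  have h3 : ‖((fderiv ℝ (ct δ) z 1 : ℝ) : ℂ) + I * ((fderiv ℝ (ct δ) z I : ℝ) : ℂ)‖
      ≤ 2 * K / δ + 2 * K / δ := by
    refine (norm_add_le _ _).trans (add_le_add ?_ ?_)
    · rw [Complex.norm_real]; exact h1
    · rw [norm_mul, Complex.norm_I, one_mul, Complex.norm_real]; exact h2
  have h4 : ‖(1 / 2 : ℂ)‖ = 1 / 2 := by simp
  rw [h4]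
  linarith

lemma dC_outside (δ : ℝ) (hδ : 0 < δ) (z : ℂ) (hz : 1 - ‖z‖ ^ 2 < δ ∨ 2 * δ < 1 - ‖z‖ ^ 2) :
    dC (fun z => (ct δ z : ℂ)) z = 0 := by
  have hc : Continuous (fun z : ℂ => 1 - ‖z‖ ^ 2) := by fun_prop
  rcases hz with hz | hz
  · have : (fun z => (ct δ z : ℂ)) =ᶠ[𝓝 z] fun _ => 0 := by
      filter_upwards [(isOpen_lt hc continuous_const).mem_nhds hz] with y hy
      rw [ct_eq_zero δ hδ y (le_of_lt hy)]; simp
    rw [dC_congr this]
    simp [dC]
  · have : (fun z => (ct δ z : ℂ)) =ᶠ[𝓝 z] fun _ => 1 := by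
      filter_upwards [(isOpen_lt continuous_const hc).mem_nhds hz] with y hy
      rw [ct_eq_one δ hδ y (le_of_lt hy)]; simp
    rw [dC_congr this]
    simp [dC]

lemma volume_annulus (δ : ℝ) (hδ : 0 < δ) (hδ2 : 2 * δ < 1) :
    volume {z : ℂ | δ ≤ 1 - ‖z‖ ^ 2 ∧ 1 - ‖z‖ ^ 2 ≤ 2 * δ} ≤ ENNReal.ofReal (Real.pi * δ) := by
  have hsub : {z : ℂ | δ ≤ 1 - ‖z‖ ^ 2 ∧ 1 - ‖z‖ ^ 2 ≤ 2 * δ}
      ⊆ closedBall (0 : ℂ) (√(1 - δ)) \ ball (0 : ℂ) (√(1 - 2 * δ)) := by
    intro z hz
    obtain ⟨h1, h2⟩ := hz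
    refine ⟨?_, ?_⟩
    · rw [mem_closedBall_zero_iff]
      exact Real.le_sqrt_of_sq_le (by linarith)
    · rw [mem_ball_zero_iff, not_lt]
      rw [Real.sqrt_le_left (norm_nonneg _)]
      linarith
  refine (measure_mono hsub).trans ?_
  have hle : ball (0 : ℂ) (√(1 - 2 * δ)) ⊆ closedBall (0 : ℂ) (√(1 - δ)) :=
    ball_subset_closedBall.trans (closedBall_subset_closedBall (Real.sqrt_le_sqrt (by linarith)))
  rw [measure_sdiff hle measurableSet_ball.nullMeasurableSet
    (measure_ball_lt_top).ne, Complex.volume_closedBall, Complex.volume_ball]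
  have hpi : ((NNReal.pi : NNReal) : ℝ≥0∞) = ENNReal.ofReal Real.pi := by
    rw [← NNReal.coe_real_pi, ENNReal.ofReal_coe_nnreal]
  rw [hpi, ← ENNReal.ofReal_pow (Real.sqrt_nonneg _), ← ENNReal.ofReal_pow (Real.sqrt_nonneg _),
    Real.sq_sqrt (by linarith), Real.sq_sqrt (by linarith),
    ← ENNReal.ofReal_mul (by linarith), ← ENNReal.ofReal_mul (by linarith),
    ← ENNReal.ofReal_sub _ (by have := Real.pi_pos; nlinarith)]
  apply ENNReal.ofReal_le_ofReal
  apply le_of_eq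
  ring

lemma variation (K δ : ℝ) (hδ : 0 < δ) (hδ2 : 2 * δ < 1)
    (hK : ∀ t, |deriv Real.smoothTransition t| ≤ K) :
    ∫⁻ z : ℂ, ‖dC (fun z => (ct δ z : ℂ)) z‖ₑ ≤ ENNReal.ofReal (2 * Real.pi * K) := by
  have hK0 : 0 ≤ K := (abs_nonneg _).trans (hK 0)
  set A : Set ℂ := {z : ℂ | δ ≤ 1 - ‖z‖ ^ 2 ∧ 1 - ‖z‖ ^ 2 ≤ 2 * δ} with hA
  have hmeas : MeasurableSet A := by
    have hc : Continuous (fun z : ℂ => 1 - ‖z‖ ^ 2) := by fun_prop
    exact ((isClosed_le continuous_const hc).inter (isClosed_le hc continuous_const)).measurableSet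
  calc ∫⁻ z : ℂ, ‖dC (fun z => (ct δ z : ℂ)) z‖ₑ
      ≤ ∫⁻ z : ℂ, A.indicator (fun _ => ENNReal.ofReal (2 * K / δ)) z := by
        refine lintegral_mono (fun z => ?_)
        by_cases hz : z ∈ A
        · rw [indicator_of_mem hz, ← ofReal_norm]
          apply ENNReal.ofReal_le_ofReal
          refine norm_dC_le K δ hδ hK z ?_
          have := hz.1
          nlinarith [norm_nonneg z]
        · have : dC (fun z => (ct δ z : ℂ)) z = 0 := by
            apply dC_outside δ hδ z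
            rw [hA, mem_ofPred_eq, not_and_or, not_le, not_le] at hz
            exact hz
          rw [this]; simp
    _ = ENNReal.ofReal (2 * K / δ) * volume A := by
        rw [lintegral_indicator hmeas, setLIntegral_const]
    _ ≤ ENNReal.ofReal (2 * K / δ) * ENNReal.ofReal (Real.pi * δ) := by
        gcongr
        exact volume_annulus δ hδ hδ2
    _ = ENNReal.ofReal (2 * Real.pi * K) := by
        rw [← ENNReal.ofReal_mul (by positivity)]
        congr 1; field_simp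

/-- Integrability of a bounded function against the derivative of a test function. -/
lemma integrable_dbar (m : ℕ) (u : E m → ℂ) (C : ℝ) (hu : FunBound (Om m) u C) (k : Fin (m + 2))
    (φ : E m → ℂ) (hφ : IsTest (Om m) φ) :
    Integrable (fun x => u x * dbar k φ x) (volume.restrict (Om m)) := by
  have h1 : ∀ v : E m, Integrable (fun x => fderiv ℝ φ x v) (volume : Measure (E m)) := by
    intro v
    have hcont : Continuous (fun x => fderiv ℝ φ x v) :=
      (hφ.1.continuous_fderiv (by simp)).clm_apply continuous_const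
    have hsupp : HasCompactSupport (fun x => fderiv ℝ φ x v) :=
      (hφ.2.1.fderiv ℝ).comp_left (g := fun L : E m →L[ℝ] ℂ => L v) (by simp)
    exact hcont.integrable_of_hasCompactSupport hsupp
  have h2 : Integrable (fun x => dbar k φ x) (volume : Measure (E m)) :=
    ((h1 _).add ((h1 _).const_mul I)).const_mul _
  exact h2.restrict.bdd_mul hu.1 hu.2

/-- Consequence of the weak equation. -/
lemma weak_consequence (m : ℕ) (δ η : ℝ) (hδ : 0 < δ) (hη : 0 < η) (hηδ : 2 * η < δ)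
    (u : E m → ℂ) (C : ℝ) (hu : FunBound (Om m) u C) (hw : ∀ j, WeakDbar (Om m) j u (frm m j)) :
    ‖∫ x in Om m, frm m 1 x * phi1 m δ η x‖ₑ ≤ ENNReal.ofReal C *
      ∫⁻ x : E m, ‖dC (fun z => (ct δ z : ℂ)) (x 0)‖ₑ * ENNReal.ofReal (W m η (sh m x)) := by
  have t0 := isTest_phi m δ η hδ hη hηδ
  have t1 := isTest_phi1 m δ η hδ hη hηδ
  have e0 := hw 0 (phi m δ η) t0
  have e1 := hw 1 (phi1 m δ η) t1
  have f0 : ∀ x : E m, frm m 0 x = 0 := fun x => by simp [frm]
  simp only [f0, zero_mul, integral_zero, neg_zero] at e0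
  have e2 : ∫ x in Om m, frm m 1 x * phi1 m δ η x
      = - ∫ x in Om m, (u x * dbar 0 (phi m δ η) x + u x * dbar 1 (phi1 m δ η) x) := by
    rw [integral_add (integrable_dbar m u C hu 0 _ t0) (integrable_dbar m u C hu 1 _ t1), e0, e1]
    simp
  rw [e2, enorm_neg]
  refine (enorm_integral_le_lintegral_enorm _).trans ?_
  calc ∫⁻ x in Om m, ‖u x * dbar 0 (phi m δ η) x + u x * dbar 1 (phi1 m δ η) x‖ₑ
      ≤ ∫⁻ x in Om m, ENNReal.ofReal C *
          (‖dC (fun z => (ct δ z : ℂ)) (x 0)‖ₑ * ENNReal.ofReal (W m η (sh m x))) := by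
        refine lintegral_mono_ae ?_
        filter_upwards [hu.2, ae_restrict_mem (isOpen_Om m).measurableSet] with x hx hxO
        rw [← mul_add, key_identity m δ η x (fiber_disc m x hxO), enorm_mul, enorm_mul]
        gcongr
        · rw [← ofReal_norm]
          exact ENNReal.ofReal_le_ofReal hx
        · rw [B, ← ofReal_norm, Complex.norm_real, Real.norm_of_nonneg (W_nonneg _ _ _)]
    _ ≤ ∫⁻ x : E m, ENNReal.ofReal C *
          (‖dC (fun z => (ct δ z : ℂ)) (x 0)‖ₑ * ENNReal.ofReal (W m η (sh m x))) :=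
        setLIntegral_le_lintegral _ _
    _ = _ := by rw [lintegral_const_mul' _ _ ENNReal.ofReal_ne_top]

end Pool.Agent.Helper12.DB
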