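import Mathlib

namespace Pool.Agent.Helper12.Godefroy

open Set Metric Topology

variable {X : Type*} [NormedAddCommGroup X] [NormedSpace ℝ X]

/-- The canonical embedding of a real normed space in its bidual. -/
noncomputable abbrev J : X →L[ℝ] ((X →L[ℝ] ℝ) →L[ℝ] ℝ) := NormedSpace.inclusionInDoubleDual ℝ X

theorem J_apply (x : X) (f : X →L[ℝ] ℝ) : J x f = f x := rfl

theorem norm_J (x : X) : ‖J x‖ = ‖x‖ :=
  (NormedSpace.inclusionInDoubleDualLi (E := X) ℝ).norm_map x

theorem exists_lt_norm_apply (F : X →L[ℝ] ℝ) {ρ r : ℝ} (hρ : 0 ≤ ρ) (hr : ρ < r) :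
    ∃ x : X, ‖x‖ < r ∧ ρ * ‖F‖ ≤ F x := by
  have hr0 : 0 < r := lt_of_le_of_lt hρ hr
  by_cases hF : ‖F‖ = 0
  · refine ⟨0, by simpa using hr0, ?_⟩
    simp [hF]
  · have hF' : 0 < ‖F‖ := lt_of_le_of_ne (norm_nonneg _) (Ne.symm hF)
    have h1 : ρ / r * ‖F‖ < ‖F‖ := by
      have : ρ / r < 1 := (div_lt_one hr0).2 hr
      nlinarith
    obtain ⟨x, hx1, hx2⟩ := F.exists_lt_apply_of_lt_opNorm h1
    have key : ∀ s : ℝ, |s| = 1 → s * F x = |F x| → ∃ x : X, ‖x‖ < r ∧ ρ * ‖F‖ ≤ F x := by
      intro s hs hsx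
      refine ⟨(r * s) • x, ?_, ?_⟩
      · rw [norm_smul, Real.norm_eq_abs, abs_mul, hs, abs_of_pos hr0]
        nlinarith
      · rw [map_smul, smul_eq_mul, mul_assoc, hsx]
        rw [Real.norm_eq_abs] at hx2
        have : ρ * ‖F‖ = r * (ρ / r * ‖F‖) := by field_simp
        rw [this]
        nlinarith
    rcases le_total 0 (F x) with h | h
    · exact key 1 (by simp) (by rw [abs_of_nonneg h]; ring)
    · exact key (-1) (by simp) (by rw [abs_of_nonpos h]; ring)

/-- A Helly-type lemma: finitely many strict norm inequalities satisfied by a bidual element `G`,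
together with finitely many weak-star approximations, can be realised by an element of `X`. -/
theorem helly {ι κ : Type*} [Fintype ι] [Fintype κ] (G : (X →L[ℝ] ℝ) →L[ℝ] ℝ)
    (z : ι → X) (c r : ι → ℝ) (hr : ∀ i, ‖J (z i) + c i • G‖ < r i)
    (f : κ → (X →L[ℝ] ℝ)) (ε : ℝ) (hε : 0 < ε) :
    ∃ y : X, (∀ i, ‖z i + c i • y‖ < r i) ∧ (∀ j, |f j y - G (f j)| < ε) := by
  classical
  set T : X →L[ℝ] ((ι → X) × (κ → ℝ)) :=
    (ContinuousLinearMap.pi fun i => c i • ContinuousLinearMap.id ℝ X).prod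
      (ContinuousLinearMap.pi f) with hT
  set O : Set ((ι → X) × (κ → ℝ)) :=
    (Set.pi univ fun i => ball (-(z i)) (r i)) ×ˢ (Set.pi univ fun j => ball (G (f j)) ε) with hO
  by_contra hcon
  set R : Submodule ℝ ((ι → X) × (κ → ℝ)) :=
    LinearMap.range (T : X →ₗ[ℝ] ((ι → X) × (κ → ℝ))) with hR
  have hdisj : Disjoint O (R : Set ((ι → X) × (κ → ℝ))) := by
    rw [Set.disjoint_left]
    rintro a ha ⟨y, rfl⟩
    apply hcon
    refine ⟨y, fun i => ?_, fun j => ?_⟩
    · have := ha.1 i (mem_univ _)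
      simp [hT, mem_ball, dist_eq_norm] at this
      rwa [add_comm]
    · have := ha.2 j (mem_univ _)
      simpa [hT, mem_ball, dist_eq_norm] using this
  have hconv : Convex ℝ O := by
    rw [hO]
    refine Convex.prod (convex_pi fun i _ => convex_ball _ _) (convex_pi fun i _ => convex_ball _ _)
  have hopen : IsOpen O := by
    rw [hO]
    exact (isOpen_set_pi finite_univ fun i _ => isOpen_ball).prod
      (isOpen_set_pi finite_univ fun i _ => isOpen_ball)
  obtain ⟨F, u, hF1, hF2⟩ := geometric_hahn_banach_open hconv hopen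
    (Submodule.convex R) hdisj
  -- F vanishes on the range of T
  have hFT : ∀ y, F (T y) = 0 := by
    intro y
    by_contra hne
    have h1 := hF2 (T (((u - 1) / F (T y)) • y)) ⟨_, rfl⟩
    rw [map_smul, map_smul, smul_eq_mul, div_mul_cancel₀ _ hne] at h1
    linarith
  have hu : u ≤ 0 := by
    have := hF2 (T 0) ⟨0, rfl⟩
    rwa [hFT] at this
  -- decompose F
  set Fi : ι → (X →L[ℝ] ℝ) := fun i =>
    F.comp ((ContinuousLinearMap.inl ℝ (ι → X) (κ → ℝ)).comp
      (ContinuousLinearMap.single ℝ (fun _ : ι => X) i)) with hFi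
  set w : κ → ℝ := fun j => F (0, Pi.single j 1) with hw
  have hdec : ∀ (a : ι → X) (t : κ → ℝ), F (a, t) = ∑ i, Fi i (a i) + ∑ j, t j * w j := by
    intro a t
    have h1 : (a, t) = (ContinuousLinearMap.inl ℝ (ι → X) (κ → ℝ) a)
        + (ContinuousLinearMap.inr ℝ (ι → X) (κ → ℝ) t) := by simp
    rw [h1, map_add]
    congr 1
    · have h2 : a = ∑ i, (ContinuousLinearMap.single ℝ (fun _ : ι => X) i) (a i) := by
        ext k
        simp [Finset.sum_apply]
      conv_lhs => rw [h2]
      rw [map_sum, map_sum]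
      rfl
    · have h2 : t = ∑ j, t j • (Pi.single j (1 : ℝ) : κ → ℝ) := by
        ext k
        simp [Finset.sum_apply, Pi.single_apply]
      conv_lhs => rw [h2]
      rw [map_sum, map_sum]
      refine Finset.sum_congr rfl fun j _ => ?_
      rw [map_smul, map_smul, smul_eq_mul]
      rfl
  have hzero : ∑ i, c i • Fi i + ∑ j, w j • f j = 0 := by
    ext y
    have := hFT y
    have h3 : T y = ((fun i => c i • y), (fun j => f j y)) := by
      simp only [hT]
      rfl
    rw [h3, hdec] at this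
    simp only [map_smul, smul_eq_mul] at this
    simp only [add_apply, sum_apply,
      smul_apply, smul_eq_mul, zero_apply]
    rw [← this]
    congr 1
    exact Finset.sum_congr rfl fun j _ => mul_comm _ _
  have hG0 : ∑ i, c i * G (Fi i) + ∑ j, w j * G (f j) = 0 := by
    have := congrArg G hzero
    simpa [map_add, map_sum, map_smul, smul_eq_mul] using this
  -- choose a good point of O
  have hx : ∀ i, ∃ x : X, ‖x‖ < r i ∧ ‖J (z i) + c i • G‖ * ‖Fi i‖ ≤ Fi i x := fun i =>
    exists_lt_norm_apply (Fi i) (norm_nonneg (J (z i) + c i • G)) (hr i)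
  choose x hx1 hx2 using hx
  have hmem : ((fun i => -(z i) + x i), (fun j => G (f j))) ∈ O := by
    refine ⟨fun i _ => ?_, fun j _ => ?_⟩
    · simpa [mem_ball, dist_eq_norm] using hx1 i
    · simpa [mem_ball] using hε
  have hlt := hF1 _ hmem
  rw [hdec] at hlt
  have hge : 0 ≤ ∑ i, Fi i (-(z i) + x i) + ∑ j, G (f j) * w j := by
    have h4 : ∑ j, G (f j) * w j = - ∑ i, c i * G (Fi i) := by
      have : ∑ j, G (f j) * w j = ∑ j, w j * G (f j) :=
        Finset.sum_congr rfl fun j _ => mul_comm _ _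
      linarith
    rw [h4, ← sub_eq_add_neg, ← Finset.sum_sub_distrib]
    refine Finset.sum_nonneg fun i _ => ?_
    have h5 : (J (z i) + c i • G) (Fi i) ≤ ‖J (z i) + c i • G‖ * ‖Fi i‖ :=
      le_trans (le_abs_self _) ((J (z i) + c i • G).le_opNorm (Fi i))
    have h6 : (J (z i) + c i • G) (Fi i) = Fi i (z i) + c i * G (Fi i) := by
      simp [add_apply]
    have h7 := hx2 i
    rw [map_add, map_neg]
    linarith
  linarith

end Pool.Agent.Helper12.Godefroy
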