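import Mathlib
import Pool.Agent.Helper12.Godefroy1

namespace Pool.Agent.Helper12.Godefroy

open Set Metric Topology

/-- A function with bounded difference quotients at `0` has small second differences at some
dyadic scale. -/
theorem dyadic (φ : ℝ → ℝ) (C : ℝ) (hC : ∀ σ, 0 ≤ σ → |φ σ - φ 0| ≤ C * σ)
    {δ σ₀ : ℝ} (hδ : 0 < δ) (hσ : 0 < σ₀) :
    ∃ σ, 0 < σ ∧ σ ≤ σ₀ ∧ φ (2 * σ) - 2 * φ σ + φ 0 ≤ δ * σ := by
  by_contra hcon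
  push Not at hcon
  have hD : ∀ σ, 0 < σ → |(φ σ - φ 0) / σ| ≤ C := by
    intro σ h
    rw [abs_div, abs_of_pos h, div_le_iff₀ h]
    exact hC σ h.le
  have hstep : ∀ σ, 0 < σ → σ ≤ σ₀ → (φ σ - φ 0) / σ + δ / 2 ≤ (φ (2 * σ) - φ 0) / (2 * σ) := by
    intro σ h1 h2
    have h3 := hcon σ h1 h2
    rw [div_add' _ _ _ h1.ne', div_le_div_iff₀ h1 (by positivity)]
    nlinarith
  have hind : ∀ n : ℕ, (φ (σ₀ / 2 ^ n) - φ 0) / (σ₀ / 2 ^ n) + n * (δ / 2)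
      ≤ (φ σ₀ - φ 0) / σ₀ := by
    intro n
    induction n with
    | zero => simp
    | succ n ih =>
      have hp : 0 < σ₀ / 2 ^ (n + 1) := by positivity
      have hle : σ₀ / 2 ^ (n + 1) ≤ σ₀ := by
        apply div_le_self hσ.le
        exact one_le_pow₀ (by norm_num)
      have h4 := hstep _ hp hle
      have h5 : 2 * (σ₀ / 2 ^ (n + 1)) = σ₀ / 2 ^ n := by
        rw [pow_succ]; field_simp
      rw [h5] at h4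
      push_cast
      linarith
  obtain ⟨n, hn⟩ := exists_nat_gt (4 * C / δ)
  have h6 := hind n
  have h7 := hD (σ₀ / 2 ^ n) (by positivity)
  have h8 := hD σ₀ hσ
  rw [abs_le] at h7 h8
  have h9 : 4 * C < n * δ := by
    rwa [div_lt_iff₀ hδ] at hn
  nlinarith [h7.1, h8.2]

variable {X : Type*} [NormedAddCommGroup X] [NormedSpace ℝ X]

theorem exists_near_max (F : (X →L[ℝ] ℝ) →L[ℝ] ℝ) {ε : ℝ} (hε : 0 < ε) :
    ∃ v : X →L[ℝ] ℝ, ‖v‖ ≤ 1 ∧ ‖F‖ - ε ≤ F v := by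
  obtain ⟨x, hx1, hx2⟩ := F.exists_lt_apply_of_lt_opNorm (show ‖F‖ - ε < ‖F‖ by linarith)
  rw [Real.norm_eq_abs] at hx2
  rcases le_total 0 (F x) with h | h
  · exact ⟨x, hx1.le, by rw [abs_of_nonneg h] at hx2; exact hx2.le⟩
  · exact ⟨-x, by rw [norm_neg]; exact hx1.le, by
      rw [abs_of_nonpos h] at hx2; rw [map_neg]; exact hx2.le⟩

theorem apply_le_norm (F : (X →L[ℝ] ℝ) →L[ℝ] ℝ) {v : X →L[ℝ] ℝ} (hv : ‖v‖ ≤ 1) : F v ≤ ‖F‖ := by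
  have h1 : F v ≤ ‖F‖ * ‖v‖ := le_trans (le_abs_self _) (F.le_opNorm v)
  nlinarith [norm_nonneg F]

theorem apply_le_norm' (x : X) {v : X →L[ℝ] ℝ} (hv : ‖v‖ ≤ 1) : v x ≤ ‖x‖ := by
  have h1 : v x ≤ ‖v‖ * ‖x‖ := le_trans (le_abs_self _) (v.le_opNorm x)
  nlinarith [norm_nonneg x]

theorem neg_norm_le_apply' (x : X) {v : X →L[ℝ] ℝ} (hv : ‖v‖ ≤ 1) : -‖x‖ ≤ v x := by
  have h1 := apply_le_norm' (-x) hv
  rw [map_neg, norm_neg] at h1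
  linarith

theorem norm_le_of_forall (F : (X →L[ℝ] ℝ) →L[ℝ] ℝ) {C : ℝ}
    (h : ∀ v : X →L[ℝ] ℝ, ‖v‖ ≤ 1 → F v ≤ C) : ‖F‖ ≤ C := by
  refine le_of_forall_pos_le_add fun ε hε => ?_
  obtain ⟨v, hv, hv2⟩ := exists_near_max F hε
  have := h v hv
  linarith

theorem bidual_apply (G : (X →L[ℝ] ℝ) →L[ℝ] ℝ) (z : X) (c : ℝ) (v : X →L[ℝ] ℝ) :
    (J z + c • G) v = v z + c * G v := by
  simp [add_apply]

/-- The slope condition is monotone in the scale. -/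
theorem slope_mono (G : (X →L[ℝ] ℝ) →L[ℝ] ℝ) {z : X} {Λ Λ₂ β : ℝ} (hΛ : 0 < Λ) (h : Λ ≤ Λ₂)
    (hS : ‖z‖ + Λ * β ≤ ‖J z + Λ • G‖) : ‖z‖ + Λ₂ * β ≤ ‖J z + Λ₂ • G‖ := by
  have hΛ₂ : 0 < Λ₂ := lt_of_lt_of_le hΛ h
  set θ := Λ / Λ₂ with hθ
  have hθ0 : 0 < θ := by positivity
  have hθ1 : θ ≤ 1 := (div_le_one hΛ₂).2 h
  have hθΛ : θ * Λ₂ = Λ := by rw [hθ]; field_simp
  have h2 : ‖J z + Λ • G‖ ≤ (1 - θ) * ‖z‖ + θ * ‖J z + Λ₂ • G‖ := by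
    refine norm_le_of_forall (J z + Λ • G) fun v hv => ?_
    have e1 := apply_le_norm (J z + Λ₂ • G) hv
    have e2 := apply_le_norm' z hv
    rw [bidual_apply] at e1 ⊢
    have e3 := mul_le_mul_of_nonneg_left e1 hθ0.le
    have e4 := mul_le_mul_of_nonneg_left e2 (by linarith : (0 : ℝ) ≤ 1 - θ)
    have e5 : v z + Λ * G v = (1 - θ) * v z + θ * (v z + Λ₂ * G v) := by
      rw [← hθΛ]; ring
    rw [e5]
    linarith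
  have h3 : θ * (‖z‖ + Λ₂ * β) ≤ θ * ‖J z + Λ₂ • G‖ := by
    have : θ * (‖z‖ + Λ₂ * β) = θ * ‖z‖ + Λ * β := by rw [← hθΛ]; ring
    rw [this]
    linarith
  exact le_of_mul_le_mul_left h3 hθ0

/-- One Simons step: slopes. -/
theorem step_slope (G : (X →L[ℝ] ℝ) →L[ℝ] ℝ) {z y : X} {v : X →L[ℝ] ℝ} (hv : ‖v‖ ≤ 1)
    {Λ Λ' P ε β : ℝ} (hΛ : 0 < Λ) (hΛ' : 0 < Λ') (hle : Λ' ≤ Λ) (hε : 0 ≤ ε)
    (h1 : ‖z + Λ • y‖ ≤ P + ε) (h2 : P - ε ≤ v z + Λ * G v) (h3 : G v - ε ≤ v y)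
    (h4 : ‖z‖ + Λ * β ≤ P) :
    ‖z + (Λ - Λ') • y‖ + Λ' * β ≤ ‖J (z + (Λ - Λ') • y) + Λ' • G‖ + (2 + Λ) * ε := by
  have hlow : P - ε - Λ * ε ≤ ‖J (z + (Λ - Λ') • y) + Λ' • G‖ := by
    refine le_trans ?_ (apply_le_norm (J (z + (Λ - Λ') • y) + Λ' • G) hv)
    rw [bidual_apply, map_add, map_smul, smul_eq_mul]
    nlinarith
  set θ := Λ' / Λ with hθ
  have hθ0 : 0 < θ := by positivity
  have hθ1 : θ ≤ 1 := (div_le_one hΛ).2 hle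
  have hθΛ : θ * Λ = Λ' := by rw [hθ]; field_simp
  have hup : ‖z + (Λ - Λ') • y‖ ≤ (1 - θ) * (P + ε) + θ * ‖z‖ := by
    have : z + (Λ - Λ') • y = (1 - θ) • (z + Λ • y) + θ • z := by
      rw [← hθΛ]; module
    rw [this]
    refine (norm_add_le _ _).trans ?_
    rw [norm_smul, norm_smul, Real.norm_of_nonneg (by linarith : (0 : ℝ) ≤ 1 - θ),
      Real.norm_of_nonneg hθ0.le]
    have := mul_le_mul_of_nonneg_left h1 (by linarith : (0 : ℝ) ≤ 1 - θ)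
    linarith
  have h5 : θ * (‖z‖ + Λ * β) ≤ θ * P := mul_le_mul_of_nonneg_left h4 hθ0.le
  have h6 : θ * (‖z‖ + Λ * β) = θ * ‖z‖ + Λ' * β := by rw [← hθΛ]; ring
  have h7 : 0 ≤ θ * ε := by positivity
  nlinarith

/-- One Simons step: lower bound of the norm of the new point. -/
theorem step_lower (G : (X →L[ℝ] ℝ) →L[ℝ] ℝ) {z y : X} {v : X →L[ℝ] ℝ} (hv : ‖v‖ ≤ 1)
    {Λ Λ' P ε : ℝ} (hΛ' : 0 < Λ') (hle : Λ' ≤ Λ) (hε : 0 ≤ ε)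
    (h2 : P - ε ≤ v z + Λ * G v) (h3 : G v - ε ≤ v y) :
    P - Λ' * ‖G‖ - (1 + Λ) * ε ≤ ‖z + (Λ - Λ') • y‖ := by
  refine le_trans ?_ (apply_le_norm' (z + (Λ - Λ') • y) hv)
  have h4 : v (z + (Λ - Λ') • y) = v z + (Λ - Λ') * v y := by simp
  have h5 := apply_le_norm G hv
  rw [h4]
  nlinarith [mul_le_mul_of_nonneg_left h3 (by linarith : (0 : ℝ) ≤ Λ - Λ'),
    mul_le_mul_of_nonneg_left h5 hΛ'.le, mul_nonneg hΛ'.le hε]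

end Pool.Agent.Helper12.Godefroy
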