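import Mathlib
import Pool.Agent.Helper12.Godefroy2

namespace Pool.Agent.Helper12.Godefroy

open Set Metric Topology

variable {X : Type*} [NormedAddCommGroup X] [NormedSpace ℝ X]

theorem bidual_add_le (G : (X →L[ℝ] ℝ) →L[ℝ] ℝ) (z w : X) (Λ : ℝ) :
    ‖J (z + w) + Λ • G‖ ≤ ‖J z + Λ • G‖ + ‖w‖ := by
  refine norm_le_of_forall (J (z + w) + Λ • G) fun v hv => ?_
  have e1 := apply_le_norm (J z + Λ • G) hv
  have e2 := apply_le_norm' w hv
  rw [bidual_apply] at e1 ⊢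
  rw [map_add]
  linarith

theorem bidual_perturb (G : (X →L[ℝ] ℝ) →L[ℝ] ℝ) (z h : X) (Λ σ : ℝ) :
    J z + Λ • (G + σ • J h) = J (z + (Λ * σ) • h) + Λ • G := by
  ext v
  simp only [add_apply, smul_apply, map_add, map_smul, smul_eq_mul]
  ring

/-- Reduction of the oscillation of `h` on near-maximisers, keeping the slope towards `G`. -/
theorem hstep (G : (X →L[ℝ] ℝ) →L[ℝ] ℝ) {z h : X} {Λ β κ δ Λmax C : ℝ} (hΛ : 0 < Λ)
    (hκ : 0 < κ) (hδ : 0 < δ) (hmax : 0 < Λmax) (hC : 0 ≤ C)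
    (hS : ‖z‖ + Λ * β ≤ ‖J z + Λ • G‖) :
    ∃ (z' : X) (Λ' : ℝ), 0 < Λ' ∧ Λ' ≤ Λmax ∧ ‖z' - z‖ ≤ (‖G‖ + 2) * Λ ∧
      ‖z'‖ + Λ' * (β - κ) ≤ ‖J z' + Λ' • G‖ ∧
      ∀ b₁ b₂ : X →L[ℝ] ℝ, ‖b₁‖ ≤ 1 → ‖b₂‖ ≤ 1 → ‖z'‖ - C * Λ' ≤ b₁ z' → ‖z'‖ - C * Λ' ≤ b₂ z' →
        b₁ h - b₂ h ≤ δ := by
  have hh : 0 ≤ ‖h‖ := norm_nonneg h
  have hG : 0 ≤ ‖G‖ := norm_nonneg G
  set L : ℝ := ‖G‖ + 2 with hL
  have hLpos : 0 < L := by positivity
  set φ : ℝ → ℝ := fun σ => ‖J (z + (Λ * σ) • h) + Λ • G‖ with hφ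
  have hφ0 : φ 0 = ‖J z + Λ • G‖ := by simp [hφ]
  have hφbound : ∀ σ, 0 ≤ σ → |φ σ - φ 0| ≤ (Λ * ‖h‖) * σ := by
    intro σ hσ
    have hn : ‖(Λ * σ) • h‖ = Λ * ‖h‖ * σ := by
      rw [norm_smul, Real.norm_of_nonneg (by positivity)]; ring
    rw [hφ0, abs_le]
    constructor
    · have h1 := bidual_add_le G (z + (Λ * σ) • h) (-((Λ * σ) • h)) Λ
      rw [norm_neg, hn, add_neg_cancel_right] at h1
      simp only [hφ]
      linarith
    · have h1 := bidual_add_le G z ((Λ * σ) • h) Λ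
      rw [hn] at h1
      simp only [hφ]
      linarith
  set σ₀ : ℝ := min (κ / (4 * (‖h‖ + 1))) (1 / (‖h‖ + 1)) with hσ₀
  have hσ₀pos : 0 < σ₀ := by
    rw [hσ₀]
    refine lt_min (by positivity) (by positivity)
  obtain ⟨σ, hσ, hσle, hσ2⟩ := dyadic φ (Λ * ‖h‖) hφbound
    (show 0 < δ * Λ / 2 by positivity) hσ₀pos
  have hσh1 : 2 * (σ * ‖h‖) ≤ κ / 2 := by
    have h1 : σ ≤ κ / (4 * (‖h‖ + 1)) := hσle.trans (min_le_left _ _)
    have h2 : σ * (4 * (‖h‖ + 1)) ≤ κ := by rwa [le_div_iff₀ (by positivity)] at h1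
    nlinarith
  have hσh2 : σ * ‖h‖ < 1 := by
    have h1 : σ ≤ 1 / (‖h‖ + 1) := hσle.trans (min_le_right _ _)
    have h2 : σ * (‖h‖ + 1) ≤ 1 := by rwa [le_div_iff₀ (by positivity)] at h1
    nlinarith
  have hφP1 : ∀ s, J z + Λ • (G + s • J h) = J (z + (Λ * s) • h) + Λ • G :=
    fun s => bidual_perturb G z h Λ s
  set Gσ : (X →L[ℝ] ℝ) →L[ℝ] ℝ := G + σ • J h with hGσ
  have hGσnorm : ‖Gσ‖ ≤ ‖G‖ + σ * ‖h‖ := by
    refine norm_le_of_forall Gσ fun v hv => ?_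
    have e1 := apply_le_norm G hv
    have e2 := apply_le_norm' h hv
    have e3 : Gσ v = G v + σ * v h := by simp [hGσ, add_apply]
    rw [e3]
    nlinarith
  have hL1 : ‖Gσ‖ < L := by rw [hL]; linarith
  -- the two small parameters
  set Λ' : ℝ := min Λmax (min (Λ / 2) (δ * Λ * σ / (16 * (C + 2 * L + 1)))) with hΛ'def
  have hΛ' : 0 < Λ' := by
    rw [hΛ'def]
    refine lt_min hmax (lt_min (by positivity) (by positivity))
  have hΛ'1 : Λ' ≤ Λmax := min_le_left _ _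
  have hΛ'2 : Λ' ≤ Λ / 2 := (min_le_right _ _).trans (min_le_left _ _)
  have hΛ'3 : Λ' * (16 * (C + 2 * L + 1)) ≤ δ * Λ * σ := by
    have : Λ' ≤ δ * Λ * σ / (16 * (C + 2 * L + 1)) := (min_le_right _ _).trans (min_le_right _ _)
    rwa [le_div_iff₀ (by positivity)] at this
  set ε : ℝ := min (Λ' * κ / (2 * (2 + Λ))) (δ * Λ * σ / (16 * (2 + Λ))) with hεdef
  have hε : 0 < ε := by
    rw [hεdef]
    refine lt_min (by positivity) (by positivity)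
  have hε1 : (2 + Λ) * ε ≤ Λ' * κ / 2 := by
    have h1 : ε ≤ Λ' * κ / (2 * (2 + Λ)) := min_le_left _ _
    rw [le_div_iff₀ (by positivity)] at h1
    linarith
  have hε2 : (2 + Λ) * ε ≤ δ * Λ * σ / 16 := by
    have h1 : ε ≤ δ * Λ * σ / (16 * (2 + Λ)) := min_le_right _ _
    rw [le_div_iff₀ (by positivity)] at h1
    linarith
  -- a near maximiser
  obtain ⟨v, hv, hv2⟩ := exists_near_max (J z + Λ • Gσ) hε
  rw [bidual_apply, hφP1] at hv2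
  change φ σ - ε ≤ v z + Λ * Gσ v at hv2
  -- Helly
  have hHelly : ∀ i : Fin 4, ‖J ((![z + (Λ * σ) • h, z, z + (Λ * (-σ)) • h, 0] : Fin 4 → X) i)
      + (![Λ, Λ, Λ, 1] : Fin 4 → ℝ) i • Gσ‖ <
      (![φ (2 * σ) + ε, φ σ + ε, φ 0 + ε, L] : Fin 4 → ℝ) i := by
    intro i
    fin_cases i
    · show ‖J (z + (Λ * σ) • h) + Λ • Gσ‖ < φ (2 * σ) + ε
      have : J (z + (Λ * σ) • h) + Λ • Gσ = J (z + (Λ * (2 * σ)) • h) + Λ • G := by
        rw [hGσ, bidual_perturb]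
        congr 2
        module
      rw [this]
      change φ (2 * σ) < φ (2 * σ) + ε
      linarith
    · show ‖J z + Λ • Gσ‖ < φ σ + ε
      rw [hφP1]
      change φ σ < φ σ + ε
      linarith
    · show ‖J (z + (Λ * (-σ)) • h) + Λ • Gσ‖ < φ 0 + ε
      have : J (z + (Λ * (-σ)) • h) + Λ • Gσ = J z + Λ • G := by
        rw [hGσ, bidual_perturb]
        congr 2
        module
      rw [this, hφ0]
      linarith
    · show ‖J (0 : X) + (1 : ℝ) • Gσ‖ < L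
      simpa using hL1
  obtain ⟨y, hy1, hy2⟩ := helly Gσ _ _ _ hHelly (fun _ : Unit => v) ε hε
  have hyA : ‖z + (Λ * σ) • h + Λ • y‖ < φ (2 * σ) + ε := hy1 0
  have hyB : ‖z + Λ • y‖ < φ σ + ε := hy1 1
  have hyC : ‖z + (Λ * (-σ)) • h + Λ • y‖ < φ 0 + ε := hy1 2
  have hyD : ‖(0 : X) + (1 : ℝ) • y‖ < L := hy1 3
  have hyE : |v y - Gσ v| < ε := hy2 ()
  rw [zero_add, one_smul] at hyD
  rw [abs_lt] at hyE
  have hle : Λ' ≤ Λ := by linarith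
  refine ⟨z + (Λ - Λ') • y, Λ', hΛ', hΛ'1, ?_, ?_, ?_⟩
  · rw [add_sub_cancel_left, norm_smul, Real.norm_of_nonneg (by linarith : (0 : ℝ) ≤ Λ - Λ')]
    have : (Λ - Λ') * ‖y‖ ≤ Λ * ‖y‖ := by
      apply mul_le_mul_of_nonneg_right _ (norm_nonneg y); linarith
    nlinarith [norm_nonneg y]
  · have h4 : ‖z‖ + Λ * (β - σ * ‖h‖) ≤ φ σ := by
      have := hφbound σ hσ.le
      rw [abs_le, hφ0] at this
      nlinarith [this.1]
    have h5 := step_slope Gσ hv hΛ hΛ' hle hε.le hyB.le hv2 (by linarith [hyE.1]) h4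
    have h6 : ‖J (z + (Λ - Λ') • y) + Λ' • Gσ‖ ≤
        ‖J (z + (Λ - Λ') • y) + Λ' • G‖ + Λ' * (σ * ‖h‖) := by
      rw [hGσ, bidual_perturb]
      refine (bidual_add_le G _ _ _).trans ?_
      rw [norm_smul, Real.norm_of_nonneg (by positivity)]
      linarith
    have h7 : Λ' * (2 * (σ * ‖h‖)) ≤ Λ' * (κ / 2) := mul_le_mul_of_nonneg_left hσh1 hΛ'.le
    linarith
  · intro b₁ b₂ hb₁ hb₂ hm₁ hm₂
    have hlow := step_lower Gσ hv hΛ' hle hε.le hv2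
      (show Gσ v - ε ≤ v y by linarith [hyE.1])
    have hGL : Λ' * ‖Gσ‖ ≤ Λ' * L := mul_le_mul_of_nonneg_left hL1.le hΛ'.le
    -- lower bound for near maximisers at z + Λ y
    have key : ∀ b : X →L[ℝ] ℝ, ‖b‖ ≤ 1 → ‖z + (Λ - Λ') • y‖ - C * Λ' ≤ b (z + (Λ - Λ') • y) →
        φ σ - (C + 2 * L) * Λ' - (1 + Λ) * ε ≤ b (z + Λ • y) := by
      intro b hb hbm
      have e1 : b (z + Λ • y) = b (z + (Λ - Λ') • y) + Λ' * b y := by
        simp only [map_add, map_smul, smul_eq_mul]; ring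
      have e2 := neg_norm_le_apply' y hb
      have e3 : Λ' * (-L) ≤ Λ' * b y := mul_le_mul_of_nonneg_left (by linarith) hΛ'.le
      rw [e1]
      nlinarith
    have key1 : Λ * σ * b₁ h ≤ φ (2 * σ) + ε - (φ σ - (C + 2 * L) * Λ' - (1 + Λ) * ε) := by
      have e1 := key b₁ hb₁ hm₁
      have e2 := apply_le_norm' (z + (Λ * σ) • h + Λ • y) hb₁
      have e3 : b₁ (z + (Λ * σ) • h + Λ • y) = b₁ (z + Λ • y) + Λ * σ * b₁ h := by
        simp only [map_add, map_smul, smul_eq_mul]; ring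
      linarith
    have key2 : -(Λ * σ * b₂ h) ≤ φ 0 + ε - (φ σ - (C + 2 * L) * Λ' - (1 + Λ) * ε) := by
      have e1 := key b₂ hb₂ hm₂
      have e2 := apply_le_norm' (z + (Λ * (-σ)) • h + Λ • y) hb₂
      have e3 : b₂ (z + (Λ * (-σ)) • h + Λ • y) = b₂ (z + Λ • y) - Λ * σ * b₂ h := by
        simp only [map_add, map_smul, smul_eq_mul]; ring
      linarith
    have hfin : Λ * σ * (b₁ h - b₂ h) ≤ Λ * σ * δ := by
      have e1 : (C + 2 * L) * Λ' ≤ δ * Λ * σ / 16 := by nlinarith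
      have e2 : (1 + Λ) * ε + ε ≤ δ * Λ * σ / 16 := by linarith
      have e3 : 0 < δ * Λ * σ := by positivity
      nlinarith
    exact le_of_mul_le_mul_left hfin (by positivity)

end Pool.Agent.Helper12.Godefroy
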