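import Mathlib
import Pool.Agent.Helper12.Godefroy3

namespace Pool.Agent.Helper12.Godefroy

open Set Metric Topology Filter

theorem exists_seq_dep {α : Type*} (P : ℕ → α → Prop) (R : ℕ → α → α → Prop) (a : α) (h0 : P 0 a)
    (hstep : ∀ n x, P n x → ∃ y, P (n + 1) y ∧ R n x y) :
    ∃ f : ℕ → α, f 0 = a ∧ (∀ n, P n (f n)) ∧ ∀ n, R n (f n) (f (n + 1)) := by
  classical
  have h : ∀ n x, ∃ y, P n x → (P (n + 1) y ∧ R n x y) := by
    intro n x
    by_cases hx : P n x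
    · obtain ⟨y, hy⟩ := hstep n x hx
      exact ⟨y, fun _ => hy⟩
    · exact ⟨x, fun hx' => absurd hx' hx⟩
  choose g hg using h
  let f : ℕ → α := fun n => Nat.rec a (fun n x => g n x) n
  have hP : ∀ n, P n (f n) := by
    intro n
    induction n with
    | zero => exact h0
    | succ n ih => exact (hg n (f n) ih).1
  exact ⟨f, rfl, hP, fun n => (hg n (f n) (hP n)).2⟩

variable {X : Type*} [NormedAddCommGroup X] [NormedSpace ℝ X]

/-- Main lemma: near a point with large slope towards `G` there is a smooth point with large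
slopes at all scales. -/
theorem main_smooth [CompleteSpace X] [TopologicalSpace.SeparableSpace X]
    (G : (X →L[ℝ] ℝ) →L[ℝ] ℝ) {z : X} {Λ β κ : ℝ} (hΛ : 0 < Λ) (hκ : 0 < κ)
    (hS : ‖z‖ + Λ * β ≤ ‖J z + Λ • G‖) :
    ∃ (w : X) (e : X →L[ℝ] ℝ), ‖w - z‖ ≤ 2 * (‖G‖ + 2) * Λ ∧ ‖e‖ ≤ 1 ∧ e w = ‖w‖ ∧
      (∀ b : X →L[ℝ] ℝ, ‖b‖ ≤ 1 → b ≠ e → b w < e w) ∧
      ∀ Λ₂ : ℝ, 0 < Λ₂ → ‖w‖ + Λ₂ * (β - κ) ≤ ‖J w + Λ₂ • G‖ := by
  have hG : 0 ≤ ‖G‖ := norm_nonneg G
  set L : ℝ := ‖G‖ + 2 with hL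
  have hLpos : 0 < L := by positivity
  set d : ℕ → X := TopologicalSpace.denseSeq X with hd
  set P : ℕ → X × ℝ → Prop := fun n p => 0 < p.2 ∧
    ‖p.1‖ + p.2 * (β - κ * (1 - 1 / 2 ^ n)) ≤ ‖J p.1 + p.2 • G‖ with hP
  set R : ℕ → X × ℝ → X × ℝ → Prop := fun n p q => q.2 ≤ p.2 / 2 ∧ ‖q.1 - p.1‖ ≤ L * p.2 ∧
    ∀ b₁ b₂ : X →L[ℝ] ℝ, ‖b₁‖ ≤ 1 → ‖b₂‖ ≤ 1 → ‖q.1‖ - (4 * L) * q.2 ≤ b₁ q.1 →
      ‖q.1‖ - (4 * L) * q.2 ≤ b₂ q.1 → b₁ (d (Nat.unpair n).1) - b₂ (d (Nat.unpair n).1) ≤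
        1 / ((n : ℝ) + 1) with hR
  have hstep : ∀ n x, P n x → ∃ y, P (n + 1) y ∧ R n x y := by
    rintro n ⟨x, l⟩ ⟨hl, hx⟩
    simp only at hl hx
    obtain ⟨z', Λ', h1, h2, h3, h4, h5⟩ := hstep G (h := d (Nat.unpair n).1)
      (κ := κ / 2 ^ (n + 1)) (δ := 1 / ((n : ℝ) + 1)) (Λmax := l / 2) (C := 4 * L) hl
      (by positivity) (by positivity) (by positivity) (by positivity) hx
    refine ⟨(z', Λ'), ⟨h1, ?_⟩, h2, h3, h5⟩
    have : β - κ * (1 - 1 / 2 ^ (n + 1)) = β - κ * (1 - 1 / 2 ^ n) - κ / 2 ^ (n + 1) := by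
      rw [pow_succ]; field_simp; ring
    rw [this]
    exact h4
  have h0 : P 0 (z, Λ) := ⟨hΛ, by simpa using hS⟩
  obtain ⟨f, hf0, hfP, hfR⟩ := exists_seq_dep P R (z, Λ) h0 hstep
  have hpos : ∀ n, 0 < (f n).2 := fun n => (hfP n).1
  have hhalf : ∀ n, (f (n + 1)).2 ≤ (f n).2 / 2 := fun n => (hfR n).1
  have hgeo : ∀ n, (f n).2 ≤ Λ / 2 ^ n := by
    intro n
    induction n with
    | zero => rw [hf0]; simp
    | succ n ih =>
      have := hhalf n
      calc (f (n + 1)).2 ≤ (f n).2 / 2 := this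
        _ ≤ (Λ / 2 ^ n) / 2 := by linarith
        _ = Λ / 2 ^ (n + 1) := by rw [pow_succ]; field_simp
  have htend : Tendsto (fun n => (f n).2) atTop (𝓝 0) := by
    have h1 : Tendsto (fun n : ℕ => Λ / 2 ^ n) atTop (𝓝 0) := by
      have := (tendsto_pow_atTop_nhds_zero_of_lt_one (r := (1 / 2 : ℝ)) (by norm_num)
        (by norm_num)).const_mul Λ
      simpa [div_eq_mul_inv] using this
    exact squeeze_zero (fun n => (hpos n).le) hgeo h1
  have hdist : ∀ n m, n ≤ m → ‖(f m).1 - (f n).1‖ ≤ 2 * L * ((f n).2 - (f m).2) := by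
    intro n m hnm
    induction m, hnm using Nat.le_induction with
    | base => simp
    | succ m hm ih =>
      have h1 := (hfR m).2.1
      have h2 := hhalf m
      calc ‖(f (m + 1)).1 - (f n).1‖ = ‖((f (m + 1)).1 - (f m).1) + ((f m).1 - (f n).1)‖ := by
            congr 1; abel
        _ ≤ ‖(f (m + 1)).1 - (f m).1‖ + ‖(f m).1 - (f n).1‖ := norm_add_le _ _
        _ ≤ L * (f m).2 + 2 * L * ((f n).2 - (f m).2) := add_le_add h1 ih
        _ ≤ 2 * L * ((f n).2 - (f (m + 1)).2) := by nlinarith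
  have hcauchy : CauchySeq (fun n => (f n).1) := by
    refine cauchySeq_of_le_tendsto_0 (fun n => 2 * (2 * L * (f n).2)) ?_ ?_
    · intro n m N hn hm
      have h1 := hdist N n hn
      have h2 := hdist N m hm
      have h3 := hpos n
      have h4 := hpos m
      rw [dist_eq_norm]
      calc ‖(f n).1 - (f m).1‖ = ‖((f n).1 - (f N).1) - ((f m).1 - (f N).1)‖ := by
            congr 1; abel
        _ ≤ ‖(f n).1 - (f N).1‖ + ‖(f m).1 - (f N).1‖ := norm_sub_le _ _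
        _ ≤ 2 * (2 * L * (f N).2) := by nlinarith
    · have := (htend.const_mul (2 * L)).const_mul 2
      simpa using this
  obtain ⟨w, hw⟩ := cauchySeq_tendsto_of_complete hcauchy
  have hwdist : ∀ n, ‖w - (f n).1‖ ≤ 2 * L * (f n).2 := by
    intro n
    have h1 : Tendsto (fun m => ‖(f m).1 - (f n).1‖) atTop (𝓝 ‖w - (f n).1‖) :=
      (hw.sub_const _).norm
    refine le_of_tendsto h1 ?_
    filter_upwards [eventually_ge_atTop n] with m hm
    have h2 := hdist n m hm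
    have h3 := hpos m
    nlinarith
  obtain ⟨e, he1, he2⟩ := exists_dual_vector'' ℝ w
  have he2' : e w = ‖w‖ := by simpa using he2
  -- near maximality along the sequence
  have hnear : ∀ b : X →L[ℝ] ℝ, ‖b‖ ≤ 1 → b w = ‖w‖ → ∀ n,
      ‖(f n).1‖ - (4 * L) * (f n).2 ≤ b (f n).1 := by
    intro b hb hbw n
    have h1 := hwdist n
    have h2 := apply_le_norm' (w - (f n).1) hb
    rw [map_sub, hbw] at h2
    have h3 : ‖(f n).1‖ ≤ ‖w‖ + ‖w - (f n).1‖ := by
      calc ‖(f n).1‖ = ‖w - (w - (f n).1)‖ := by congr 1; abel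
        _ ≤ ‖w‖ + ‖w - (f n).1‖ := norm_sub_le _ _
    linarith
  refine ⟨w, e, ?_, he1, he2', ?_, ?_⟩
  · have := hwdist 0
    rw [hf0] at this
    exact this
  · intro b hb hbe
    rw [he2']
    refine lt_of_le_of_ne (apply_le_norm' w hb) fun hbw => hbe ?_
    have hdj : ∀ j, b (d j) = e (d j) := by
      intro j
      have hall : ∀ m : ℕ, |b (d j) - e (d j)| ≤ 1 / ((m : ℝ) + 1) := by
        intro m
        have h1 := (hfR (Nat.pair j m)).2.2 b e hb he1 (hnear b hb hbw _) (hnear e he1 he2' _)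
        have h2 := (hfR (Nat.pair j m)).2.2 e b he1 hb (hnear e he1 he2' _) (hnear b hb hbw _)
        simp only [Nat.unpair_pair] at h1 h2
        have h3 : (1 : ℝ) / ((Nat.pair j m : ℝ) + 1) ≤ 1 / ((m : ℝ) + 1) := by
          apply one_div_le_one_div_of_le (by positivity)
          have : (m : ℝ) ≤ (Nat.pair j m : ℝ) := by exact_mod_cast Nat.right_le_pair j m
          linarith
        rw [abs_le]
        constructor <;> linarith
      have hzero : |b (d j) - e (d j)| ≤ 0 :=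
        ge_of_tendsto' (tendsto_one_div_add_atTop_nhds_zero_nat (𝕜 := ℝ)) hall
      have := abs_nonpos_iff.1 hzero
      linarith
    have hfun : (b : X → ℝ) = e :=
      (TopologicalSpace.denseRange_denseSeq X).equalizer b.continuous e.continuous
        (funext hdj)
    exact ContinuousLinearMap.ext (congrFun hfun)
  · intro Λ₂ hΛ₂
    refine le_of_forall_pos_le_add fun ε hε => ?_
    have h1 : ∀ᶠ n in atTop, (f n).2 < min Λ₂ (ε / (4 * L)) :=
      htend.eventually_lt_const (lt_min hΛ₂ (by positivity))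
    obtain ⟨n, hn⟩ := h1.exists
    have hn1 : (f n).2 ≤ Λ₂ := (hn.trans_le (min_le_left _ _)).le
    have hn2 : (f n).2 * (4 * L) ≤ ε := by
      have := (hn.trans_le (min_le_right _ _)).le
      rwa [le_div_iff₀ (by positivity)] at this
    have h2 := slope_mono G (hpos n) hn1 (hfP n).2
    have h3 := hwdist n
    have h4 := bidual_add_le G w ((f n).1 - w) Λ₂
    rw [add_sub_cancel] at h4
    have h5 : ‖(f n).1 - w‖ = ‖w - (f n).1‖ := norm_sub_rev _ _
    have h6 : ‖w‖ ≤ ‖(f n).1‖ + ‖w - (f n).1‖ := by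
      calc ‖w‖ = ‖(f n).1 + (w - (f n).1)‖ := by congr 1; abel
        _ ≤ _ := norm_add_le _ _
    have h7 : Λ₂ * (β - κ) ≤ Λ₂ * (β - κ * (1 - 1 / 2 ^ n)) := by
      apply mul_le_mul_of_nonneg_left _ hΛ₂.le
      have : 0 ≤ κ * (1 / 2 ^ n) := by positivity
      linarith
    rw [h5] at h4
    linarith

end Pool.Agent.Helper12.Godefroy
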