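import Mathlib
import Pool.Agent.Helper12.Godefroy4

namespace Pool.Agent.Helper12.Godefroy

open Set Metric Topology Filter

variable {X : Type*} [NormedAddCommGroup X] [NormedSpace ℝ X]

/-- Near-maximisers of an exposing point lie in any prescribed weak-star open half space that
contains the exposed functional. -/
theorem compact_nbhd {w x : X} {e : X →L[ℝ] ℝ} (hew : e w = ‖w‖)
    (hexp : ∀ b : X →L[ℝ] ℝ, ‖b‖ ≤ 1 → b ≠ e → b w < e w) {c : ℝ} (hc : c < e x) :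
    ∃ ξ : ℝ, 0 < ξ ∧ ∀ k : X →L[ℝ] ℝ, ‖k‖ ≤ 1 → ‖w‖ - ξ ≤ k w → c < k x := by
  set S : Set (WeakDual ℝ X) :=
    (WeakDual.toStrongDual ⁻¹' closedBall (0 : StrongDual ℝ X) 1) ∩ {k | k x ≤ c} with hS
  have hcomp : IsCompact S := by
    refine (WeakDual.isCompact_closedBall (𝕜 := ℝ) (0 : StrongDual ℝ X) 1).inter_right ?_
    exact isClosed_le (WeakDual.eval_continuous x) continuous_const
  rcases S.eq_empty_or_nonempty with hempty | hne
  · refine ⟨1, one_pos, fun k hk _ => ?_⟩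
    by_contra hcon
    have : (StrongDual.toWeakDual k) ∈ S := by
      refine ⟨?_, ?_⟩
      · simpa using hk
      · simpa using hcon
    rw [hempty] at this
    exact this
  · obtain ⟨k₀, hk₀S, hk₀max⟩ := hcomp.exists_isMaxOn hne
      (f := fun k : WeakDual ℝ X => k w) (WeakDual.eval_continuous w).continuousOn
    have hk₀norm : ‖WeakDual.toStrongDual k₀‖ ≤ 1 := by
      simpa using hk₀S.1
    have hlt : k₀ w < ‖w‖ := by
      have h1 : (WeakDual.toStrongDual k₀ : X →L[ℝ] ℝ) ≠ e := by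
        intro h
        have h2 : k₀ x ≤ c := hk₀S.2
        have h3 : k₀ x = e x := by rw [← h]; rfl
        linarith
      have h4 := hexp _ hk₀norm h1
      rw [hew] at h4
      exact h4
    refine ⟨(‖w‖ - k₀ w) / 2, by linarith, fun k hk hkw => ?_⟩
    by_contra hcon
    have hkS : (StrongDual.toWeakDual k) ∈ S := by
      refine ⟨?_, ?_⟩
      · simpa using hk
      · simpa using hcon
    have h5 : (StrongDual.toWeakDual k) w ≤ k₀ w := hk₀max hkS
    have h6 : (StrongDual.toWeakDual k) w = k w := rfl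
    linarith

theorem exists_pos_le_all {S : Type*} [Fintype S] (f : S → ℝ) (hf : ∀ s, 0 < f s) :
    ∃ ε : ℝ, 0 < ε ∧ ∀ s, ε ≤ f s := by
  rcases isEmpty_or_nonempty S with h | h
  · exact ⟨1, one_pos, fun s => (IsEmpty.false s).elim⟩
  · refine ⟨Finset.univ.inf' Finset.univ_nonempty f, ?_, fun s => ?_⟩
    · rw [Finset.lt_inf'_iff]
      exact fun s _ => hf s
    · exact Finset.inf'_le f (Finset.mem_univ s)

/-- The property carried along the tree: `V` contains an exposed functional `e`, exposed by a point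
`w` at which the norm has slope at least `β` towards `G` at all scales. -/
def Good (G : (X →L[ℝ] ℝ) →L[ℝ] ℝ) (β : ℝ) (V : Set (X →L[ℝ] ℝ)) : Prop :=
  ∃ (w : X) (e : X →L[ℝ] ℝ), ‖e‖ ≤ 1 ∧ e w = ‖w‖ ∧
    (∀ b : X →L[ℝ] ℝ, ‖b‖ ≤ 1 → b ≠ e → b w < e w) ∧
    (∀ Λ : ℝ, 0 < Λ → ‖w‖ + Λ * β ≤ ‖J w + Λ • G‖) ∧ e ∈ V ∧
    ∃ ξ : ℝ, 0 < ξ ∧ ∀ k : X →L[ℝ] ℝ, ‖k‖ ≤ 1 → ‖w‖ - ξ ≤ k w → k ∈ V

/-- The tree step. -/
theorem tree_step [CompleteSpace X] [TopologicalSpace.SeparableSpace X]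
    (G : (X →L[ℝ] ℝ) →L[ℝ] ℝ) {a a' b' β κ : ℝ}
    (hE : ∀ (w : X) (e : X →L[ℝ] ℝ), ‖e‖ ≤ 1 →
      (∀ b : X →L[ℝ] ℝ, ‖b‖ ≤ 1 → b ≠ e → b w < e w) → G e ≤ a)
    (haa' : a < a') (hκ : 0 < κ) (hb' : b' < β - κ)
    {S : Type*} [Fintype S] (V : S → Set (X →L[ℝ] ℝ)) (hV : ∀ s, Good G β (V s)) :
    ∃ y : X, ‖y‖ ≤ ‖G‖ + 1 ∧ ∀ s, Good G (β - κ) (V s ∩ {k | k y < a'}) ∧
      Good G (β - κ) (V s ∩ {k | b' < k y}) := by
  classical
  have hG : 0 ≤ ‖G‖ := norm_nonneg G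
  set L : ℝ := ‖G‖ + 2 with hL
  have hLpos : 0 < L := by positivity
  choose w e he1 hew hexp hslope heV ξ hξ hVξ using hV
  set Λ : S → ℝ := fun s => ξ s / (8 * L) with hΛdef
  have hΛ : ∀ s, 0 < Λ s := fun s => div_pos (hξ s) (by positivity)
  have hΛξ : ∀ s, Λ s * (8 * L) = ξ s := fun s => by
    simp only [hΛdef]; field_simp
  set Λ' : S → ℝ := fun s => min (Λ s / 2) (Λ s * κ / (24 * L)) with hΛ'def
  have hΛ' : ∀ s, 0 < Λ' s := fun s => by
    have := hΛ s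
    exact lt_min (by positivity) (by positivity)
  have hΛ'1 : ∀ s, Λ' s ≤ Λ s / 2 := fun s => min_le_left _ _
  have hΛ'2 : ∀ s, Λ' s * (24 * L) ≤ Λ s * κ := fun s => by
    have : Λ' s ≤ Λ s * κ / (24 * L) := min_le_right _ _
    rwa [le_div_iff₀ (by positivity)] at this
  obtain ⟨ε, hε, hεle⟩ := exists_pos_le_all
    (fun s => min (a' - a) (min (Λ' s * κ / (2 * (2 + Λ s))) (Λ s * κ / (4 * (2 + Λ s)))))
    (fun s => by
      have h1 := hΛ s
      have h2 := hΛ' s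
      refine lt_min (by linarith) (lt_min (by positivity) (by positivity)))
  have hε0 : ∀ s, ε ≤ a' - a := fun s => (hεle s).trans (min_le_left _ _)
  have hε1 : ∀ s, (2 + Λ s) * ε ≤ Λ' s * κ / 2 := fun s => by
    have h1 : ε ≤ Λ' s * κ / (2 * (2 + Λ s)) :=
      (hεle s).trans ((min_le_right _ _).trans (min_le_left _ _))
    have h2 := hΛ s
    rw [le_div_iff₀ (by positivity)] at h1
    linarith
  have hε2 : ∀ s, (2 + Λ s) * ε ≤ Λ s * κ / 4 := fun s => by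
    have h1 : ε ≤ Λ s * κ / (4 * (2 + Λ s)) :=
      (hεle s).trans ((min_le_right _ _).trans (min_le_right _ _))
    have h2 := hΛ s
    rw [le_div_iff₀ (by positivity)] at h1
    linarith
  have hv : ∀ s, ∃ v : X →L[ℝ] ℝ, ‖v‖ ≤ 1 ∧ ‖J (w s) + Λ s • G‖ - ε ≤ v (w s) + Λ s * G v := by
    intro s
    obtain ⟨v, hv1, hv2⟩ := exists_near_max (J (w s) + Λ s • G) hε
    rw [bidual_apply] at hv2
    exact ⟨v, hv1, hv2⟩
  choose v hv1 hv2 using hv
  have hHelly : ∀ i : Option S,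
      ‖J ((fun i : Option S => i.elim (0 : X) w) i) + (fun i : Option S => i.elim (1 : ℝ) Λ) i • G‖
        < (fun i : Option S => i.elim (‖G‖ + 1) fun s => ‖J (w s) + Λ s • G‖ + ε) i := by
    intro i
    cases i with
    | none =>
      show ‖J (0 : X) + (1 : ℝ) • G‖ < ‖G‖ + 1
      simp
    | some s =>
      show ‖J (w s) + Λ s • G‖ < ‖J (w s) + Λ s • G‖ + ε
      linarith
  obtain ⟨y, hy1, hy2⟩ := helly G _ _ _ hHelly (Sum.elim v e) ε hε
  have hyN : ‖(0 : X) + (1 : ℝ) • y‖ < ‖G‖ + 1 := hy1 none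
  rw [zero_add, one_smul] at hyN
  have hyS : ∀ s, ‖w s + Λ s • y‖ < ‖J (w s) + Λ s • G‖ + ε := fun s => hy1 (some s)
  have hyv : ∀ s, |v s y - G (v s)| < ε := fun s => hy2 (Sum.inl s)
  have hye : ∀ s, |e s y - G (e s)| < ε := fun s => hy2 (Sum.inr s)
  refine ⟨y, hyN.le, fun s => ⟨?_, ?_⟩⟩
  · -- the left child keeps the same exposed functional
    have h1 : e s y < a' := by
      have h2 := hE (w s) (e s) (he1 s) (hexp s)
      have h3 := hye s
      rw [abs_lt] at h3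
      have h4 := hε0 s
      linarith [h3.2]
    have h5 : -a' < e s (-y) := by rw [map_neg]; linarith
    obtain ⟨ξ', hξ', hnb⟩ := compact_nbhd (hew s) (hexp s) h5
    refine ⟨w s, e s, he1 s, hew s, hexp s, fun l hl => ?_, ⟨heV s, h1⟩, min (ξ s) ξ',
      lt_min (hξ s) hξ', fun k hk hkw => ⟨?_, ?_⟩⟩
    · have := hslope s l hl
      have h6 : 0 ≤ l * κ := by positivity
      linarith
    · exact hVξ s k hk (by have := min_le_left (ξ s) ξ'; linarith)
    · have h7 := hnb k hk (by have := min_le_right (ξ s) ξ'; linarith)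
      rw [map_neg] at h7
      show k y < a'
      linarith
  · -- the right child
    have hle : Λ' s ≤ Λ s := by have := hΛ'1 s; have := hΛ s; linarith
    have hyv1 : G (v s) - ε ≤ v s y := by
      have := hyv s
      rw [abs_lt] at this
      linarith [this.1]
    have h1 := step_slope G (hv1 s) (hΛ s) (hΛ' s) hle hε.le (hyS s).le (hv2 s) hyv1
      (hslope s (Λ s) (hΛ s))
    have hlow := step_lower G (hv1 s) (hΛ' s) hle hε.le (hv2 s) hyv1
    set z' : X := w s + (Λ s - Λ' s) • y with hz'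
    have h2 : ‖z'‖ + Λ' s * (β - κ / 2) ≤ ‖J z' + Λ' s • G‖ := by
      have := hε1 s
      linarith
    obtain ⟨w₂, e₂, hd, he₂, hew₂, hexp₂, hslope₂⟩ := main_smooth G (hΛ' s)
      (show 0 < κ / 2 by positivity) h2
    have hzw : ‖z' - w s‖ ≤ Λ s * L := by
      rw [hz', add_sub_cancel_left, norm_smul,
        Real.norm_of_nonneg (by linarith : (0 : ℝ) ≤ Λ s - Λ' s)]
      have h3 : (Λ s - Λ' s) * ‖y‖ ≤ Λ s * ‖y‖ := by
        apply mul_le_mul_of_nonneg_right _ (norm_nonneg y)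
        linarith [hΛ' s]
      have h4 : Λ s * ‖y‖ ≤ Λ s * L := by
        apply mul_le_mul_of_nonneg_left _ (hΛ s).le
        linarith
      linarith
    have hd' : ‖w₂ - z'‖ ≤ 2 * L * Λ' s := hd
    have hww : ‖w₂ - w s‖ ≤ 2 * (Λ s * L) := by
      have h3 : ‖w₂ - w s‖ ≤ ‖w₂ - z'‖ + ‖z' - w s‖ := by
        calc ‖w₂ - w s‖ = ‖(w₂ - z') + (z' - w s)‖ := by congr 1; abel
          _ ≤ _ := norm_add_le _ _
      have h4 := hΛ'1 s
      nlinarith
    -- e₂ belongs to V s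
    have hVe : e₂ ∈ V s := by
      refine hVξ s e₂ he₂ ?_
      have h3 : e₂ (w₂ - w s) ≤ ‖w₂ - w s‖ := apply_le_norm' _ he₂
      rw [map_sub, hew₂] at h3
      have h4 : ‖w s‖ ≤ ‖w₂‖ + ‖w₂ - w s‖ := by
        calc ‖w s‖ = ‖w₂ - (w₂ - w s)‖ := by congr 1; abel
          _ ≤ _ := norm_sub_le _ _
      have h5 := hΛξ s
      nlinarith [hΛ s]
    -- lower bound for y at e₂
    have hye₂ : b' < e₂ y := by
      have h3 : e₂ (w₂ - z') ≤ ‖w₂ - z'‖ := apply_le_norm' _ he₂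
      rw [map_sub, hew₂] at h3
      have h4 : ‖z'‖ ≤ ‖w₂‖ + ‖w₂ - z'‖ := by
        calc ‖z'‖ = ‖w₂ - (w₂ - z')‖ := by congr 1; abel
          _ ≤ _ := norm_sub_le _ _
      have h5 : e₂ z' = e₂ (w s) + (Λ s - Λ' s) * e₂ y := by
        rw [hz', map_add, map_smul, smul_eq_mul]
      have h6 : e₂ (w s) ≤ ‖w s‖ := apply_le_norm' _ he₂
      have h7 := hslope s (Λ s) (hΛ s)
      have h8 : -‖y‖ ≤ e₂ y := neg_norm_le_apply' y he₂
      have h9 : Λ' s * (-L) ≤ Λ' s * e₂ y := by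
        apply mul_le_mul_of_nonneg_left _ (hΛ' s).le
        linarith
      have h10 : Λ' s * ‖G‖ ≤ Λ' s * L := by
        apply mul_le_mul_of_nonneg_left _ (hΛ' s).le
        linarith
      have h11 := hΛ'2 s
      have h12 := hε2 s
      have h13 : Λ s * β - Λ s * κ ≤ Λ s * e₂ y := by
        have h14 : (1 + Λ s) * ε ≤ (2 + Λ s) * ε := by nlinarith
        nlinarith [hΛ s, hΛ' s]
      have h15 : Λ s * b' < Λ s * e₂ y := by
        have : Λ s * b' < Λ s * (β - κ) := mul_lt_mul_of_pos_left hb' (hΛ s)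
        linarith
      exact lt_of_mul_lt_mul_left h15 (hΛ s).le
    obtain ⟨ξ', hξ', hnb⟩ := compact_nbhd hew₂ hexp₂ hye₂
    refine ⟨w₂, e₂, he₂, hew₂, hexp₂, fun l hl => ?_, ⟨hVe, hye₂⟩, min (Λ s * L) ξ',
      lt_min (by have := hΛ s; positivity) hξ', fun k hk hkw => ⟨?_, ?_⟩⟩
    · have := hslope₂ l hl
      have h3 : β - κ / 2 - κ / 2 = β - κ := by ring
      rw [h3] at this
      exact this
    · refine hVξ s k hk ?_
      have h3 : k (w₂ - w s) ≤ ‖w₂ - w s‖ := apply_le_norm' _ hk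
      rw [map_sub] at h3
      have h4 : ‖w s‖ ≤ ‖w₂‖ + ‖w₂ - w s‖ := by
        calc ‖w s‖ = ‖w₂ - (w₂ - w s)‖ := by congr 1; abel
          _ ≤ _ := norm_sub_le _ _
      have h5 := hΛξ s
      have h6 := min_le_left (Λ s * L) ξ'
      nlinarith [hΛ s]
    · exact hnb k hk (by have := min_le_right (Λ s * L) ξ'; linarith)

end Pool.Agent.Helper12.Godefroy
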