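import Mathlib
import Pool.Agent.Helper12.Godefroy5

namespace Pool.Agent.Helper12.Godefroy

open Set Metric Topology Filter

variable {X : Type*} [NormedAddCommGroup X] [NormedSpace ℝ X]

theorem Good.mono {G : (X →L[ℝ] ℝ) →L[ℝ] ℝ} {β β' : ℝ} {V V' : Set (X →L[ℝ] ℝ)}
    (h : Good G β V) (hβ : β' ≤ β) (hV : V ⊆ V') : Good G β' V' := by
  obtain ⟨w, e, h1, h2, h3, h4, h5, ξ, hξ, h6⟩ := h
  refine ⟨w, e, h1, h2, h3, fun l hl => ?_, hV h5, ξ, hξ, fun k hk hkw => hV (h6 k hk hkw)⟩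
  have := h4 l hl
  have h7 : l * β' ≤ l * β := mul_le_mul_of_nonneg_left hβ hl.le
  linarith

theorem good_univ [CompleteSpace X] [TopologicalSpace.SeparableSpace X]
    (G : (X →L[ℝ] ℝ) →L[ℝ] ℝ) {β : ℝ} (hβ : β < ‖G‖) : Good G β univ := by
  have h0 : ‖(0 : X)‖ + 1 * ‖G‖ ≤ ‖J (0 : X) + (1 : ℝ) • G‖ := by simp
  obtain ⟨w, e, h1, h2, h3, h4, h5⟩ := main_smooth G one_pos (show 0 < ‖G‖ - β by linarith) h0
  refine ⟨w, e, h2, h3, h4, fun l hl => ?_, mem_univ _, 1, one_pos, fun _ _ _ => mem_univ _⟩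
  have := h5 l hl
  have h6 : ‖G‖ - (‖G‖ - β) = β := by ring
  rwa [h6] at this

/-- The cell of the tree determined by the first `n` vectors and the pattern `A`. -/
def Cell (a' b' : ℝ) (y : ℕ → X) (A : Finset ℕ) (n : ℕ) : Set (X →L[ℝ] ℝ) :=
  {k | ∀ i < n, (i ∈ A → b' < k (y i)) ∧ (i ∉ A → k (y i) < a')}

theorem exists_tree [CompleteSpace X] [TopologicalSpace.SeparableSpace X]
    (G : (X →L[ℝ] ℝ) →L[ℝ] ℝ) {a a' b' β : ℝ}
    (hE : ∀ (w : X) (e : X →L[ℝ] ℝ), ‖e‖ ≤ 1 →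
      (∀ b : X →L[ℝ] ℝ, ‖b‖ ≤ 1 → b ≠ e → b w < e w) → G e ≤ a)
    (haa' : a < a') (hb' : b' < β) (hβ : β < ‖G‖) :
    ∃ y : ℕ → X, (∀ n, ‖y n‖ ≤ ‖G‖ + 1) ∧
      ∀ (n : ℕ) (A : Finset ℕ), ∃ e : X →L[ℝ] ℝ, ‖e‖ ≤ 1 ∧ e ∈ Cell a' b' y A n := by
  classical
  set κ : ℝ := (β - b') / 2 with hκdef
  have hκ : 0 < κ := by rw [hκdef]; linarith
  set P : ℕ → (ℕ → X) → Prop := fun n y => (∀ i, ‖y i‖ ≤ ‖G‖ + 1) ∧
    ∀ A : Finset ℕ, Good G (β - κ * (1 - 1 / 2 ^ n)) (Cell a' b' y A n) with hP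
  set R : ℕ → (ℕ → X) → (ℕ → X) → Prop := fun n y y' => ∀ i < n, y' i = y i with hR
  have h0 : P 0 (fun _ => 0) := by
    refine ⟨fun i => ?_, fun A => ?_⟩
    · rw [norm_zero]; positivity
    · refine (good_univ G hβ).mono (by simp) ?_
      intro k _ i hi
      exact absurd hi (Nat.not_lt_zero i)
  have hstep : ∀ n x, P n x → ∃ y, P (n + 1) y ∧ R n x y := by
    rintro n x ⟨hx1, hx2⟩
    have hβ1 : b' < β - κ * (1 - 1 / 2 ^ n) - κ / 2 ^ (n + 1) := by
      have h1 : β - κ * (1 - 1 / 2 ^ n) - κ / 2 ^ (n + 1) = β - κ + κ / 2 ^ (n + 1) := by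
        rw [pow_succ]; field_simp; ring
      rw [h1]
      have : 0 < κ / 2 ^ (n + 1) := by positivity
      linarith
    obtain ⟨y, hy1, hy2⟩ := tree_step G hE haa' (show 0 < κ / 2 ^ (n + 1) by positivity) hβ1
      (S := {A : Finset ℕ // A ∈ (Finset.range n).powerset})
      (fun s => Cell a' b' x s.1 n) (fun s => hx2 s.1)
    have hβ2 : β - κ * (1 - 1 / 2 ^ (n + 1)) = β - κ * (1 - 1 / 2 ^ n) - κ / 2 ^ (n + 1) := by
      rw [pow_succ]; field_simp; ring
    refine ⟨Function.update x n y, ⟨fun i => ?_, fun A => ?_⟩, fun i hi => ?_⟩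
    · by_cases h : i = n
      · subst h; simpa using hy1
      · rw [Function.update_of_ne h]; exact hx1 i
    · have hs : A ∩ Finset.range n ∈ (Finset.range n).powerset :=
        Finset.mem_powerset.2 Finset.inter_subset_right
      obtain ⟨hL, hRt⟩ := hy2 ⟨_, hs⟩
      rw [hβ2]
      have hold : ∀ k ∈ Cell a' b' x (A ∩ Finset.range n) n, ∀ i < n,
          (i ∈ A → b' < k (Function.update x n y i)) ∧
          (i ∉ A → k (Function.update x n y i) < a') := by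
        intro k hk i hi
        rw [Function.update_of_ne hi.ne]
        refine ⟨fun h => (hk i hi).1 ?_, fun h => (hk i hi).2 ?_⟩
        · exact Finset.mem_inter.2 ⟨h, Finset.mem_range.2 hi⟩
        · exact fun h' => h (Finset.mem_inter.1 h').1
      by_cases hn : n ∈ A
      · refine hRt.mono le_rfl ?_
        rintro k ⟨hk1, hk2⟩ i hi
        rcases Nat.lt_succ_iff_lt_or_eq.1 hi with h | h
        · exact hold k hk1 i h
        · subst h
          simp only [Function.update_self]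
          exact ⟨fun _ => hk2, fun h => absurd hn h⟩
      · refine hL.mono le_rfl ?_
        rintro k ⟨hk1, hk2⟩ i hi
        rcases Nat.lt_succ_iff_lt_or_eq.1 hi with h | h
        · exact hold k hk1 i h
        · subst h
          simp only [Function.update_self]
          exact ⟨fun h => absurd h hn, fun _ => hk2⟩
    · exact Function.update_of_ne hi.ne _ _
  obtain ⟨f, hf0, hfP, hfR⟩ := exists_seq_dep P R (fun _ => 0) h0 hstep
  have hstab : ∀ i n, i + 1 ≤ n → f n i = f (i + 1) i := by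
    intro i n hn
    induction n, hn using Nat.le_induction with
    | base => rfl
    | succ n hn ih => rw [hfR n i (by omega), ih]
  refine ⟨fun i => f (i + 1) i, fun n => (hfP (n + 1)).1 n, fun n A => ?_⟩
  obtain ⟨w, e, h1, h2, h3, h4, h5, _⟩ := (hfP n).2 A
  refine ⟨e, h1, fun i hi => ?_⟩
  have := h5 i hi
  rw [hstab i n hi] at this
  exact this

theorem l1_lower (y : ℕ → X) {a' b' : ℝ}
    (hy : ∀ (n : ℕ) (A : Finset ℕ), ∃ e : X →L[ℝ] ℝ, ‖e‖ ≤ 1 ∧ e ∈ Cell a' b' y A n)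
    (n : ℕ) (c : ℕ → ℝ) :
    (b' - a') / 2 * ∑ i ∈ Finset.range n, |c i| ≤ ‖∑ i ∈ Finset.range n, c i • y i‖ := by
  classical
  set A : Finset ℕ := (Finset.range n).filter fun i => 0 ≤ c i with hA
  set B : Finset ℕ := (Finset.range n).filter fun i => ¬ 0 ≤ c i with hB
  obtain ⟨e₁, he₁, h1⟩ := hy n A
  obtain ⟨e₂, he₂, h2⟩ := hy n B
  have hx1 := apply_le_norm' (∑ i ∈ Finset.range n, c i • y i) he₁
  have hx2 := neg_norm_le_apply' (∑ i ∈ Finset.range n, c i • y i) he₂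
  have key : (b' - a') * ∑ i ∈ Finset.range n, |c i| ≤
      e₁ (∑ i ∈ Finset.range n, c i • y i) - e₂ (∑ i ∈ Finset.range n, c i • y i) := by
    rw [map_sum, map_sum, ← Finset.sum_sub_distrib, Finset.mul_sum]
    refine Finset.sum_le_sum fun i hi => ?_
    have hin := Finset.mem_range.1 hi
    rw [map_smul, map_smul, smul_eq_mul, smul_eq_mul]
    by_cases hc : 0 ≤ c i
    · have hiA : i ∈ A := Finset.mem_filter.2 ⟨hi, hc⟩
      have hiB : i ∉ B := fun h => (Finset.mem_filter.1 h).2 hc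
      have e1 := (h1 i hin).1 hiA
      have e2 := (h2 i hin).2 hiB
      rw [abs_of_nonneg hc]
      nlinarith
    · have hiA : i ∉ A := fun h => hc (Finset.mem_filter.1 h).2
      have hiB : i ∈ B := Finset.mem_filter.2 ⟨hi, hc⟩
      have e1 := (h1 i hin).2 hiA
      have e2 := (h2 i hin).1 hiB
      push Not at hc
      rw [abs_of_neg hc]
      nlinarith
  linarith

/-- A bounded sequence with a lower `ℓ¹` estimate spans an isomorphic copy of `ℓ¹`. -/
theorem l1_embed [CompleteSpace X] (y : ℕ → X) {M c : ℝ} (hM : ∀ n, ‖y n‖ ≤ M) (hc : 0 < c)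
    (hlow : ∀ (n : ℕ) (a : ℕ → ℝ),
      c * ∑ i ∈ Finset.range n, |a i| ≤ ‖∑ i ∈ Finset.range n, a i • y i‖) :
    ∃ T : (lp (fun _ : ℕ => ℝ) 1) →L[ℝ] X, ∃ c : ℝ, 0 < c ∧ ∀ a, c * ‖a‖ ≤ ‖T a‖ := by
  have hM0 : 0 ≤ M := (norm_nonneg _).trans (hM 0)
  have hp : 0 < (1 : ENNReal).toReal := by simp
  have hsum : ∀ a : lp (fun _ : ℕ => ℝ) 1, HasSum (fun i => |a i|) ‖a‖ := by
    intro a
    have := lp.hasSum_norm hp a
    simpa using this
  have hsm : ∀ a : lp (fun _ : ℕ => ℝ) 1, Summable fun i => a i • y i := by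
    intro a
    refine Summable.of_norm_bounded (g := fun i => |a i| * M) ((hsum a).summable.mul_right M) ?_
    intro i
    rw [norm_smul, Real.norm_eq_abs]
    exact mul_le_mul_of_nonneg_left (hM i) (abs_nonneg _)
  set T₀ : (lp (fun _ : ℕ => ℝ) 1) →ₗ[ℝ] X :=
    { toFun := fun a => ∑' i, a i • y i
      map_add' := by
        intro a b
        rw [← (hsm a).tsum_add (hsm b)]
        congr 1
        ext i
        rw [lp.coeFn_add, Pi.add_apply, add_smul]
      map_smul' := by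
        intro r a
        rw [RingHom.id_apply, ← tsum_const_smul'' r]
        congr 1
        ext i
        rw [lp.coeFn_smul, Pi.smul_apply, smul_eq_mul, mul_smul] } with hT₀
  have hbound : ∀ a, ‖T₀ a‖ ≤ M * ‖a‖ := by
    intro a
    have h1 : Summable fun i => ‖a i • y i‖ := by
      refine Summable.of_nonneg_of_le (fun i => norm_nonneg _) (fun i => ?_)
        ((hsum a).summable.mul_right M)
      rw [norm_smul, Real.norm_eq_abs]
      exact mul_le_mul_of_nonneg_left (hM i) (abs_nonneg _)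
    calc ‖T₀ a‖ ≤ ∑' i, ‖a i • y i‖ := norm_tsum_le_tsum_norm h1
      _ ≤ ∑' i, |a i| * M := by
          refine h1.tsum_le_tsum (fun i => ?_) ((hsum a).summable.mul_right M)
          rw [norm_smul, Real.norm_eq_abs]
          exact mul_le_mul_of_nonneg_left (hM i) (abs_nonneg _)
      _ = M * ‖a‖ := by rw [tsum_mul_right, (hsum a).tsum_eq, mul_comm]
  refine ⟨T₀.mkContinuous M hbound, c, hc, fun a => ?_⟩
  have h1 : Tendsto (fun n => c * ∑ i ∈ Finset.range n, |a i|) atTop (𝓝 (c * ‖a‖)) :=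
    ((hsum a).tendsto_sum_nat).const_mul c
  have h2 : Tendsto (fun n => ‖∑ i ∈ Finset.range n, a i • y i‖) atTop (𝓝 ‖T₀ a‖) :=
    ((hsm a).hasSum.tendsto_sum_nat).norm
  exact le_of_tendsto_of_tendsto' h1 h2 fun n => hlow n a

/-- The main theorem in contrapositive form: if some bidual functional is bounded by `a < ‖G‖` on
the weak-star exposed points of the dual unit ball, the space contains `ℓ¹`. -/
theorem l1_of_bounded_on_exposed [CompleteSpace X] [TopologicalSpace.SeparableSpace X]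
    (G : (X →L[ℝ] ℝ) →L[ℝ] ℝ) {a : ℝ} (ha : a < ‖G‖)
    (hE : ∀ (w : X) (e : X →L[ℝ] ℝ), ‖e‖ ≤ 1 →
      (∀ b : X →L[ℝ] ℝ, ‖b‖ ≤ 1 → b ≠ e → b w < e w) → G e ≤ a) :
    ∃ T : (lp (fun _ : ℕ => ℝ) 1) →L[ℝ] X, ∃ c : ℝ, 0 < c ∧ ∀ a, c * ‖a‖ ≤ ‖T a‖ := by
  set t : ℝ := (‖G‖ - a) / 4 with ht
  have htpos : 0 < t := by rw [ht]; linarith
  obtain ⟨y, hy1, hy2⟩ := exists_tree G (a := a) (a' := a + t) (b' := a + 2 * t) (β := a + 3 * t)
    hE (by linarith) (by linarith) (by linarith)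
  refine l1_embed y hy1 (c := (a + 2 * t - (a + t)) / 2) (by linarith) ?_
  intro n c
  exact l1_lower y hy2 n c

end Pool.Agent.Helper12.Godefroy
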