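import Pool.Agent.Helper12.AA7

/-!
Former hand-in StructureInvariant of MP_f992e4_an (its slot was given to QuasiPolynomial). Its claim was:

Proves: For all k,m,s there is C>0 such that, whenever BoundedSupport k m s V E c G supp holds, every G-invariant f:{-1,1}^E→R and every d≥deg f satisfy sum_j ‖D_j f‖_2 ≤ d^C ‖f‖_∞ and Var(f) ≤ d^C ‖f‖_∞ M(f).
Definitions: variance f = E[f²]-(E f)²; l2Deriv f j = ‖D_j f‖_2; DegLE f d: the Fourier coefficients of f on sets of more than d coordinates vanish; BoundedSupport k m s V E c G supp: V is a finite vertex set coloured by c with m colours, the group G of permutations of V contains all colour-preserving ones and acts on the finite set E, supp e is a set of at most k vertices, supp(g·e)=g(supp e), g·e=e when g fixes supp e pointwise, and at most s elements e have a given support.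
Relation: Partial answer to Q1: it settles Q1, with C depending only on k,m,s, for invariant functions of structures of bounded arity, e.g. graph and k-uniform hypergraph parameters, isomorphism-invariant functions of vertex-coloured k-ary relational structures, arrays under independent permutations of the axes (so bounded-depth compositions of symmetric functions). Known before: symmetric f (k=m=s=1; the Aaronson-Ambainis form). Related earlier work: small-range arguments bounding quantum speedups under hypergraph symmetries (Ben-David, Childs, Gilyen, Kretschmer, Podder, Wang 2020), which do not give this inequality.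
-/

set_option autoImplicit false
open Finset

namespace Pool.Agent.Helper12.StructureInvariantKept

/-- Variance of `f : {-1,1}^E → ℝ` under the uniform probability measure. -/
noncomputable def variance {E : Type} [Fintype E] [DecidableEq E] (f : (E → ℤˣ) → ℝ) : ℝ :=
  (∑ x, f x ^ 2) / 2 ^ Fintype.card E - ((∑ x, f x) / 2 ^ Fintype.card E) ^ 2

/-- The `L²` norm of the discrete derivative `D_j f`. -/
noncomputable def l2Deriv {E : Type} [Fintype E] [DecidableEq E] (f : (E → ℤˣ) → ℝ) (j : E) : ℝ :=
  Real.sqrt ((∑ x, ((f (Function.update x j 1) - f (Function.update x j (-1))) / 2) ^ 2)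
    / 2 ^ Fintype.card E)

/-- `deg f ≤ d`: all Fourier coefficients of `f` on sets with more than `d` elements vanish. -/
def DegLE {E : Type} [Fintype E] [DecidableEq E] (f : (E → ℤˣ) → ℝ) (d : ℕ) : Prop :=
  ∀ S : Finset E, d < S.card → ∑ x : E → ℤˣ, f x * ∏ i ∈ S, ((x i : ℤ) : ℝ) = 0

/-- The data of a class of structures: `V` is a finite vertex set with a colouring
`c` by `m` colours, `G` is a group of permutations of `V` which contains every
colour preserving permutation, `G` acts on the finite set `E` of coordinates, and `supp` is an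
equivariant support map: `supp e` is a set of at most `k` vertices, a group element fixing every
vertex of `supp e` fixes `e`, and at most `s` coordinates have the same support. -/
structure BoundedSupport (k m s : ℕ) (V E : Type) [Fintype V] [DecidableEq V] [Fintype E]
    [DecidableEq E] (c : V → Fin m) (G : Subgroup (Equiv.Perm V)) [MulAction G E]
    (supp : E → Finset V) : Prop where
  colour : ∀ π : Equiv.Perm V, (∀ v, c (π v) = c v) → π ∈ G
  card_supp : ∀ e, (supp e).card ≤ k
  fibre : ∀ T : Finset V, (univ.filter fun e => supp e = T).card ≤ s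
  equivariant : ∀ (π : G) (e : E), supp (π • e) = (supp e).image (π : Equiv.Perm V)
  fixes : ∀ (π : G) (e : E), (∀ v ∈ supp e, (π : Equiv.Perm V) v = v) → π • e = e

/-- Question Q1 holds for invariant functions of structures of bounded arity,
in the stronger form where the sum of all the norms `‖D_j f‖₂` is at most `d ^ C ‖f‖_∞`. -/
theorem result : ∀ k m s : ℕ, ∃ C : ℝ, 0 < C ∧
    ∀ (V E : Type) [Fintype V] [DecidableEq V] [Fintype E] [DecidableEq E] (c : V → Fin m)
      (G : Subgroup (Equiv.Perm V)) [MulAction G E] (supp : E → Finset V),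
      BoundedSupport k m s V E c G supp →
      ∀ f : (E → ℤˣ) → ℝ, (∀ (π : G) (x : E → ℤˣ), f (fun e => x (π • e)) = f x) →
      ∀ d : ℕ, DegLE f d →
        (∑ j, l2Deriv f j ≤ (⨆ x, |f x|) * (d : ℝ) ^ C) ∧
        variance f ≤ (⨆ x, |f x|) * (d : ℝ) ^ C * ⨆ j, l2Deriv f j := by
  intro k m s
  obtain ⟨C, hC0, hC⟩ := Pool.Agent.Helper12.AA.exists_exponent k m s
  refine ⟨C, hC0, ?_⟩
  intro V E _ _ _ _ c G _ supp hS f hf d hdeg
  have hle : Pool.Agent.Helper12.AA.cperm c ≤ G := fun π hπ => hS.colour π hπ
  letI : MulAction (Pool.Agent.Helper12.AA.cperm c) E :=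
    MulAction.compHom E (Subgroup.inclusion hle)
  set B : ℝ := ⨆ x, |f x| with hBdef
  have hB : ∀ x, |f x| ≤ B := fun x => le_ciSup (Set.finite_range fun x => |f x|).bddAbove x
  have hB0 : 0 ≤ B := (abs_nonneg _).trans (hB 1)
  have hdeg' : ∀ S : Finset E, d < S.card → Pool.Agent.Helper12.AA.fh f S = 0 := by
    intro S h
    unfold Pool.Agent.Helper12.AA.fh Pool.Agent.Helper12.AA.chi
    rw [hdeg S h, zero_div]
  have hl2 : ∀ j, l2Deriv f j
      = Real.sqrt (∑ S with j ∈ S, Pool.Agent.Helper12.AA.fh f S ^ 2) := by
    intro j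
    unfold l2Deriv
    rw [Pool.Agent.Helper12.AA.influence_eq]
  have hsum : ∑ j, l2Deriv f j ≤ B * (d : ℝ) ^ C := by
    simp_rw [hl2]
    rcases Nat.lt_or_ge d 2 with h | h
    · interval_cases d
      · have : ∀ j : E, ∑ S with j ∈ S, Pool.Agent.Helper12.AA.fh f S ^ 2 = 0 := by
          intro j
          refine Finset.sum_eq_zero fun S hS => ?_
          rw [Finset.mem_filter] at hS
          rw [hdeg' S (Finset.card_pos.2 ⟨j, hS.2⟩)]
          norm_num
        simp_rw [this]
        simp only [Real.sqrt_zero, Finset.sum_const_zero]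
        positivity
      · have := Pool.Agent.Helper12.AA.degree_one f hB hdeg'
        simpa using this
    · refine (Pool.Agent.Helper12.AA.mixed_norm (c := c) supp ?_ ?_ hS.card_supp hS.fibre
        (by omega) hB ?_ hdeg').trans ?_
      · intro π e
        exact hS.equivariant (Subgroup.inclusion hle π) e
      · intro π e h
        exact hS.fixes (Subgroup.inclusion hle π) e h
      · intro π x
        exact hf (Subgroup.inclusion hle π) x
      · exact mul_le_mul_of_nonneg_left (hC d h) hB0
  refine ⟨hsum, ?_⟩
  have hM : ∀ j, l2Deriv f j ≤ ⨆ j, l2Deriv f j :=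
    fun j => le_ciSup (Set.finite_range fun j => l2Deriv f j).bddAbove j
  have hnn : ∀ j, 0 ≤ l2Deriv f j := fun j => Real.sqrt_nonneg _
  have hMn : 0 ≤ ⨆ j, l2Deriv f j := Real.iSup_nonneg hnn
  calc variance f = ∑ S with S ≠ ∅, Pool.Agent.Helper12.AA.fh f S ^ 2 :=
        Pool.Agent.Helper12.AA.variance_eq f
    _ ≤ ∑ j, ∑ S with j ∈ S, Pool.Agent.Helper12.AA.fh f S ^ 2 :=
        Pool.Agent.Helper12.AA.variance_le f
    _ = ∑ j, l2Deriv f j * l2Deriv f j := by
        refine Finset.sum_congr rfl fun j _ => ?_
        rw [hl2, Real.mul_self_sqrt (Finset.sum_nonneg fun _ _ => sq_nonneg _)]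
    _ ≤ ∑ j, l2Deriv f j * ⨆ j, l2Deriv f j :=
        Finset.sum_le_sum fun j _ => mul_le_mul_of_nonneg_left (hM j) (hnn j)
    _ = (∑ j, l2Deriv f j) * ⨆ j, l2Deriv f j := by rw [Finset.sum_mul]
    _ ≤ B * (d : ℝ) ^ C * ⨆ j, l2Deriv f j := mul_le_mul_of_nonneg_right hsum hMn

end Pool.Agent.Helper12.StructureInvariantKept
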