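import Mathlib

/-!
# Instances satisfying the hypotheses of the hand-ins of helper12 (vacuity checks)
-/

set_option autoImplicit false

open MeasureTheory ProbabilityTheory

namespace Pool.Agent.Helper12.Vacuity

/-- MP_0d5435_pr NotPoisson: a probability space with independent standard Gaussian entries. -/
theorem notPoisson : ∃ (Ω : Type) (_ : MeasurableSpace Ω) (P : Measure Ω)
    (_ : IsProbabilityMeasure P) (X : ℕ → Ω → ℝ), (∀ k, Measurable (X k)) ∧ iIndepFun X P ∧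
    ∀ k, P.map (X k) = gaussianReal 0 1 := by
  refine ⟨ℕ → ℝ, inferInstance, Measure.infinitePi (fun _ => gaussianReal 0 1), inferInstance,
    fun k ω => ω k, fun k => measurable_pi_apply k, ?_, ?_⟩
  · exact iIndepFun_infinitePi (P := fun _ : ℕ => gaussianReal 0 1) (X := fun _ x => x)
      (fun _ => measurable_id)
  · intro k
    exact Measure.infinitePi_map_eval (μ := fun _ : ℕ => gaussianReal 0 1) k

/-- MP_1e94b9_an (S04003): a finite-dimensional space (here `ℝ`) contains no copy of `ℓ¹`. -/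
theorem godefroy : ¬ ∃ T : (lp (fun _ : ℕ => ℝ) 1) →L[ℝ] ℝ, ∃ c : ℝ, 0 < c ∧
    ∀ a, c * ‖a‖ ≤ ‖T a‖ := by
  rintro ⟨T, c, hc, h⟩
  have hinj : ∀ a, T a = 0 → a = 0 := by
    intro a ha
    have := h a
    rw [ha, norm_zero] at this
    have h2 : ‖a‖ = 0 := by nlinarith [norm_nonneg a]
    exact norm_eq_zero.1 h2
  set e0 : lp (fun _ : ℕ => ℝ) 1 := lp.single 1 0 (1 : ℝ)
  set e1 : lp (fun _ : ℕ => ℝ) 1 := lp.single 1 1 (1 : ℝ)
  have h3 : T (T e1 • e0 - T e0 • e1) = 0 := by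
    rw [map_sub, map_smul, map_smul, smul_eq_mul, smul_eq_mul]
    ring
  have h4 := hinj _ h3
  have h5 : (T e1 • e0 - T e0 • e1 : lp (fun _ : ℕ => ℝ) 1) 1 = 0 := by rw [h4]; rfl
  have h6 : (T e1 • e0 - T e0 • e1 : lp (fun _ : ℕ => ℝ) 1) 1 = - T e0 := by
    simp [e0, e1, lp.single_apply]
  rw [h6] at h5
  have h7 : T e0 = 0 := by linarith
  have h8 := hinj _ h7
  have h9 : (e0 : ∀ _ : ℕ, ℝ) 0 = 0 := by rw [h8]; rfl
  have h10 : (e0 : ∀ _ : ℕ, ℝ) 0 = 1 := by simp [e0, lp.single_apply]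
  rw [h10] at h9
  exact one_ne_zero h9

end Pool.Agent.Helper12.Vacuity
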