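import Pool.Agent.Results.MP_290264_an.BoundedRecurrence
import Pool.Agent.Results.MP_290264_an.StableConjecture

/-!
# The hypotheses of StableConjecture are satisfiable

The group of BoundedRecurrence is finitely generated and non-amenable. In it every set which contains
the differences of arbitrarily large finite sets is topologically recurrent, whereas `C(K, G)`
contains an injective sequence whose differences are measurably but not topologically recurrent.
-/

set_option autoImplicit false

open Helper96.Recurrence Pool.Agent.Results.MP_290264_an

theorem Pool.Agent.Helper12.vacuity_stable :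
    ∃ (G : Type) (_ : Group G), Countable G ∧ ¬ IsAmenable G ∧
      (∀ a : ℕ → G, Function.Injective a →
        IsTopologicallyRecurrent.{0, 0} G (StableConjecture.Differences a)) ∧
      ∃ a : ℕ → LocallyConstant (ℕ → Bool) G, Function.Injective a ∧
        ¬ IsTopologicallyRecurrent.{0, 0} _ (StableConjecture.Differences a) := by
  classical
  obtain ⟨G, hG, D, hfg, hna, -, -, -, -, -, -, -, -, hdiff⟩ := BoundedRecurrence.result.{0, 0}
  have hc : Countable G := by
    obtain ⟨S, hS, hfin⟩ := (Group.fg_iff (G := G)).mp hfg
    have : Finite S := hfin
    have h2 : Function.Surjective (FreeGroup.lift (fun s : S => (s : G))) := by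
      rw [← MonoidHom.range_eq_top, FreeGroup.range_lift_eq_closure, Subtype.range_coe]
      exact hS
    have h1 : Countable (FreeGroup S) :=
      Function.Surjective.countable
        (Quot.mk_surjective : Function.Surjective (Quot.mk (@FreeGroup.Red.Step S)))
    exact h2.countable
  refine ⟨G, hG, hc, hna, fun a ha => ?_, ?_⟩
  · refine (hdiff _ fun k => ?_).1
    refine ⟨(Finset.range k).image a, ?_, ?_⟩
    · rw [Finset.card_image_of_injective _ ha, Finset.card_range]
    · intro x hx y hy hxy
      obtain ⟨v, -, rfl⟩ := Finset.mem_image.mp hx
      obtain ⟨w, -, rfl⟩ := Finset.mem_image.mp hy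
      exact ⟨w, v, fun h => hxy (by rw [h]), rfl⟩
  · obtain ⟨h0, -, h⟩ := StableConjecture.result.{0, 0} G hna
    obtain ⟨a, ha, -, h1, -⟩ := h (LocallyConstant (ℕ → Bool) G) (MonoidHom.id _)
      Function.injective_id
    exact ⟨a, ha, h1⟩
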